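import Pool.Agent.Lib_helper51.Flat.Transfer
import Pool.Agent.Lib_helper8.QP.EvBasic

/-!
# Composition with gadgets (MP_cf5f8b_an)
-/

set_option autoImplicit false
set_option linter.unusedSectionVars false

open Finset

namespace Pool.Agent.Lib_helper51.Flat

open Lib_helper30.AA Lib_helper8.QP Lib_helper12.CERT

variable {J : Type} [Fintype J] [DecidableEq J] {K : J → Type} [∀ j, Fintype (K j)]
  [∀ j, DecidableEq (K j)]

/-- The block `j`. -/
def blk (j : J) (y : (Σ j, K j) → Bool) : K j → Bool := fun a => y ⟨j, a⟩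

lemma av_blocks (a : ∀ j, (K j → Bool) → ℝ) :
    av (fun y : (Σ j, K j) → Bool => ∏ j, a j (blk j y)) = ∏ j, av (a j) := by
  unfold av
  have h1 : ∑ y : (Σ j, K j) → Bool, ∏ j, a j (blk j y) =
      ∑ z : ∀ j, K j → Bool, ∏ j, a j (z j) :=
    Fintype.sum_equiv (Equiv.piCurry (fun j (_ : K j) => Bool)) _ _ (fun y => rfl)
  have h2 : ∑ z : ∀ j, K j → Bool, ∏ j, a j (z j) = ∏ j, ∑ z, a j z := by
    rw [Finset.prod_univ_sum, Fintype.piFinset_univ]
  rw [h1, h2, Finset.prod_mul_distrib, Fintype.card_sigma, Finset.prod_inv_distrib,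
    Finset.prod_pow_eq_pow_sum]

/-- A sum of products of functions of the blocks. -/
noncomputable def msum (c : Finset J → ℝ) (φ : ∀ j, (K j → Bool) → ℝ) (y : (Σ j, K j) → Bool) : ℝ :=
  ∑ S : Finset J, c S * ∏ j ∈ S, φ j (blk j y)

lemma prod_ite_eq (S : Finset J) (f : J → ℝ) : ∏ j ∈ S, f j = ∏ j, if j ∈ S then f j else 1 := by
  rw [Finset.prod_ite_mem, Finset.univ_inter]

lemma av_msum (c : Finset J → ℝ) {φ : ∀ j, (K j → Bool) → ℝ} (h0 : ∀ j, av (φ j) = 0) :
    av (msum c φ) = c ∅ := by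
  unfold msum
  rw [av_sum]
  have h1 : ∀ S : Finset J, av (fun y : (Σ j, K j) → Bool => c S * ∏ j ∈ S, φ j (blk j y)) =
      if S = ∅ then c S else 0 := by
    intro S
    rw [av_mul_left]
    have h2 : (fun y : (Σ j, K j) → Bool => ∏ j ∈ S, φ j (blk j y)) =
        fun y => ∏ j, if j ∈ S then φ j (blk j y) else 1 := by
      funext y
      rw [prod_ite_eq]
    rw [h2, av_blocks fun j (z : K j → Bool) => if j ∈ S then φ j z else 1]
    split_ifs with h
    · subst h
      have : ∏ j, av (fun z : K j → Bool => if j ∈ (∅ : Finset J) then φ j z else 1) = 1 := by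
        refine Finset.prod_eq_one fun j _ => ?_
        simp only [Finset.notMem_empty, if_false]
        exact av_const 1
      rw [this, mul_one]
    · obtain ⟨j, hj⟩ := Finset.nonempty_iff_ne_empty.2 h
      rw [Finset.prod_eq_zero (Finset.mem_univ j), mul_zero]
      simp only [hj, if_true]
      exact h0 j
  simp_rw [h1]
  rw [Finset.sum_ite_eq' univ ∅ c, if_pos (Finset.mem_univ _)]

lemma av_msum_sq (c : Finset J → ℝ) {φ : ∀ j, (K j → Bool) → ℝ} (h0 : ∀ j, av (φ j) = 0) :
    av (fun y => msum c φ y ^ 2) = ∑ S : Finset J, c S ^ 2 * ∏ j ∈ S, av (fun z => φ j z ^ 2) := by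
  have h1 : ∀ y : (Σ j, K j) → Bool, msum c φ y ^ 2 = ∑ S : Finset J, ∑ T : Finset J,
      (c S * c T) * ∏ j, ((if j ∈ S then φ j (blk j y) else 1) *
        (if j ∈ T then φ j (blk j y) else 1)) := by
    intro y
    unfold msum
    rw [sq, Finset.sum_mul_sum]
    refine Finset.sum_congr rfl fun S _ => Finset.sum_congr rfl fun T _ => ?_
    rw [Finset.prod_mul_distrib, ← prod_ite_eq, ← prod_ite_eq]
    ring
  simp_rw [h1]
  rw [av_sum]
  refine Finset.sum_congr rfl fun S _ => ?_
  rw [av_sum]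
  have h2 : ∀ T : Finset J, av (fun y : (Σ j, K j) → Bool => (c S * c T) *
      ∏ j, ((if j ∈ S then φ j (blk j y) else 1) * (if j ∈ T then φ j (blk j y) else 1))) =
      if T = S then c S ^ 2 * ∏ j ∈ S, av (fun z => φ j z ^ 2) else 0 := by
    intro T
    rw [av_mul_left]
    rw [av_blocks fun j z => (if j ∈ S then φ j z else 1) * (if j ∈ T then φ j z else 1)]
    split_ifs with h
    · subst h
      rw [prod_ite_eq T, ← sq]
      congr 1
      refine Finset.prod_congr rfl fun j _ => ?_
      split_ifs with hj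
      · congr 1
        funext z
        ring
      · simp only [mul_one]
        exact av_const 1
    · have h3 : ∃ j, ¬ (j ∈ S ↔ j ∈ T) := by
        by_contra hcon
        push Not at hcon
        exact h (Finset.ext fun j => (hcon j).symm)
      obtain ⟨j, hj⟩ := h3
      rw [Finset.prod_eq_zero (Finset.mem_univ j), mul_zero]
      by_cases hS : j ∈ S
      · have hT : j ∉ T := fun hT => hj ⟨fun _ => hT, fun _ => hS⟩
        simp only [hS, hT, if_true, if_false, mul_one]
        exact h0 j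
      · have hT : j ∈ T := by
          by_contra hT
          exact hj ⟨fun h => absurd h hS, fun h => absurd h hT⟩
        simp only [hS, hT, if_true, if_false, one_mul]
        exact h0 j
  simp_rw [h2]
  rw [Finset.sum_ite_eq' univ S, if_pos (Finset.mem_univ _)]

/-- The composition of (the multilinear extension of) `G` with the gadgets `φ`. -/
noncomputable def comp (G : (J → Bool) → ℝ) (φ : ∀ j, (K j → Bool) → ℝ)
    (y : (Σ j, K j) → Bool) : ℝ := ev (fun j => φ j (blk j y)) G

lemma comp_eq (G : (J → Bool) → ℝ) (φ : ∀ j, (K j → Bool) → ℝ) :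
    comp G φ = msum (coef G) φ := by
  funext y
  unfold comp msum
  rw [ev_eq_sum]

lemma abs_ev_le {b : J → ℝ} (hb : ∀ i, |b i| ≤ 1) (g : (J → Bool) → ℝ) :
    |ev b g| ≤ ev b (fun x => |g x|) := by
  rw [abs_le]
  constructor
  · have h1 := ev_mono hb (g := fun x => (-1) * |g x|) (h := g) fun x => by
      linarith [neg_abs_le (g x)]
    rw [ev_const_mul] at h1
    linarith
  · exact ev_mono hb fun x => le_abs_self _

lemma comp_abs {G : (J → Bool) → ℝ} (hG : ∀ x, |G x| ≤ 1) {φ : ∀ j, (K j → Bool) → ℝ}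
    (hφ : ∀ j z, |φ j z| ≤ 1) (y : (Σ j, K j) → Bool) : |comp G φ y| ≤ 1 := by
  unfold comp
  refine (abs_ev_le (fun j => hφ j _) G).trans ?_
  have h1 := ev_mono (b := fun j => φ j (blk j y)) (fun j => hφ j _) (g := fun x => |G x|)
    (h := fun _ => 1) hG
  rwa [ev_const] at h1

lemma comp_vr {G : (J → Bool) → ℝ} {φ : ∀ j, (K j → Bool) → ℝ} (h0 : ∀ j, av (φ j) = 0)
    {d : ℕ} (hd : LowDeg d G) {r : ℝ} (hr0 : 0 ≤ r) (hr1 : r ≤ 1)
    (hr : ∀ j, r ≤ av (fun z => φ j z ^ 2)) : r ^ d * vr G ≤ vr (comp G φ) := by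
  have h1 : vr (comp G φ) = ∑ S ∈ univ.filter (fun S : Finset J => S.Nonempty),
      coef G S ^ 2 * ∏ j ∈ S, av (fun z => φ j z ^ 2) := by
    unfold vr
    rw [comp_eq, av_msum_sq _ h0, av_msum _ h0, Finset.sum_filter,
      ← Finset.add_sum_erase univ _ (Finset.mem_univ ∅),
      ← Finset.add_sum_erase univ (fun S : Finset J => if S.Nonempty then
        coef G S ^ 2 * ∏ j ∈ S, av (fun z => φ j z ^ 2) else 0) (Finset.mem_univ ∅)]
    simp only [Finset.not_nonempty_empty, if_false, Finset.prod_empty, mul_one, zero_add]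
    rw [add_sub_cancel_left]
    refine Finset.sum_congr rfl fun S hS => ?_
    rw [if_pos (Finset.nonempty_iff_ne_empty.2 (Finset.ne_of_mem_erase hS))]
  rw [h1, vr_eq, Finset.mul_sum]
  refine Finset.sum_le_sum fun S _ => ?_
  by_cases hS : d < S.card
  · rw [hd S hS]
    simp
  · rw [mul_comm]
    refine mul_le_mul_of_nonneg_left ?_ (sq_nonneg _)
    calc r ^ d ≤ r ^ S.card := pow_le_pow_of_le_one hr0 hr1 (not_lt.1 hS)
      _ = ∏ _j ∈ S, r := by rw [Finset.prod_const]
      _ ≤ ∏ j ∈ S, av (fun z => φ j z ^ 2) :=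
          Finset.prod_le_prod (fun _ _ => hr0) fun j _ => hr j

/-- The reduced influence. -/
noncomputable def red (G : (J → Bool) → ℝ) (ρ : J → ℝ) (j : J) : ℝ :=
  ∑ S ∈ univ.filter (fun S : Finset J => j ∈ S), coef G S ^ 2 * ∏ l ∈ S.erase j, ρ l

lemma red_mono {G : (J → Bool) → ℝ} {ρ ρ' : J → ℝ} (h0 : ∀ j, 0 ≤ ρ j) (h : ∀ j, ρ j ≤ ρ' j)
    (j : J) : red G ρ j ≤ red G ρ' j := by
  unfold red
  refine Finset.sum_le_sum fun S _ => mul_le_mul_of_nonneg_left ?_ (sq_nonneg _)
  exact Finset.prod_le_prod (fun l _ => h0 l) fun l _ => h l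

lemma red_one (G : (J → Bool) → ℝ) (j : J) : red G (fun _ => 1) j = wt G j := by
  unfold red wt
  refine Finset.sum_congr rfl fun S _ => ?_
  rw [Finset.prod_const_one, mul_one]

lemma red_lower {G : (J → Bool) → ℝ} {d : ℕ} (hd : LowDeg d G) {ρ : J → ℝ} {r : ℝ} (hr0 : 0 ≤ r)
    (hr1 : r ≤ 1) (h : ∀ j, r ≤ ρ j) (j : J) : r ^ d * wt G j ≤ red G ρ j := by
  unfold red wt
  rw [Finset.mul_sum]
  refine Finset.sum_le_sum fun S _ => ?_
  by_cases hS : d < S.card
  · rw [hd S hS]
    simp
  · rw [mul_comm]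
    refine mul_le_mul_of_nonneg_left ?_ (sq_nonneg _)
    calc r ^ d ≤ r ^ (S.erase j).card :=
          pow_le_pow_of_le_one hr0 hr1 ((Finset.card_erase_le).trans (not_lt.1 hS))
      _ = ∏ _j ∈ S.erase j, r := by rw [Finset.prod_const]
      _ ≤ ∏ l ∈ S.erase j, ρ l := Finset.prod_le_prod (fun _ _ => hr0) fun l _ => h l

lemma blk_flip_self (j : J) (a : K j) (y : (Σ j, K j) → Bool) :
    blk j (Lib_helper30.AA.flip ⟨j, a⟩ y) = Lib_helper30.AA.flip a (blk j y) := by
  funext b
  unfold blk Lib_helper30.AA.flip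
  by_cases h : b = a
  · subst h
    simp
  · rw [Function.update_of_ne h, Function.update_of_ne]
    intro h2
    exact h (eq_of_heq (Sigma.mk.inj h2).2)

lemma blk_flip_ne {j l : J} (h : l ≠ j) (a : K j) (y : (Σ j, K j) → Bool) :
    blk l (Lib_helper30.AA.flip ⟨j, a⟩ y) = blk l y := by
  funext b
  unfold blk Lib_helper30.AA.flip
  rw [Function.update_of_ne]
  intro h2
  exact h (Sigma.mk.inj h2).1

lemma comp_wt {G : (J → Bool) → ℝ} {φ : ∀ j, (K j → Bool) → ℝ} (h0 : ∀ j, av (φ j) = 0)
    (j : J) (a : K j) : wt (comp G φ) ⟨j, a⟩ =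
      wt (φ j) a * red G (fun l => av (fun z => φ l z ^ 2)) j := by
  rw [wt_eq]
  let ψ : (K j → Bool) → ℝ := fun z => (φ j z - φ j (Lib_helper30.AA.flip a z)) / 2
  have hψ : av ψ = 0 := by
    have h1 : ψ = fun z => (1 / 2) * (φ j z - φ j (Lib_helper30.AA.flip a z)) := by
      funext z
      simp only [ψ]
      ring
    rw [h1, av_mul_left, av_sub, av_flip a (φ j)]
    ring
  have h0' : ∀ l, av (Function.update φ j ψ l) = 0 := by
    intro l
    by_cases h : l = j
    · subst h
      rw [Function.update_self]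
      exact hψ
    · rw [Function.update_of_ne h]
      exact h0 l
  have h1 : ∀ y : (Σ j, K j) → Bool,
      (comp G φ y - comp G φ (Lib_helper30.AA.flip ⟨j, a⟩ y)) / 2 =
        msum (fun S => if j ∈ S then coef G S else 0) (Function.update φ j ψ) y := by
    intro y
    rw [comp_eq]
    unfold msum
    rw [← Finset.sum_sub_distrib, Finset.sum_div]
    refine Finset.sum_congr rfl fun S _ => ?_
    beta_reduce
    by_cases hj : j ∈ S
    · rw [if_pos hj, ← Finset.mul_prod_erase S _ hj, ← Finset.mul_prod_erase S _ hj,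
        ← Finset.mul_prod_erase S _ hj, Function.update_self, blk_flip_self]
      have h2 : ∏ l ∈ S.erase j, φ l (blk l (Lib_helper30.AA.flip ⟨j, a⟩ y)) =
          ∏ l ∈ S.erase j, φ l (blk l y) :=
        Finset.prod_congr rfl fun l hl => by rw [blk_flip_ne (Finset.ne_of_mem_erase hl)]
      have h3 : ∏ l ∈ S.erase j, Function.update φ j ψ l (blk l y) =
          ∏ l ∈ S.erase j, φ l (blk l y) :=
        Finset.prod_congr rfl fun l hl => by
          rw [Function.update_of_ne (Finset.ne_of_mem_erase hl)]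
      rw [h2, h3]
      simp only [ψ]
      ring
    · rw [if_neg hj]
      have h2 : ∏ l ∈ S, φ l (blk l (Lib_helper30.AA.flip ⟨j, a⟩ y)) =
          ∏ l ∈ S, φ l (blk l y) :=
        Finset.prod_congr rfl fun l hl => by
          rw [blk_flip_ne]
          rintro rfl
          exact hj hl
      rw [h2]
      ring
  simp_rw [h1]
  rw [av_msum_sq _ h0']
  unfold red
  rw [Finset.sum_filter, Finset.mul_sum]
  refine Finset.sum_congr rfl fun S _ => ?_
  split_ifs with hj
  · rw [← Finset.mul_prod_erase S _ hj, Function.update_self, wt_eq]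
    have h3 : ∏ l ∈ S.erase j, av (fun z => Function.update φ j ψ l z ^ 2) =
        ∏ l ∈ S.erase j, av (fun z => φ l z ^ 2) :=
      Finset.prod_congr rfl fun l hl => by
        rw [Function.update_of_ne (Finset.ne_of_mem_erase hl)]
    rw [h3]
    ring
  · ring

/-- The embedding of a block. -/
def emS (j : J) : K j ↪ (Σ j, K j) := ⟨fun a => ⟨j, a⟩, fun _ _ h => eq_of_heq (Sigma.mk.inj h).2⟩

lemma comp_lowDeg {G : (J → Bool) → ℝ} (φ : ∀ j, (K j → Bool) → ℝ) {d k : ℕ} (hd : LowDeg d G)
    (hk : ∀ j, Fintype.card (K j) ≤ k) : LowDeg (d * k) (comp G φ) := by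
  rw [comp_eq]
  refine lowDeg_sum _ fun S _ => ?_
  by_cases hS : d < S.card
  · rw [hd S hS]
    intro T _
    simp only [zero_mul]
    exact coef_zero_fun T
  · refine lowDeg_const_mul _ ?_
    have h1 : ∀ T : Finset J, LowDeg (T.card * k)
        (fun y : (Σ j, K j) → Bool => ∏ j ∈ T, φ j (blk j y)) := by
      intro T
      induction T using Finset.induction_on with
      | empty =>
        simp only [Finset.prod_empty, Finset.card_empty, zero_mul]
        exact lowDeg_const 1
      | insert j T hj ih =>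
        simp only [Finset.prod_insert hj]
        rw [Finset.card_insert_of_notMem hj, add_mul, one_mul, add_comm]
        refine lowDeg_mul ?_ ih
        have h2 : LowDeg k (φ j) := by
          intro T hT
          have := Finset.card_le_univ T
          have := hk j
          omega
        exact lowDeg_pull (e := emS j) h2
    refine lowDeg_mono ?_ (h1 S)
    exact Nat.mul_le_mul_right k (not_lt.1 hS)

lemma ev_swap {b b' : J → ℝ} {T : Finset J} (h : ∀ j, j ∉ T → b' j = b j) (g : (J → Bool) → ℝ) :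
    ev b (fun x => ev b' (fun x' => g (fill T x' x))) = ev b' g := by
  have h1 : ∀ x x' : J → Bool, g (fill T x' x) =
      ∑ S : Finset J, (coef g S * chi (S \ T) x) * chi (S ∩ T) x' := by
    intro x x'
    rw [inversion g (fill T x' x)]
    refine Finset.sum_congr rfl fun S _ => ?_
    have h2 : chi S (fill T x' x) = chi (S \ T) x * chi (S ∩ T) x' := by
      rw [chi_eq, chi_eq, chi_eq, ← Finset.prod_inter_mul_prod_sdiff S T, mul_comm]
      congr 1
      · refine Finset.prod_congr rfl fun i hi => ?_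
        unfold fill
        rw [if_neg (Finset.mem_sdiff.1 hi).2]
      · refine Finset.prod_congr rfl fun i hi => ?_
        unfold fill
        rw [if_pos (Finset.mem_inter.1 hi).2]
    rw [h2]
    ring
  simp_rw [h1]
  have h2 : ∀ x : J → Bool, ev b' (fun x' => ∑ S : Finset J,
      (coef g S * chi (S \ T) x) * chi (S ∩ T) x') =
      ∑ S : Finset J, (coef g S * ∏ i ∈ S ∩ T, b' i) * chi (S \ T) x := by
    intro x
    rw [ev_sum]
    refine Finset.sum_congr rfl fun S _ => ?_
    rw [ev_const_mul, ev_chi]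
    ring
  simp_rw [h2]
  rw [ev_sum, ev_eq_sum]
  refine Finset.sum_congr rfl fun S _ => ?_
  rw [ev_const_mul, ev_chi, mul_assoc, ← Finset.prod_inter_mul_prod_sdiff S T]
  congr 2
  refine Finset.prod_congr rfl fun i hi => ?_
  rw [h i (Finset.mem_sdiff.1 hi).2]

lemma ev_diff_le {b b' : J → ℝ} (hb : ∀ j, |b j| ≤ 1) (hb' : ∀ j, |b' j| ≤ 1) {T : Finset J}
    (h : ∀ j, j ∉ T → b' j = b j) (g : (J → Bool) → ℝ) :
    |ev b' g - ev b g| ≤ ev b (osc g T) := by
  rw [← ev_swap h g, ← ev_sub]
  refine (abs_ev_le hb _).trans (ev_mono hb fun x => ?_)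
  have h1 : ev b' (fun x' => g (fill T x' x)) - g x =
      ev b' (fun x' => g (fill T x' x) - g x) := by
    rw [ev_sub, ev_const]
  rw [h1]
  refine (abs_ev_le hb' _).trans ?_
  have h2 := ev_mono hb' (g := fun x' => |g (fill T x' x) - g x|) (h := fun _ => osc g T x)
    fun x' => by
      rw [fill_eq_flipSet]
      exact le_osc (Finset.filter_subset _ _) x
  rwa [ev_const] at h2

/-- Coalitions are not amplified by the composition. -/
theorem comp_Osc {G : (J → Bool) → ℝ} {φ : ∀ j, (K j → Bool) → ℝ} (h0 : ∀ j, av (φ j) = 0)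
    (hφ : ∀ j z, |φ j z| ≤ 1) (T : Finset (Σ j, K j)) :
    Osc (comp G φ) T ≤ Osc G (T.image Sigma.fst) := by
  have h1 : ∀ y, osc (comp G φ) T y ≤ comp (osc G (T.image Sigma.fst)) φ y := by
    intro y
    obtain ⟨B, hB, h⟩ := exists_osc (comp G φ) T y
    rw [h]
    unfold comp
    refine ev_diff_le (fun j => hφ j _) (fun j => hφ j _) ?_ G
    intro j hj
    congr 1
    funext a
    unfold blk flipSet
    rw [if_neg]
    intro h2
    exact hj (Finset.mem_image.2 ⟨⟨j, a⟩, hB h2, rfl⟩)
  unfold Osc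
  refine (av_mono h1).trans (le_of_eq ?_)
  rw [comp_eq, av_msum _ h0, coef_eq_av]
  congr 1
  funext x
  rw [chi_eq, Finset.prod_empty, mul_one]

end Pool.Agent.Lib_helper51.Flat
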