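import Pool.Agent.Lib_helper51.Flat.Transfer
import Pool.Agent.Lib_helper12.CERT.Dnf

/-!
# Independent copies (MP_cf5f8b_an)
-/

set_option autoImplicit false
set_option linter.unusedSectionVars false

open Finset

namespace Pool.Agent.Lib_helper51.Flat

open Lib_helper30.AA Lib_helper8.QP Lib_helper12.CERT

variable {I : Type} [Fintype I] [DecidableEq I]

lemma lowDeg_pow {d : ℕ} {s : (I → Bool) → ℝ} (hs : LowDeg d s) (k : ℕ) :
    LowDeg (k * d) (fun x => s x ^ k) := by
  induction k with
  | zero =>
    simp only [pow_zero, zero_mul]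
    exact lowDeg_const 1
  | succ k ih =>
    have h := lowDeg_mul ih hs
    have h2 : (fun x => s x ^ k * s x) = fun x => s x ^ (k + 1) := by
      funext x
      ring
    rw [h2] at h
    rwa [add_mul, one_mul]

lemma lowDeg_poly {d n : ℕ} {s : (I → Bool) → ℝ} (hs : LowDeg d s) {P : Polynomial ℝ}
    (hP : P.natDegree ≤ n) : LowDeg (n * d) (fun x => P.eval (s x)) := by
  have h1 : (fun x => P.eval (s x)) =
      fun x => ∑ k ∈ Finset.range (n + 1), P.coeff k * s x ^ k := by
    funext x
    rw [Polynomial.eval_eq_sum_range' (Nat.lt_succ_of_le hP)]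
  rw [h1]
  refine lowDeg_sum _ fun k hk => ?_
  refine lowDeg_const_mul _ (lowDeg_mono ?_ (lowDeg_pow hs k))
  rw [Finset.mem_range] at hk
  exact Nat.mul_le_mul_right d (by omega)

/-! ### Independent copies -/

/-- The `i`-th block. -/
def em {N : ℕ} (i : Fin N) : I ↪ Fin N × I := ⟨fun a => (i, a), fun _ _ h => (Prod.mk.inj h).2⟩

/-- The sum over independent copies. -/
noncomputable def sS {N : ℕ} (h : (I → Bool) → ℝ) (T : Finset (Fin N)) (x : Fin N × I → Bool) :
    ℝ := ∑ i ∈ T, h (rs (em i) x)

lemma indep {N : ℕ} (A : (I → Bool) → ℝ) (B : ℝ → ℝ) (h : (I → Bool) → ℝ) {T : Finset (Fin N)}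
    {i : Fin N} (hi : i ∉ T) :
    av (fun x : Fin N × I → Bool => A (rs (em i) x) * B (sS h T x)) =
      av A * av (fun x => B (sS h T x)) := by
  have hφ : ∀ y z : Fin N × I → Bool, (∀ j ∈ univ.map (em i : I ↪ Fin N × I), z j = y j) →
      A (rs (em i) z) = A (rs (em i) y) := by
    intro y z hyz
    congr 1
    funext a
    unfold rs
    exact hyz _ (Finset.mem_map_of_mem _ (Finset.mem_univ a))
  have h1 := part_av (T := fun _ : Fin N × I → Bool => univ.map (em i : I ↪ Fin N × I))
    (fun _ _ _ => rfl) (φ := fun y => A (rs (em i) y)) hφ (fun x => B (sS h T x))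
  have h2 : ∀ x y : Fin N × I → Bool,
      sS h T (fill (univ.map (em i : I ↪ Fin N × I)) y x) = sS h T x := by
    intro x y
    unfold sS
    refine Finset.sum_congr rfl fun k hk => ?_
    congr 1
    funext a
    unfold rs fill
    rw [if_neg]
    rw [Finset.mem_map]
    rintro ⟨b, -, hb⟩
    have : i = k := (Prod.mk.inj hb).1
    exact hi (this ▸ hk)
  simp only [h2] at h1
  rw [← h1, av_mul_right]
  have h3 : av (fun y : Fin N × I → Bool => A (rs (em i) y)) = av A := av_pull (em i) A
  rw [h3]

lemma moments {N : ℕ} {h : (I → Bool) → ℝ} {V : ℝ} (h1 : av h = 0)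
    (h2 : av (fun x => h x ^ 2) = V) (h4 : av (fun x => h x ^ 4) ≤ 4 * V)
    (T : Finset (Fin N)) :
    av (sS h T) = 0 ∧ av (fun x => sS h T x ^ 2) = T.card * V ∧
      av (fun x => sS h T x ^ 4) ≤ 4 * V * T.card + 3 * V ^ 2 * (T.card : ℝ) ^ 2 := by
  induction T using Finset.induction_on with
  | empty =>
    have h0 : ∀ x : Fin N × I → Bool, sS h ∅ x = 0 := fun x => by simp [sS]
    refine ⟨?_, ?_, ?_⟩
    · rw [show sS h ∅ = fun _ : Fin N × I → Bool => (0 : ℝ) from funext h0, av_const]
    · simp only [h0]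
      rw [show (fun _ : Fin N × I → Bool => (0 : ℝ) ^ 2) = fun _ => 0 by funext; norm_num,
        av_const]
      simp
    · simp only [h0]
      rw [show (fun _ : Fin N × I → Bool => (0 : ℝ) ^ 4) = fun _ => 0 by funext; norm_num,
        av_const]
      simp
  | insert i T hi ih =>
    obtain ⟨ih1, ih2, ih4⟩ := ih
    have e : ∀ x : Fin N × I → Bool, sS h (insert i T) x = h (rs (em i) x) + sS h T x := by
      intro x
      unfold sS
      rw [Finset.sum_insert hi]
    have p1 : av (fun x : Fin N × I → Bool => h (rs (em i) x)) = 0 := by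
      rw [← h1]
      exact av_pull (em i) h
    have p2 : av (fun x : Fin N × I → Bool => h (rs (em i) x) ^ 2) = V := by
      rw [← h2]
      exact av_pull (em i) (fun x => h x ^ 2)
    have p4 : av (fun x : Fin N × I → Bool => h (rs (em i) x) ^ 4) ≤ 4 * V := by
      refine le_trans (le_of_eq ?_) h4
      exact av_pull (em i) (fun x => h x ^ 4)
    have c11 : av (fun x : Fin N × I → Bool => h (rs (em i) x) * sS h T x) = 0 := by
      rw [indep h (fun t => t) h hi, h1, zero_mul]
    have c31 : av (fun x : Fin N × I → Bool => h (rs (em i) x) ^ 3 * sS h T x) = 0 := by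
      rw [indep (fun x => h x ^ 3) (fun t => t) h hi]
      rw [show av (fun x : Fin N × I → Bool => sS h T x) = 0 from ih1, mul_zero]
    have c22 : av (fun x : Fin N × I → Bool => h (rs (em i) x) ^ 2 * sS h T x ^ 2) =
        V * (T.card * V) := by
      rw [indep (fun x => h x ^ 2) (fun t => t ^ 2) h hi, h2, ih2]
    have c13 : av (fun x : Fin N × I → Bool => h (rs (em i) x) * sS h T x ^ 3) = 0 := by
      rw [indep h (fun t => t ^ 3) h hi, h1, zero_mul]
    rw [Finset.card_insert_of_notMem hi]
    refine ⟨?_, ?_, ?_⟩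
    · rw [show sS h (insert i T) = fun x => h (rs (em i) x) + sS h T x from funext e, av_add, p1]
      rw [zero_add]
      exact ih1
    · simp_rw [e]
      have e2 : ∀ x : Fin N × I → Bool, (h (rs (em i) x) + sS h T x) ^ 2 =
          (h (rs (em i) x) ^ 2 + 2 * (h (rs (em i) x) * sS h T x)) + sS h T x ^ 2 :=
        fun x => by ring
      simp_rw [e2]
      rw [av_add, av_add, av_mul_left, p2, c11, ih2]
      push_cast
      ring
    · simp_rw [e]
      have e4 : ∀ x : Fin N × I → Bool, (h (rs (em i) x) + sS h T x) ^ 4 =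
          ((h (rs (em i) x) ^ 4 + 4 * (h (rs (em i) x) ^ 3 * sS h T x)) +
            (6 * (h (rs (em i) x) ^ 2 * sS h T x ^ 2) +
              4 * (h (rs (em i) x) * sS h T x ^ 3))) + sS h T x ^ 4 :=
        fun x => by ring
      simp_rw [e4]
      rw [av_add, av_add, av_add, av_add, av_mul_left, av_mul_left, av_mul_left, c31, c22, c13]
      push_cast
      nlinarith [sq_nonneg V]

lemma lowDeg_pull_em {N d : ℕ} {h : (I → Bool) → ℝ} (hh : LowDeg d h) (i : Fin N) :
    LowDeg d (fun x : Fin N × I → Bool => h (rs (em i) x)) := lowDeg_pull hh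

end Pool.Agent.Lib_helper51.Flat
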