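import Pool.Agent.Lib_helper51.Flat.Transfer
import Pool.Agent.Lib_helper30.AA.LinForm

/-!
# The gadget: majority with a modified level (MP_cf5f8b_an)
-/

set_option autoImplicit false
set_option linter.unusedSectionVars false

open Finset

namespace Pool.Agent.Lib_helper51.Flat

open Lib_helper30.AA Lib_helper8.QP Lib_helper12.CERT

variable {K : Type} [Fintype K] [DecidableEq K]

/-- The number of ones in `T`. -/
def cntOn (T : Finset K) (y : K → Bool) : ℕ := (T.filter fun a => y a = true).card

lemma cntOn_insert {T : Finset K} {a : K} (ha : a ∉ T) (y : K → Bool) :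
    cntOn (insert a T) y = cntOn T y + (if y a = true then 1 else 0) := by
  unfold cntOn
  rw [Finset.filter_insert]
  split_ifs with h
  · rw [Finset.card_insert_of_notMem]
    intro h2
    exact ha (Finset.mem_filter.1 h2).1
  · rfl

lemma cntOn_update {T : Finset K} {a : K} (ha : a ∉ T) (y : K → Bool) (b : Bool) :
    cntOn T (Function.update y a b) = cntOn T y := by
  unfold cntOn
  congr 1
  refine Finset.filter_congr fun c hc => ?_
  rw [Function.update_of_ne]
  rintro rfl
  exact ha hc

lemma av_cntOn (T : Finset K) : ∀ G : ℕ → ℝ, av (fun y => G (cntOn T y)) =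
    ((2 : ℝ) ^ T.card)⁻¹ * ∑ i ∈ range (T.card + 1), (T.card.choose i : ℝ) * G i := by
  induction T using Finset.induction_on with
  | empty =>
    intro G
    have h : ∀ y : K → Bool, cntOn ∅ y = 0 := fun y => by simp [cntOn]
    simp only [h]
    rw [av_const]
    simp
  | insert a T ha ih =>
    intro G
    rw [av_fx a]
    have h1 : fx a false (fun y => G (cntOn (insert a T) y)) = fun y => G (cntOn T y) := by
      funext y
      unfold fx
      beta_reduce
      rw [cntOn_insert ha, cntOn_update ha]
      simp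
    have h2 : fx a true (fun y => G (cntOn (insert a T) y)) = fun y => G (cntOn T y + 1) := by
      funext y
      unfold fx
      beta_reduce
      rw [cntOn_insert ha, cntOn_update ha]
      simp
    rw [h1, h2, ih G, ih fun i => G (i + 1), Finset.card_insert_of_notMem ha]
    have h3 := Finset.sum_choose_succ_mul (fun i _ => G i) T.card
    rw [h3, pow_succ]
    field_simp

/-- The indicator of a level. -/
def lev (m i : ℕ) : ℝ := if i = m then 1 else 0

lemma sum_lev (n m : ℕ) : ∑ i ∈ range (n + 1), (n.choose i : ℝ) * lev m i = n.choose m := by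
  unfold lev
  simp only [mul_ite, mul_one, mul_zero]
  rw [Finset.sum_ite_eq' (range (n + 1)) m fun i => (n.choose i : ℝ)]
  split_ifs with h
  · rfl
  · rw [Finset.mem_range, not_lt] at h
    rw [Nat.choose_eq_zero_of_lt (by omega), Nat.cast_zero]

lemma av_lev (T : Finset K) (m : ℕ) : av (fun y => lev m (cntOn T y)) =
    ((2 : ℝ) ^ T.card)⁻¹ * (T.card.choose m : ℝ) := by
  rw [av_cntOn, sum_lev]

/-- The level function. -/
noncomputable def hh (c : ℕ) (s : ℝ) (i : ℕ) : ℝ :=
  if i = c - 1 then 1 - s else if i = c + 2 then -(1 - s) else if i ≤ c then 1 else -1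

lemma hh_abs {c : ℕ} {s : ℝ} (h0 : 0 ≤ s) (h1 : s ≤ 1) (i : ℕ) : |hh c s i| ≤ 1 := by
  unfold hh
  split_ifs
  · rw [abs_le]; constructor <;> linarith
  · rw [abs_le]; constructor <;> linarith
  · simp
  · simp

lemma hh_symm {c : ℕ} (hc : 2 ≤ c) (s : ℝ) {i : ℕ} (hi : i ≤ 2 * c + 1) :
    hh c s (2 * c + 1 - i) = - hh c s i := by
  unfold hh
  by_cases h1 : i = c - 1
  · rw [if_neg (by omega), if_pos (by omega), if_pos h1]
  · by_cases h2 : i = c + 2
    · rw [if_pos (by omega), if_neg h1, if_pos h2]
      ring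
    · by_cases h3 : i ≤ c
      · rw [if_neg (by omega), if_neg (by omega), if_neg (by omega), if_neg h1, if_neg h2,
          if_pos h3]
      · rw [if_neg (by omega), if_neg (by omega), if_pos (by omega), if_neg h1, if_neg h2,
          if_neg h3]
        ring

lemma hh_sq {c : ℕ} (hc : 2 ≤ c) (s : ℝ) (i : ℕ) :
    hh c s i ^ 2 = 1 - (2 * s - s ^ 2) * (lev (c - 1) i + lev (c + 2) i) := by
  unfold hh lev
  by_cases h1 : i = c - 1
  · rw [if_pos h1, if_pos h1, if_neg (by omega)]
    ring
  · by_cases h2 : i = c + 2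
    · rw [if_neg h1, if_pos h2, if_neg h1, if_pos h2]
      ring
    · rw [if_neg h1, if_neg h2, if_neg h1, if_neg h2]
      split_ifs <;> ring

lemma hh_diff {c : ℕ} (hc : 2 ≤ c) (s : ℝ) (i : ℕ) :
    ((hh c s i - hh c s (i + 1)) / 2) ^ 2 =
      lev c i + s ^ 2 / 4 * (lev (c - 2) i + lev (c - 1) i + lev (c + 1) i + lev (c + 2) i) := by
  unfold hh lev
  by_cases h0 : i = c - 2
  · rw [if_neg (by omega), if_neg (by omega), if_pos (by omega), if_pos (by omega),
      if_neg (by omega), if_pos (by omega), if_neg (by omega), if_neg (by omega),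
      if_neg (by omega)]
    ring
  by_cases h1 : i = c - 1
  · rw [if_pos (by omega), if_neg (by omega), if_neg (by omega), if_pos (by omega),
      if_neg (by omega), if_neg (by omega), if_pos (by omega), if_neg (by omega),
      if_neg (by omega)]
    ring
  by_cases h2 : i = c
  · rw [if_neg (by omega), if_neg (by omega), if_pos (by omega), if_neg (by omega),
      if_neg (by omega), if_neg (by omega), if_pos (by omega), if_neg (by omega),
      if_neg (by omega), if_neg (by omega), if_neg (by omega)]
    ring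
  by_cases h3 : i = c + 1
  · rw [if_neg (by omega), if_neg (by omega), if_neg (by omega), if_neg (by omega),
      if_pos (by omega), if_neg (by omega), if_neg (by omega), if_neg (by omega),
      if_pos (by omega), if_neg (by omega)]
    ring
  by_cases h4 : i = c + 2
  · rw [if_neg (by omega), if_pos (by omega), if_neg (by omega), if_neg (by omega),
      if_neg (by omega), if_neg (by omega), if_neg (by omega), if_neg (by omega),
      if_neg (by omega), if_pos (by omega)]
    ring
  rw [if_neg h1, if_neg h4, if_neg (show ¬ i + 1 = c - 1 by omega),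
    if_neg (show ¬ i + 1 = c + 2 by omega), if_neg h2, if_neg h0, if_neg h1, if_neg h3, if_neg h4]
  by_cases h5 : i ≤ c
  · rw [if_pos h5, if_pos (by omega)]
    ring
  · rw [if_neg h5, if_neg (by omega)]
    ring

/-- The influence of the majority of `2c+1` variables. -/
noncomputable def be (c : ℕ) : ℝ := (Nat.centralBinom c : ℝ) / 4 ^ c

/-- The additional influence. -/
noncomputable def ve (c : ℕ) : ℝ :=
  (((2 * c).choose (c - 2) : ℝ) + (2 * c).choose (c - 1) + (2 * c).choose (c + 1) +
    (2 * c).choose (c + 2)) / 4 / 4 ^ c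

/-- The measure of the modified levels. -/
noncomputable def pp (c : ℕ) : ℝ :=
  (((2 * c + 1).choose (c - 1) : ℝ) + (2 * c + 1).choose (c + 2)) / 2 ^ (2 * c + 1)

/-- The gadget. -/
noncomputable def gad (c : ℕ) (s : ℝ) (y : K → Bool) : ℝ := hh c s (cntOn univ y)

lemma gad_abs {c : ℕ} {s : ℝ} (h0 : 0 ≤ s) (h1 : s ≤ 1) (y : K → Bool) : |gad c s y| ≤ 1 :=
  hh_abs h0 h1 _

lemma cntOn_flipSet_univ (y : K → Bool) :
    cntOn univ (flipSet univ y) = Fintype.card K - cntOn univ y := by
  unfold cntOn flipSet
  have h1 : (univ.filter fun a : K => (if a ∈ (univ : Finset K) then !y a else y a) = true) =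
      (univ.filter fun a => y a = true)ᶜ := by
    ext a
    simp
  rw [h1, Finset.card_compl]

lemma gad_av {c : ℕ} (hc : 2 ≤ c) (s : ℝ) (hK : Fintype.card K = 2 * c + 1) :
    av (gad c s : (K → Bool) → ℝ) = 0 := by
  have h1 := av_flipSet (univ : Finset K) (gad c s)
  have h2 : ∀ y : K → Bool, gad c s (flipSet univ y) = - gad c s y := by
    intro y
    unfold gad
    rw [cntOn_flipSet_univ, hK]
    refine hh_symm hc s ?_
    rw [← hK]
    exact Finset.card_le_univ _
  simp only [h2] at h1
  rw [av_neg] at h1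
  linarith

lemma gad_sq {c : ℕ} (hc : 2 ≤ c) (s : ℝ) (hK : Fintype.card K = 2 * c + 1) :
    av (fun y : K → Bool => gad c s y ^ 2) = 1 - (2 * s - s ^ 2) * pp c := by
  unfold gad
  simp_rw [hh_sq hc]
  rw [av_sub, av_const, av_mul_left, av_add, av_lev, av_lev, Finset.card_univ, hK]
  unfold pp
  field_simp

lemma gad_wt {c : ℕ} (hc : 2 ≤ c) (s : ℝ) (hK : Fintype.card K = 2 * c + 1) (a : K) :
    wt (gad c s) a = be c + s ^ 2 * ve c := by
  rw [wt_eq]
  have hcard : (univ.erase a).card = 2 * c := by
    rw [Finset.card_erase_of_mem (Finset.mem_univ a), Finset.card_univ, hK]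
    rfl
  have h1 : ∀ y : K → Bool, ((gad c s y - gad c s (Lib_helper30.AA.flip a y)) / 2) ^ 2 =
      ((hh c s (cntOn (univ.erase a) y) - hh c s (cntOn (univ.erase a) y + 1)) / 2) ^ 2 := by
    intro y
    have h2 : ∀ z : K → Bool, cntOn univ z =
        cntOn (univ.erase a) z + (if z a = true then 1 else 0) := by
      intro z
      have h3 : (univ : Finset K) = insert a (univ.erase a) := by
        rw [Finset.insert_erase (Finset.mem_univ a)]
      conv_lhs => rw [h3]
      exact cntOn_insert (Finset.notMem_erase a univ) z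
    have h4 : cntOn (univ.erase a) (Lib_helper30.AA.flip a y) = cntOn (univ.erase a) y := by
      unfold Lib_helper30.AA.flip
      exact cntOn_update (Finset.notMem_erase a univ) y _
    unfold gad
    rw [h2 y, h2 (Lib_helper30.AA.flip a y), h4]
    cases h5 : y a
    · have h6 : Lib_helper30.AA.flip a y a = true := by
        unfold Lib_helper30.AA.flip
        rw [Function.update_self, h5]
        rfl
      rw [h6]
      simp
    · have h6 : Lib_helper30.AA.flip a y a = false := by
        unfold Lib_helper30.AA.flip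
        rw [Function.update_self, h5]
        rfl
      rw [h6]
      simp only [if_true, Bool.false_eq_true, if_false, add_zero]
      ring
  simp_rw [h1, hh_diff hc]
  rw [av_add, av_mul_left, av_add, av_add, av_add, av_lev, av_lev, av_lev, av_lev, av_lev, hcard]
  unfold be ve
  rw [Nat.centralBinom_eq_two_mul_choose, show (2 : ℝ) ^ (2 * c) = 4 ^ c by
    rw [pow_mul]; norm_num]
  field_simp

/-! ### Estimates -/

lemma be_pos (c : ℕ) : 0 < be c := by
  unfold be
  have := Nat.centralBinom_pos c
  positivity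

lemma be_sq (c : ℕ) : be c ^ 2 * (2 * c + 1) ≤ 1 := by
  have h1 := centralBinom_sq_le c
  have h2 : ((Nat.centralBinom c : ℝ)) ^ 2 * (2 * c + 1) ≤ 16 ^ c := by exact_mod_cast h1
  unfold be
  rw [div_pow, ← pow_mul, mul_comm c 2, pow_mul, div_mul_eq_mul_div, div_le_one (by positivity)]
  norm_num
  exact h2

lemma be_succ (c : ℕ) : be (c + 1) = be c * ((2 * c + 1) / (2 * (c + 1))) := by
  have h1 := Nat.succ_mul_centralBinom_succ c
  have h2 : ((c : ℝ) + 1) * Nat.centralBinom (c + 1) = 2 * (2 * c + 1) * Nat.centralBinom c := by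
    exact_mod_cast h1
  unfold be
  rw [pow_succ]
  field_simp
  linarith

lemma be_lower {c : ℕ} (hc : 1 ≤ c) : 1 / (2 * (c : ℝ)) ≤ be c := by
  have h1 := Nat.four_pow_le_two_mul_self_mul_centralBinom c (by omega)
  have h2 : (4 : ℝ) ^ c ≤ 2 * c * Nat.centralBinom c := by exact_mod_cast h1
  have hc' : (1 : ℝ) ≤ c := by exact_mod_cast hc
  unfold be
  rw [div_le_div_iff₀ (by positivity) (by positivity)]
  linarith

lemma pp_nonneg (c : ℕ) : 0 ≤ pp c := by
  unfold pp
  positivity

lemma pp_le (c : ℕ) : pp c ≤ 2 * be c := by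
  have h1 : (2 * c + 1).choose (c - 1) ≤ (2 * c + 1).choose c := by
    have := Nat.choose_le_middle (c - 1) (2 * c + 1)
    rwa [show (2 * c + 1) / 2 = c by omega] at this
  have h2 : (2 * c + 1).choose (c + 2) ≤ (2 * c + 1).choose c := by
    have := Nat.choose_le_middle (c + 2) (2 * c + 1)
    rwa [show (2 * c + 1) / 2 = c by omega] at this
  have h3 : (2 * c + 1).choose c ≤ 2 * Nat.centralBinom c := by
    rcases c with _ | c
    · simp
    · rw [Nat.choose_succ_succ', Nat.centralBinom_eq_two_mul_choose]
      have := Nat.choose_le_middle c (2 * (c + 1))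
      rw [show (2 * (c + 1)) / 2 = c + 1 by omega] at this
      omega
  have h4 : (((2 * c + 1).choose (c - 1) : ℝ) + (2 * c + 1).choose (c + 2)) ≤
      4 * Nat.centralBinom c := by
    have : (2 * c + 1).choose (c - 1) + (2 * c + 1).choose (c + 2) ≤
        4 * Nat.centralBinom c := by omega
    exact_mod_cast this
  unfold pp be
  rw [show (2 : ℝ) ^ (2 * c + 1) = 4 ^ c * 2 by rw [pow_succ, pow_mul]; norm_num,
    ← mul_div_assoc, div_le_div_iff₀ (by positivity) (by positivity)]
  have h5 : (0 : ℝ) < 4 ^ c := by positivity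
  nlinarith

lemma ve_lower {c : ℕ} (hc : 10 ≤ c) : 45 / 100 * be c ≤ ve c := by
  have h1 := Nat.choose_succ_right_eq (2 * c) c
  have h2 : (2 * c).choose (c - 1) = (2 * c).choose (c + 1) := by
    rw [← Nat.choose_symm (show c + 1 ≤ 2 * c by omega)]
    congr 1
    omega
  have h3 : ((2 * c).choose (c + 1) : ℝ) * (c + 1) = Nat.centralBinom c * c := by
    rw [show 2 * c - c = c by omega] at h1
    rw [Nat.centralBinom_eq_two_mul_choose]
    exact_mod_cast h1
  have hc' : (10 : ℝ) ≤ c := by exact_mod_cast hc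
  have h4 : 9 / 10 * (Nat.centralBinom c : ℝ) ≤ (2 * c).choose (c + 1) := by
    have h5 : 9 / 10 * (Nat.centralBinom c : ℝ) * (c + 1) ≤ (2 * c).choose (c + 1) * (c + 1) := by
      rw [h3]
      have : (0 : ℝ) ≤ Nat.centralBinom c := Nat.cast_nonneg _
      nlinarith
    exact le_of_mul_le_mul_right h5 (by linarith)
  unfold ve be
  rw [h2, ← mul_div_assoc, div_div, div_le_div_iff₀ (by positivity) (by positivity)]
  have h5 : (0 : ℝ) < 4 ^ c := by positivity
  have h6 : (0 : ℝ) ≤ (2 * c).choose (c - 2) := Nat.cast_nonneg _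
  have h7 : (0 : ℝ) ≤ (2 * c).choose (c + 2) := Nat.cast_nonneg _
  have h8 : 45 / 100 * (Nat.centralBinom c : ℝ) * 4 ≤ ((2 * c).choose (c - 2) : ℝ) +
      (2 * c).choose (c + 1) + (2 * c).choose (c + 1) + (2 * c).choose (c + 2) := by linarith
  calc 45 / 100 * (Nat.centralBinom c : ℝ) * (4 * 4 ^ c)
      = 45 / 100 * (Nat.centralBinom c : ℝ) * 4 * 4 ^ c := by ring
    _ ≤ _ := mul_le_mul_of_nonneg_right h8 h5.le

end Pool.Agent.Lib_helper51.Flat
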