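import Pool.Agent.Lib_helper51.Flat.Comp
import Pool.Agent.Lib_helper51.Flat.Gadget

/-!
# Making all influences equal (MP_cf5f8b_an)
-/

set_option autoImplicit false
set_option linter.unusedSectionVars false

open Finset

namespace Pool.Agent.Lib_helper51.Flat

open Lib_helper30.AA Lib_helper8.QP Lib_helper12.CERT

variable {J : Type} [Fintype J] [DecidableEq J]

/-- Tarski's fixed point theorem on the cube `[0,1]^J`. -/
lemma tarski (Ψ : (J → ℝ) → J → ℝ)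
    (h01 : ∀ s, (∀ j, 0 ≤ s j ∧ s j ≤ 1) → ∀ j, 0 ≤ Ψ s j ∧ Ψ s j ≤ 1)
    (hm : ∀ s t, (∀ j, 0 ≤ s j ∧ s j ≤ 1) → (∀ j, 0 ≤ t j ∧ t j ≤ 1) → (∀ j, s j ≤ t j) →
      ∀ j, Ψ s j ≤ Ψ t j) : ∃ s, (∀ j, 0 ≤ s j ∧ s j ≤ 1) ∧ Ψ s = s := by
  have : Fact ((0 : ℝ) ≤ 1) := ⟨zero_le_one⟩
  let f : (J → Set.Icc (0 : ℝ) 1) →o (J → Set.Icc (0 : ℝ) 1) :=
    { toFun := fun s j => ⟨Ψ (fun l => (s l : ℝ)) j, h01 _ (fun l => (s l).2) j⟩
      monotone' := fun s t hst j => hm _ _ (fun l => (s l).2) (fun l => (t l).2) hst j }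
  refine ⟨fun j => (f.lfp j : ℝ), fun j => (f.lfp j).2, ?_⟩
  funext j
  have h := congrFun f.map_lfp j
  exact congrArg Subtype.val h

/-- The size of the gadget. -/
lemma choose_c {c₀ : ℕ} (hc₀ : 10 ≤ c₀) {x : ℝ} (hx0 : 0 < x) (hx : x ≤ be c₀) :
    ∃ c : ℕ, c₀ ≤ c ∧ be c ≤ x ∧ x ≤ 106 / 100 * be c ∧ x ^ 2 * (2 * c - 1) ≤ 1 := by
  have hex : ∃ c : ℕ, c₀ ≤ c ∧ be c ≤ x := by
    obtain ⟨n, hn⟩ := exists_nat_gt (1 / x ^ 2)
    refine ⟨max c₀ n, le_max_left _ _, ?_⟩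
    set c := max c₀ n with hc
    have h1 := be_sq c
    have h2 : (n : ℝ) ≤ c := by
      have : n ≤ c := le_max_right _ _
      exact_mod_cast this
    have h3 : 1 ≤ x ^ 2 * (2 * c + 1) := by
      rw [div_lt_iff₀ (by positivity)] at hn
      nlinarith [sq_nonneg x]
    have h4 : be c ^ 2 ≤ x ^ 2 := by
      have h5 : be c ^ 2 * (2 * c + 1) ≤ x ^ 2 * (2 * c + 1) := h1.trans h3
      exact le_of_mul_le_mul_right h5 (by positivity)
    exact (pow_le_pow_iff_left₀ (be_pos c).le hx0.le (by norm_num)).1 h4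
  classical
  let c := Nat.find hex
  obtain ⟨hc1, hc2⟩ : c₀ ≤ c ∧ be c ≤ x := Nat.find_spec hex
  refine ⟨c, hc1, hc2, ?_⟩
  rcases eq_or_lt_of_le hc1 with h | h
  · rw [← h] at hc2 ⊢
    have h1 := be_sq c₀
    have h2 := be_pos c₀
    refine ⟨by linarith, ?_⟩
    have h3 : x ^ 2 ≤ be c₀ ^ 2 := pow_le_pow_left₀ hx0.le hx 2
    have h4 : (10 : ℝ) ≤ c₀ := by exact_mod_cast hc₀
    calc x ^ 2 * (2 * c₀ - 1) ≤ be c₀ ^ 2 * (2 * c₀ + 1) := by
          apply mul_le_mul h3 (by linarith) (by linarith) (by positivity)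
      _ ≤ 1 := h1
  · obtain ⟨m, hm⟩ : ∃ m, c = m + 1 := ⟨c - 1, by omega⟩
    have h1 : ¬ (c₀ ≤ m ∧ be m ≤ x) := Nat.find_min hex (show m < c by omega)
    have h2 : x < be m := by
      by_contra hcon
      exact h1 ⟨by omega, not_lt.1 hcon⟩
    have h3 := be_succ m
    have h4 : (10 : ℝ) ≤ m := by
      have : 10 ≤ m := by omega
      exact_mod_cast this
    have h5 := be_sq m
    have h6 := be_pos m
    rw [hm]
    refine ⟨?_, ?_⟩
    · rw [h3]
      have h7 : 100 / 106 ≤ (2 * (m : ℝ) + 1) / (2 * (m + 1)) := by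
        rw [div_le_div_iff₀ (by norm_num) (by positivity)]
        linarith
      have h8 : be m * (100 / 106) ≤ be m * ((2 * (m : ℝ) + 1) / (2 * (m + 1))) :=
        mul_le_mul_of_nonneg_left h7 h6.le
      linarith
    · have h3 : x ^ 2 ≤ be m ^ 2 := pow_le_pow_left₀ hx0.le h2.le 2
      push_cast
      calc x ^ 2 * (2 * ((m : ℝ) + 1) - 1) = x ^ 2 * (2 * m + 1) := by ring
        _ ≤ be m ^ 2 * (2 * m + 1) := mul_le_mul_of_nonneg_right h3 (by positivity)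
        _ ≤ 1 := h5

/-- **Equalizing the influences.** -/
theorem equalize {G : (J → Bool) → ℝ} (hG : ∀ x, |G x| ≤ 1) {d : ℕ} (hd1 : 1 ≤ d)
    (hd : LowDeg d G) {E : ℕ} (hE : 1 ≤ E) {a b : ℝ} (ha : 0 < a)
    (hb : ∀ j, a ≤ wt G j ∧ wt G j ≤ b) (hab : a ≤ b) :
    ∃ (X : Type) (_ : Fintype X) (_ : DecidableEq X) (F : (X → Bool) → ℝ) (k : ℕ),
      (∀ x, |F x| ≤ 1) ∧ LowDeg (d * k) F ∧ (1 - 1 / (5 * (E : ℝ))) * vr G ≤ vr F ∧
      (∀ x x' : X, wt F x = wt F x') ∧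
      (k : ℝ) ≤ 20000 * ((d : ℝ) * E) ^ 4 * (b / a) ^ 2 ∧
      Fintype.card J ≤ Fintype.card X ∧ Fintype.card X ≤ Fintype.card J * k ∧
      ∀ T : Finset X, ∃ T' : Finset J, T'.card ≤ T.card ∧ Osc F T ≤ Osc G T' := by
  have hb0 : 0 < b := by linarith
  have hdr : (1 : ℝ) ≤ d := by exact_mod_cast hd1
  have hEr : (1 : ℝ) ≤ E := by exact_mod_cast hE
  set u : ℕ := d * E with hu
  have hu1 : 1 ≤ u := Nat.one_le_iff_ne_zero.2 (Nat.mul_ne_zero (by omega) (by omega))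
  have hur : (1 : ℝ) ≤ u := by exact_mod_cast hu1
  have hu' : (u : ℝ) = d * E := by
    rw [hu]
    push_cast
    ring
  set c₀ : ℕ := 50 * u ^ 2 with hc₀
  have hc₀10 : 10 ≤ c₀ := by
    have : 1 ≤ u ^ 2 := Nat.one_le_pow _ _ (by omega)
    omega
  have hbe : be c₀ ≤ 1 / (10 * u) := by
    have h1 := be_sq c₀
    have h2 : be c₀ ^ 2 ≤ (1 / (10 * (u : ℝ))) ^ 2 := by
      rw [div_pow, one_pow, le_div_iff₀ (by positivity)]
      have h3 : ((10 : ℝ) * u) ^ 2 ≤ 2 * c₀ + 1 := by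
        rw [hc₀]
        push_cast
        nlinarith
      exact (mul_le_mul_of_nonneg_left h3 (sq_nonneg _)).trans h1
    exact (pow_le_pow_iff_left₀ (be_pos _).le (by positivity) (by norm_num)).1 h2
  have hbe2 : 1 / (100 * (u : ℝ) ^ 2) ≤ be c₀ := by
    have h1 := be_lower (c := c₀) (by omega)
    refine le_trans (le_of_eq ?_) h1
    rw [hc₀]
    push_cast
    congr 1
    ring
  set lam : ℝ := a * be c₀ with hlam
  have hlam0 : 0 < lam := mul_pos ha (be_pos _)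
  have hwt0 : ∀ j, 0 < wt G j := fun j => lt_of_lt_of_le ha (hb j).1
  -- the sizes
  have hx : ∀ j, ∃ c : ℕ, c₀ ≤ c ∧ be c ≤ lam / wt G j ∧ lam / wt G j ≤ 106 / 100 * be c ∧
      (lam / wt G j) ^ 2 * (2 * c - 1) ≤ 1 := by
    intro j
    refine choose_c hc₀10 (div_pos hlam0 (hwt0 j)) ?_
    rw [div_le_iff₀ (hwt0 j), hlam, mul_comm]
    exact mul_le_mul_of_nonneg_left (hb j).1 (be_pos _).le
  choose c hc1 hc2 hc3 hc4 using hx
  have hx1 : ∀ j, lam / wt G j ≤ be c₀ := by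
    intro j
    rw [div_le_iff₀ (hwt0 j), hlam, mul_comm]
    exact mul_le_mul_of_nonneg_left (hb j).1 (be_pos _).le
  have hc10 : ∀ j, 10 ≤ c j := fun j => hc₀10.trans (hc1 j)
  -- the retention parameter
  set r : ℝ := 1 - 1 / (5 * u) with hr
  have hr0 : 0 ≤ r := by
    rw [hr]
    have : 1 / (5 * (u : ℝ)) ≤ 1 := by
      rw [div_le_one (by positivity)]
      linarith
    linarith
  have hr1 : r ≤ 1 := by
    rw [hr]
    have : 0 ≤ 1 / (5 * (u : ℝ)) := by positivity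
    linarith
  have hrd' : 1 - 1 / (5 * (E : ℝ)) ≤ r ^ d := by
    have h1 := one_add_mul_le_pow (a := - (1 / (5 * (u : ℝ)))) (by
      have : 1 / (5 * (u : ℝ)) ≤ 1 := by
        rw [div_le_one (by positivity)]
        linarith
      linarith) d
    have h2 : 1 + (d : ℝ) * -(1 / (5 * (u : ℝ))) = 1 - 1 / (5 * (E : ℝ)) := by
      rw [hu']
      field_simp
      ring
    rw [h2] at h1
    refine h1.trans (le_of_eq ?_)
    rw [hr]
    congr 1
  have hrd : 4 / 5 ≤ r ^ d := by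
    refine le_trans ?_ hrd'
    have : 1 / (5 * (E : ℝ)) ≤ 1 / 5 := by
      rw [div_le_div_iff₀ (by positivity) (by norm_num)]
      linarith
    linarith
  have hpp : ∀ j, pp (c j) ≤ 1 / (5 * u) := by
    intro j
    have h1 := pp_le (c j)
    have h2 : be (c j) ≤ 1 / (10 * u) := (hc2 j).trans ((hx1 j).trans hbe)
    calc pp (c j) ≤ 2 * (1 / (10 * (u : ℝ))) := by linarith
      _ = 1 / (5 * u) := by
          field_simp
          norm_num
  -- the second moments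
  let ρ : (J → ℝ) → J → ℝ := fun s j => 1 - (2 * s j - s j ^ 2) * pp (c j)
  have hρ1 : ∀ s : J → ℝ, (∀ j, 0 ≤ s j ∧ s j ≤ 1) → ∀ j, r ≤ ρ s j := by
    intro s hs j
    have h1 : 2 * s j - s j ^ 2 ≤ 1 := by nlinarith [sq_nonneg (1 - s j)]
    have h2 : (2 * s j - s j ^ 2) * pp (c j) ≤ 1 * pp (c j) :=
      mul_le_mul_of_nonneg_right h1 (pp_nonneg _)
    have h3 := hpp j
    simp only [ρ, hr]
    linarith
  have hρ2 : ∀ s : J → ℝ, (∀ j, 0 ≤ s j ∧ s j ≤ 1) → ∀ j, ρ s j ≤ 1 := by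
    intro s hs j
    have h1 : 0 ≤ 2 * s j - s j ^ 2 := by nlinarith [(hs j).1, (hs j).2]
    have h2 : 0 ≤ (2 * s j - s j ^ 2) * pp (c j) := mul_nonneg h1 (pp_nonneg _)
    simp only [ρ]
    linarith
  have hρm : ∀ s t : J → ℝ, (∀ j, 0 ≤ s j ∧ s j ≤ 1) → (∀ j, 0 ≤ t j ∧ t j ≤ 1) →
      (∀ j, s j ≤ t j) → ∀ j, ρ t j ≤ ρ s j := by
    intro s t hs ht hst j
    have h1 : 2 * s j - s j ^ 2 ≤ 2 * t j - t j ^ 2 := by
      have h2 : (2 * t j - t j ^ 2) - (2 * s j - s j ^ 2) = (t j - s j) * (2 - s j - t j) := by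
        ring
      have h3 : 0 ≤ (t j - s j) * (2 - s j - t j) :=
        mul_nonneg (by linarith [hst j]) (by linarith [(hs j).2, (ht j).2])
      linarith
    have h2 := mul_le_mul_of_nonneg_right h1 (pp_nonneg (c j))
    simp only [ρ]
    linarith
  have hred1 : ∀ s : J → ℝ, (∀ j, 0 ≤ s j ∧ s j ≤ 1) → ∀ j, 4 / 5 * wt G j ≤ red G (ρ s) j := by
    intro s hs j
    refine le_trans ?_ (red_lower hd hr0 hr1 (hρ1 s hs) j)
    exact mul_le_mul_of_nonneg_right hrd (hwt0 j).le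
  have hred2 : ∀ s : J → ℝ, (∀ j, 0 ≤ s j ∧ s j ≤ 1) → ∀ j, red G (ρ s) j ≤ wt G j := by
    intro s hs j
    rw [← red_one G j]
    exact red_mono (fun l => hr0.trans (hρ1 s hs l)) (hρ2 s hs) j
  have hred0 : ∀ s : J → ℝ, (∀ j, 0 ≤ s j ∧ s j ≤ 1) → ∀ j, 0 < red G (ρ s) j := by
    intro s hs j
    have := hred1 s hs j
    have := hwt0 j
    linarith
  have hve : ∀ j, 0 < ve (c j) := by
    intro j
    have h1 := ve_lower (hc10 j)
    have h2 := be_pos (c j)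
    linarith
  -- the map
  let Ψ : (J → ℝ) → J → ℝ := fun s j =>
    Real.sqrt ((lam / red G (ρ s) j - be (c j)) / ve (c j))
  have hΨ0 : ∀ s : J → ℝ, (∀ j, 0 ≤ s j ∧ s j ≤ 1) → ∀ j,
      0 ≤ (lam / red G (ρ s) j - be (c j)) / ve (c j) := by
    intro s hs j
    refine div_nonneg ?_ (hve j).le
    have h1 : lam / wt G j ≤ lam / red G (ρ s) j :=
      div_le_div_of_nonneg_left hlam0.le (hred0 s hs j) (hred2 s hs j)
    linarith [hc2 j]
  obtain ⟨s, hs, hfix⟩ := tarski Ψ (by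
    intro s hs j
    refine ⟨Real.sqrt_nonneg _, ?_⟩
    simp only [Ψ]
    rw [← Real.sqrt_one]
    refine Real.sqrt_le_sqrt ?_
    rw [div_le_one (hve j)]
    have h1 : lam / red G (ρ s) j ≤ lam / (4 / 5 * wt G j) :=
      div_le_div_of_nonneg_left hlam0.le (by have := hwt0 j; positivity) (hred1 s hs j)
    have h2 : lam / (4 / 5 * wt G j) = 5 / 4 * (lam / wt G j) := by
      have := hwt0 j
      field_simp
    have h3 := hc3 j
    have h4 := ve_lower (hc10 j)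
    have h5 := be_pos (c j)
    linarith) (by
    intro s t hs ht hst j
    simp only [Ψ]
    refine Real.sqrt_le_sqrt ?_
    refine div_le_div_of_nonneg_right ?_ (hve j).le
    have h1 : red G (ρ t) j ≤ red G (ρ s) j :=
      red_mono (fun l => hr0.trans (hρ1 t ht l)) (hρm s t hs ht hst) j
    have h2 : lam / red G (ρ s) j ≤ lam / red G (ρ t) j :=
      div_le_div_of_nonneg_left hlam0.le (hred0 t ht j) h1
    linarith)
  -- the equation
  have heq : ∀ j, (be (c j) + s j ^ 2 * ve (c j)) * red G (ρ s) j = lam := by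
    intro j
    have h1 : s j ^ 2 = (lam / red G (ρ s) j - be (c j)) / ve (c j) := by
      have h2 := congrFun hfix j
      rw [← h2]
      simp only [Ψ]
      rw [Real.sq_sqrt]
      have h3 : (fun l => Real.sqrt ((lam / red G (ρ s) l - be (c l)) / ve (c l))) = s := hfix
      exact hΨ0 s hs j
    rw [h1]
    have h2 := hred0 s hs j
    have h3 := hve j
    field_simp
    ring
  -- the gadgets
  let φ : ∀ j, (Fin (2 * c j + 1) → Bool) → ℝ := fun j => gad (c j) (s j)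
  have hcard : ∀ j, Fintype.card (Fin (2 * c j + 1)) = 2 * c j + 1 := fun j => Fintype.card_fin _
  have hφ0 : ∀ j, av (φ j) = 0 := fun j => gad_av (by have := hc10 j; omega) (s j) (hcard j)
  have hφ2 : (fun j => av (fun z => φ j z ^ 2)) = ρ s := by
    funext j
    exact gad_sq (by have := hc10 j; omega) (s j) (hcard j)
  have hφb : ∀ j z, |φ j z| ≤ 1 := fun j z => gad_abs (hs j).1 (hs j).2 z
  -- the number of variables of a gadget
  set M : ℝ := 10000 * (u : ℝ) ^ 4 * (b / a) ^ 2 with hM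
  have hba : 1 ≤ b / a := by
    rw [le_div_iff₀ ha]
    linarith
  have hM1 : 10000 ≤ M := by
    rw [hM]
    have h1 : (1 : ℝ) ≤ (u : ℝ) ^ 4 := one_le_pow₀ hur
    have h2 : (1 : ℝ) ≤ (b / a) ^ 2 := one_le_pow₀ hba
    nlinarith
  have hk : ∀ j, 2 * c j + 1 ≤ ⌊M⌋₊ + 2 := by
    intro j
    have h1 : a / (100 * (u : ℝ) ^ 2 * b) ≤ lam / wt G j := by
      rw [div_le_div_iff₀ (by positivity) (hwt0 j), hlam]
      have h2 : wt G j ≤ b := (hb j).2
      have h3 : 1 ≤ be c₀ * (100 * (u : ℝ) ^ 2) := by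
        rwa [div_le_iff₀ (by positivity)] at hbe2
      calc a * wt G j ≤ a * b := mul_le_mul_of_nonneg_left h2 ha.le
        _ = a * b * 1 := (mul_one _).symm
        _ ≤ a * b * (be c₀ * (100 * (u : ℝ) ^ 2)) := mul_le_mul_of_nonneg_left h3 (by positivity)
        _ = a * be c₀ * (100 * (u : ℝ) ^ 2 * b) := by ring
    have h2 : (a / (100 * (u : ℝ) ^ 2 * b)) ^ 2 * (2 * c j - 1) ≤ 1 := by
      refine le_trans ?_ (hc4 j)
      refine mul_le_mul_of_nonneg_right (pow_le_pow_left₀ (by positivity) h1 2) ?_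
      have : (10 : ℝ) ≤ c j := by exact_mod_cast hc10 j
      linarith
    have h3 : (a / (100 * (u : ℝ) ^ 2 * b)) ^ 2 * M = 1 := by
      rw [hM]
      field_simp
      norm_num
    have h4 : (2 * (c j : ℝ) - 1) ≤ M := le_of_mul_le_mul_left (h2.trans h3.ge) (by positivity)
    have h5 : 2 * c j - 1 ≤ ⌊M⌋₊ := by
      apply Nat.le_floor
      have h6 : 1 ≤ 2 * c j := by have := hc10 j; omega
      rw [Nat.cast_sub h6]
      push_cast
      exact h4
    omega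
  refine ⟨Σ j, Fin (2 * c j + 1), inferInstance, inferInstance, comp G φ, ⌊M⌋₊ + 2,
    comp_abs hG hφb, ?_, ?_, ?_, ?_, ?_, ?_, ?_⟩
  · exact comp_lowDeg φ hd fun j => by rw [hcard]; exact hk j
  · refine le_trans ?_ (comp_vr hφ0 hd hr0 hr1 fun j => ?_)
    · refine mul_le_mul_of_nonneg_right hrd' ?_
      rw [vr_eq]
      exact Finset.sum_nonneg fun _ _ => sq_nonneg _
    · have h1 := congrFun hφ2 j
      rw [h1]
      exact hρ1 s hs j
  · have h1 : ∀ x : Σ j, Fin (2 * c j + 1), wt (comp G φ) x = lam := by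
      rintro ⟨j, i⟩
      rw [comp_wt hφ0 j i, hφ2, gad_wt (by have := hc10 j; omega) (s j) (hcard j) i]
      exact heq j
    intro x x'
    rw [h1, h1]
  · push_cast
    have h1 := Nat.floor_le (by linarith : 0 ≤ M)
    calc (⌊M⌋₊ : ℝ) + 2 ≤ M + M := by linarith
      _ = 20000 * ((d : ℝ) * E) ^ 4 * (b / a) ^ 2 := by rw [hM, hu']; ring
  · rw [Fintype.card_sigma]
    simp only [hcard]
    calc Fintype.card J = ∑ _j : J, 1 := by simp
      _ ≤ ∑ j : J, (2 * c j + 1) := Finset.sum_le_sum fun j _ => by omega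
  · rw [Fintype.card_sigma]
    simp only [hcard]
    calc ∑ j : J, (2 * c j + 1) ≤ ∑ _j : J, (⌊M⌋₊ + 2) := Finset.sum_le_sum fun j _ => hk j
      _ = Fintype.card J * (⌊M⌋₊ + 2) := by
          rw [Finset.sum_const, Finset.card_univ, smul_eq_mul]
  · intro T
    exact ⟨T.image Sigma.fst, Finset.card_image_le, comp_Osc hφ0 hφb T⟩

end Pool.Agent.Lib_helper51.Flat
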