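import Pool.Agent.Lib_helper51.Flat.Xor
import Pool.Agent.Lib_helper51.Flat.Equalize

/-!
# The reduction to functions with equal influences (MP_cf5f8b_an)
-/

set_option autoImplicit false
set_option linter.unusedSectionVars false

open Finset

namespace Pool.Agent.Lib_helper51.Flat

open Lib_helper30.AA Lib_helper8.QP Lib_helper12.CERT

lemma Osc_pull_le {I J : Type} [Fintype I] [DecidableEq I] [Fintype J] [DecidableEq J]
    (e : J ↪ I) (G : (J → Bool) → ℝ) (T : Finset J) :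
    Osc (pull e G) (T.map e) ≤ Osc G T := by
  unfold Osc
  rw [← av_pull e]
  refine av_mono fun x => ?_
  obtain ⟨B, hB, h⟩ := exists_osc (pull e G) (T.map e) x
  rw [h]
  obtain ⟨B', hB', rfl⟩ := Finset.subset_map_iff.1 hB
  unfold pull
  rw [rs_flipSet]
  exact le_osc hB' _

/-- Real powers. -/
lemma powers {δ : ℝ} (hδ : 0 < δ) (hδ1 : δ ≤ 1) {B c : ℕ} (hBc : c ≤ B)
    (hB : 2 * (c : ℝ) ≤ δ * ((B : ℝ) - c)) {D m : ℝ} (hD : 1 ≤ D) (h1 : D ^ (B - c) ≤ m)
    (h2 : m ≤ D ^ (B + c)) :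
    D ^ c ≤ m ^ δ ∧ (D ^ (B - c))⁻¹ ≤ m ^ (-1 + δ) := by
  have hD0 : 0 < D := by linarith
  have hm0 : 0 < m := lt_of_lt_of_le (by positivity) h1
  have hBc' : ((B - c : ℕ) : ℝ) = (B : ℝ) - c := by
    rw [Nat.cast_sub hBc]
  have e1 : D ^ (B - c) = D ^ ((B : ℝ) - c) := by
    rw [← hBc', Real.rpow_natCast]
  have e2 : D ^ (B + c) = D ^ ((B : ℝ) + c) := by
    rw [← Real.rpow_natCast]
    push_cast
    rfl
  rw [e1] at h1
  rw [e2] at h2
  rw [e1]
  have hc0 : (0 : ℝ) ≤ c := Nat.cast_nonneg _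
  refine ⟨?_, ?_⟩
  · calc D ^ c = D ^ (c : ℝ) := (Real.rpow_natCast D c).symm
      _ ≤ D ^ (((B : ℝ) - c) * δ) := Real.rpow_le_rpow_of_exponent_le hD (by linarith)
      _ = (D ^ ((B : ℝ) - c)) ^ δ := Real.rpow_mul hD0.le _ _
      _ ≤ m ^ δ := Real.rpow_le_rpow (by positivity) h1 hδ.le
  · rw [show -1 + δ = -(1 - δ) by ring, Real.rpow_neg hm0.le]
    refine inv_anti₀ (by positivity) ?_
    calc m ^ (1 - δ) ≤ (D ^ ((B : ℝ) + c)) ^ (1 - δ) :=
          Real.rpow_le_rpow hm0.le h2 (by linarith)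
      _ = D ^ (((B : ℝ) + c) * (1 - δ)) := (Real.rpow_mul hD0.le _ _).symm
      _ ≤ D ^ ((B : ℝ) - c) := Real.rpow_le_rpow_of_exponent_le hD (by nlinarith)

/-- **A degree bound for almost Boolean functions with equal influences implies the
conjecture.** -/
theorem key {δ : ℝ} (hδ : 0 < δ) (hδ1 : δ ≤ 1) {n₀ : ℕ}
    (H : ∀ m : ℕ, n₀ ≤ m → ∀ G : (Fin m → Bool) → ℝ, (∀ x, |G x| ≤ 1) →
      1 - (m : ℝ) ^ (-(δ / 10000)) ≤ vr G → (∀ i j, wt G i = wt G j) →
      (∀ T : Finset (Fin m), Osc G T ≤ T.card * (m : ℝ) ^ (-1 + δ)) →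
      ∃ T : Finset (Fin m), (m : ℝ) ^ δ ≤ T.card ∧ coef G T ≠ 0) :
    ∃ A : ℕ, ∀ (n d : ℕ) (f : (Fin n → Bool) → ℝ), 1 ≤ d → (∀ x, |f x| ≤ 1) → LowDeg d f →
      0 < vr f → ∃ j, (vr f / (2 * d)) ^ A ≤ wt f j := by
  set D₀ : ℕ := max 100 n₀ with hD₀
  have hD100 : (100 : ℝ) ≤ D₀ := by
    have : 100 ≤ D₀ := le_max_left _ _
    exact_mod_cast this
  obtain ⟨b₀, hb₀⟩ := pow_unbounded_of_one_lt (D₀ : ℝ) (by norm_num : (1 : ℝ) < 2)
  set B : ℕ := 33 + ⌈64 / δ⌉₊ with hB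
  have hBδ : 2 * ((32 : ℕ) : ℝ) ≤ δ * ((B : ℝ) - (32 : ℕ)) := by
    have h1 := Nat.le_ceil (64 / δ)
    rw [div_le_iff₀ hδ] at h1
    rw [hB]
    push_cast
    linarith
  have hBδ2 : δ * ((B : ℝ) + 32) ≤ 130 := by
    have h1 := (Nat.ceil_lt_add_one (by positivity : 0 ≤ 64 / δ)).le
    have h2 : δ * (⌈64 / δ⌉₊ : ℝ) ≤ 64 + δ := by
      calc δ * (⌈64 / δ⌉₊ : ℝ) ≤ δ * (64 / δ + 1) := mul_le_mul_of_nonneg_left h1 hδ.le
        _ = 64 + δ := by
            field_simp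
    have h3 : δ * (((33 + ⌈64 / δ⌉₊ : ℕ) : ℝ) + 32) = 65 * δ + δ * (⌈64 / δ⌉₊ : ℝ) := by
      push_cast
      ring
    rw [hB, h3]
    linarith
  have hB33 : 33 ≤ B := by omega
  refine ⟨(b₀ + 1) * (40 * (B + 2)), fun n d f hd1 hf hd hV => ?_⟩
  set V := vr f with hVdef
  have hV1 : V ≤ 1 := vr_le_one' hf
  have hdr : (1 : ℝ) ≤ d := by exact_mod_cast hd1
  set N' : ℕ := ⌈1 / V⌉₊ with hN'
  have hN'V : 1 ≤ (N' : ℝ) * V := by
    have := Nat.le_ceil (1 / V)
    rw [← hN', div_le_iff₀ hV] at this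
    exact this
  have hN'V2 : (N' : ℝ) * V ≤ 2 := by
    have := (Nat.ceil_lt_add_one (by positivity : 0 ≤ 1 / V)).le
    rw [← hN'] at this
    have h2 := mul_le_mul_of_nonneg_right this hV.le
    have h3 : (1 / V + 1) * V = 1 + V := by
      field_simp
    linarith
  have hN'1 : 1 ≤ N' := by
    rw [Nat.one_le_iff_ne_zero]
    intro h
    rw [h] at hN'V
    norm_num at hN'V
  have hN'r : (1 : ℝ) ≤ N' := by exact_mod_cast hN'1
  -- the complexity
  set D₁ : ℕ := D₀ * N' * d with hD₁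
  set y : ℝ := (D₁ : ℝ) with hy
  have hyeq : y = D₀ * N' * d := by
    rw [hy, hD₁]
    push_cast
    ring
  have hy100 : 100 ≤ y := by
    rw [hyeq]
    calc (100 : ℝ) = 100 * 1 * 1 := by norm_num
      _ ≤ D₀ * N' * d := by gcongr
  have hy1 : 1 ≤ y := by linarith
  have hy0 : 0 < y := by linarith
  have hdy : (d : ℝ) ≤ y := by
    rw [hyeq]
    calc (d : ℝ) = 1 * 1 * d := by ring
      _ ≤ D₀ * N' * d := by
          gcongr
          linarith
  have hD₁1 : 1 ≤ D₁ := by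
    have : (1 : ℝ) ≤ D₁ := hy1
    exact_mod_cast this
  obtain ⟨N, hN1, hNV, X₀, iX₀, dX₀, F, hFb, hFd, hFv, hFw⟩ := amplify2 hf hd hV hD₁1
  rw [← hy] at hFv
  have hNy : (N : ℝ) ≤ y := by
    have h1 : (N : ℝ) ≤ 2 * N' := by
      have h2 : (N : ℝ) * V ≤ 2 * N' * V := by linarith
      exact le_of_mul_le_mul_right h2 hV
    rw [hyeq]
    calc (N : ℝ) ≤ 2 * N' := h1
      _ ≤ 100 * N' * 1 := by linarith
      _ ≤ D₀ * N' * d := by gcongr
  have hNr : (1 : ℝ) ≤ N := by exact_mod_cast hN1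
  set k₁ : ℕ := 7200 * (1200 * D₁ ^ 2) ^ 3 * N ^ 2 with hk₁
  set d' : ℕ := 200 * D₁ * (k₁ * d) with hd'
  have hk₁y : (k₁ : ℝ) ≤ y ^ 15 := by
    calc (k₁ : ℝ) = 12441600000000 * y ^ 6 * (N : ℝ) ^ 2 := by
          rw [hk₁, hy]
          push_cast
          ring
      _ ≤ 100 ^ 7 * y ^ 6 * y ^ 2 := by
          gcongr
          norm_num
      _ ≤ y ^ 7 * y ^ 6 * y ^ 2 := by gcongr
      _ = y ^ 15 := by ring
  have hk₁1 : 1 ≤ k₁ := Nat.one_le_iff_ne_zero.2 (by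
    rw [hk₁]
    have : D₁ ≠ 0 := by omega
    have : N ≠ 0 := by omega
    positivity)
  have hd'1 : 1 ≤ d' := Nat.one_le_iff_ne_zero.2 (by
    rw [hd']
    have : D₁ ≠ 0 := by omega
    have : k₁ ≠ 0 := by omega
    have : d ≠ 0 := by omega
    positivity)
  have hd'r : (1 : ℝ) ≤ d' := by exact_mod_cast hd'1
  have hd'y : (d' : ℝ) ≤ y ^ 18 := by
    calc (d' : ℝ) = 2488320000000000 * y ^ 7 * (N : ℝ) ^ 2 * d := by
          rw [hd', hk₁, hy]
          push_cast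
          ring
      _ ≤ 100 ^ 8 * y ^ 7 * y ^ 2 * y := by
          gcongr
          norm_num
      _ ≤ y ^ 8 * y ^ 7 * y ^ 2 * y := by gcongr
      _ = y ^ 18 := by ring
  set D : ℝ := y ^ 20 with hD
  have hD1 : 1 ≤ D := one_le_pow₀ hy1
  have hD0 : 0 < D := by linarith
  have hyD : y ≤ D := by
    calc y = y ^ 1 := (pow_one y).symm
      _ ≤ y ^ 20 := pow_le_pow_right₀ hy1 (by norm_num)
  have hDn : (n₀ : ℝ) ≤ D := by
    have h1 : (n₀ : ℝ) ≤ D₀ := by
      have : n₀ ≤ D₀ := le_max_right _ _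
      exact_mod_cast this
    refine le_trans ?_ hyD
    rw [hyeq]
    calc (n₀ : ℝ) ≤ D₀ := h1
      _ = D₀ * 1 * 1 := by ring
      _ ≤ D₀ * N' * d := by gcongr
  set θ : ℝ := (D ^ B)⁻¹ with hθdef
  have hθ : 0 < θ := by positivity
  set W := vr F with hW
  have hyinv : 1 / y ≤ 1 / 100 := by
    rw [div_le_div_iff₀ hy0 (by norm_num)]
    linarith
  have hW2 : 1 / 2 ≤ W := by linarith
  have hW0 : 0 < W := by linarith
  have hDB : D ^ B = D ^ (B - 32) * D ^ 32 := by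
    rw [← pow_add]
    congr 1
    omega
  set lam : ℝ := 1 / (8 * y) with hlam
  have hlam0 : 0 < lam := by positivity
  have hlam8 : 8 * lam = 1 / y := by
    rw [hlam]
    field_simp
  have hex : ∃ j, θ < w F j := by
    by_contra hcon
    push Not at hcon
    have hsmall : 12 * (d' : ℝ) ^ 2 * θ ≤ lam := by
      rw [hθdef, hlam, ← div_eq_mul_inv, div_le_div_iff₀ (by positivity) (by positivity)]
      calc 12 * (d' : ℝ) ^ 2 * (8 * y) ≤ 12 * (y ^ 18) ^ 2 * (8 * y) := by gcongr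
        _ = 96 * y ^ 37 := by ring
        _ ≤ y * y ^ 37 := by
            gcongr
            linarith
        _ = y ^ 38 := by ring
        _ ≤ y ^ 40 := pow_le_pow_right₀ hy1 (by norm_num)
        _ = D ^ 2 := by
            rw [hD]
            ring
        _ ≤ D ^ B := pow_le_pow_right₀ hD1 (by omega)
        _ = 1 * D ^ B := (one_mul _).symm
    obtain ⟨m, G, hGb, hGd, hGv, hm1, hm2, hGw, hGO⟩ :=
      flatten_fin hFb hd'1 hFd hθ hlam0 hcon (by rw [← hW, hlam8]; linarith) hsmall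
    rw [← hW] at hGv hm1
    -- the number of variables
    have hP1 : D ^ (B - 32) ≤ m := by
      refine le_trans ?_ hm1
      rw [le_div_iff₀ (by positivity)]
      have h1 : D ^ (B - 32) * (408 * (d' : ℝ) ^ 6 * θ) = 408 * (d' : ℝ) ^ 6 / D ^ 32 := by
        rw [hθdef, hDB]
        field_simp
      rw [h1, div_le_iff₀ (by positivity)]
      have h2 : W * lam ^ 2 = W / (64 * y ^ 2) := by
        rw [hlam]
        field_simp
        norm_num
      rw [h2, div_mul_eq_mul_div, le_div_iff₀ (by positivity)]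
      calc 408 * (d' : ℝ) ^ 6 * (64 * y ^ 2) ≤ 408 * (y ^ 18) ^ 6 * (64 * y ^ 2) := by gcongr
        _ = 1 / 2 * (52224 * y ^ 110) := by ring
        _ ≤ 1 / 2 * (100 ^ 3 * y ^ 110) := by
            gcongr
            norm_num
        _ ≤ 1 / 2 * (y ^ 3 * y ^ 110) := by gcongr
        _ = 1 / 2 * y ^ 113 := by ring
        _ ≤ 1 / 2 * y ^ 640 :=
            mul_le_mul_of_nonneg_left (pow_le_pow_right₀ hy1 (by norm_num)) (by norm_num)
        _ = 1 / 2 * D ^ 32 := by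
            rw [hD]
            ring
        _ ≤ W * D ^ 32 := by gcongr
    have hP2 : (m : ℝ) ≤ D ^ (B + 2) := by
      refine hm2.trans ?_
      rw [div_le_iff₀ (by positivity)]
      have h1 : D ^ (B + 2) * (lam * θ) = D ^ 2 / (8 * y) := by
        rw [hθdef, pow_add, hlam]
        field_simp
      rw [h1, le_div_iff₀ (by positivity)]
      calc 12 * (d' : ℝ) ^ 2 * (8 * y) ≤ 12 * (y ^ 18) ^ 2 * (8 * y) := by gcongr
        _ = 96 * y ^ 37 := by ring
        _ ≤ y * y ^ 37 := by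
            gcongr
            linarith
        _ = y ^ 38 := by ring
        _ ≤ y ^ 40 := pow_le_pow_right₀ hy1 (by norm_num)
        _ = D ^ 2 := by
            rw [hD]
            ring
    -- coalitions
    have hcoef : 1632 * (d' : ℝ) ^ 8 / lam ^ 3 * θ ≤ (D ^ (B - 32))⁻¹ := by
      have h1 : (D ^ (B - 32))⁻¹ = D ^ 32 * θ := by
        rw [hθdef, hDB]
        field_simp
      rw [h1]
      refine mul_le_mul_of_nonneg_right ?_ hθ.le
      have h2 : 1632 * (d' : ℝ) ^ 8 / lam ^ 3 = 835584 * (d' : ℝ) ^ 8 * y ^ 3 := by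
        rw [hlam]
        field_simp
        norm_num
      rw [h2]
      calc 835584 * (d' : ℝ) ^ 8 * y ^ 3 ≤ 835584 * (y ^ 18) ^ 8 * y ^ 3 := by gcongr
        _ = 835584 * y ^ 147 := by ring
        _ ≤ 100 ^ 3 * y ^ 147 := by
            gcongr
            norm_num
        _ ≤ y ^ 3 * y ^ 147 := by gcongr
        _ = y ^ 150 := by ring
        _ ≤ y ^ 640 := pow_le_pow_right₀ hy1 (by norm_num)
        _ = D ^ 32 := by
            rw [hD]
            ring
    -- equalize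
    set a : ℝ := lam ^ 2 * θ / (12 * (d' : ℝ) ^ 2) with ha
    set b : ℝ := 1632 * (d' : ℝ) ^ 8 / lam ^ 3 * θ with hb
    have ha0 : 0 < a := by positivity
    have hb1 : ∀ j, wt G j ≤ b := by
      intro j
      have h1 := hGO {j}
      rw [Osc_singleton, Finset.card_singleton, Nat.cast_one, mul_one] at h1
      have h2 := wt_le_w hGb j
      have h3 := w_nonneg G j
      linarith
    have hba : b / a = 641728512 * (d' : ℝ) ^ 10 * y ^ 5 := by
      rw [ha, hb, hlam]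
      field_simp
      norm_num
    have hba2 : b / a ≤ y ^ 190 := by
      rw [hba]
      calc 641728512 * (d' : ℝ) ^ 10 * y ^ 5 ≤ 100 ^ 5 * (y ^ 18) ^ 10 * y ^ 5 := by
            gcongr
            norm_num
        _ ≤ y ^ 5 * (y ^ 18) ^ 10 * y ^ 5 := by gcongr
        _ = y ^ 190 := by ring
    have hab : a ≤ b := by
      have h1 : 1 ≤ b / a := by
        rw [hba]
        have h3 : (1 : ℝ) ≤ (d' : ℝ) ^ 10 := one_le_pow₀ hd'r
        have h4 : (1 : ℝ) ≤ y ^ 5 := one_le_pow₀ hy1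
        calc (1 : ℝ) = 1 * 1 * 1 := by norm_num
          _ ≤ 641728512 * (d' : ℝ) ^ 10 * y ^ 5 := by
              gcongr
              norm_num
      rwa [le_div_iff₀ ha0, one_mul] at h1
    obtain ⟨X, iX, dX, F', k, hF'b, hF'd, hF'v, hF'w, hk, hX1, hX2, hF'O⟩ :=
      equalize hGb hd'1 hGd hD₁1 ha0 (fun j => ⟨hGw j, hb1 j⟩) hab
    rw [Fintype.card_fin] at hX1 hX2
    rw [← hy] at hF'v hk
    have hkD : (k : ℝ) ≤ D ^ 23 := by
      refine hk.trans ?_
      have h2 : (b / a) ^ 2 ≤ (y ^ 190) ^ 2 :=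
        pow_le_pow_left₀ (div_nonneg (ha0.le.trans hab) ha0.le) hba2 2
      calc 20000 * ((d' : ℝ) * y) ^ 4 * (b / a) ^ 2
          ≤ 100 ^ 3 * (y ^ 18 * y) ^ 4 * (y ^ 190) ^ 2 := by
            gcongr
            norm_num
        _ ≤ y ^ 3 * (y ^ 18 * y) ^ 4 * (y ^ 190) ^ 2 := by gcongr
        _ = y ^ 459 := by ring
        _ ≤ y ^ 460 := pow_le_pow_right₀ hy1 (by norm_num)
        _ = D ^ 23 := by
            rw [hD]
            ring
    -- reindex
    set M := Fintype.card X with hM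
    let e : X ≃ Fin M := Fintype.equivFin X
    have hM1 : D ^ (B - 32) ≤ M := hP1.trans (by exact_mod_cast hX1)
    have hM2 : (M : ℝ) ≤ D ^ (B + 32) := by
      calc (M : ℝ) ≤ m * k := by exact_mod_cast hX2
        _ ≤ D ^ (B + 2) * D ^ 23 := by gcongr
        _ = D ^ (B + 25) := by rw [← pow_add]
        _ ≤ D ^ (B + 32) := pow_le_pow_right₀ hD1 (by omega)
    obtain ⟨q1, q3⟩ := powers hδ hδ1 (by omega : 32 ≤ B) hBδ hD1 hM1 hM2
    have hmn : n₀ ≤ M := by
      have h1 : D ≤ D ^ (B - 32) := by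
        calc D = D ^ 1 := (pow_one D).symm
          _ ≤ D ^ (B - 32) := pow_le_pow_right₀ hD1 (by omega)
      have h2 : (n₀ : ℝ) ≤ M := hDn.trans (h1.trans hM1)
      exact_mod_cast h2
    have hMpos : (0 : ℝ) < M := lt_of_lt_of_le (by positivity) hM1
    -- the variance
    have hvar : 1 - (M : ℝ) ^ (-(δ / 10000)) ≤ vr F' := by
      have h1 : 1 - 2 / y ≤ vr F' := by
        refine le_trans ?_ hF'v
        have h2 : 1 - 3 / 2 * (1 / y) ≤ vr G := by
          have : 4 * lam = 1 / 2 * (1 / y) := by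
            rw [hlam]
            field_simp
            norm_num
          linarith
        have h3 : (1 - 1 / (5 * y)) * (1 - 3 / 2 * (1 / y)) ≤ (1 - 1 / (5 * y)) * vr G := by
          refine mul_le_mul_of_nonneg_left h2 ?_
          have : 1 / (5 * y) = 1 / 5 * (1 / y) := by
            field_simp
          rw [this]
          linarith
        refine le_trans ?_ h3
        have h4 : (1 - 1 / (5 * y)) * (1 - 3 / 2 * (1 / y)) =
            1 - 17 / 10 * (1 / y) + 3 / 10 * (1 / y) ^ 2 := by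
          field_simp
          ring
        rw [h4, show 2 / y = 2 * (1 / y) by ring]
        have h5 : 0 < 1 / y := by positivity
        have h6 := sq_nonneg (1 / y)
        linarith
      have h2 : 2 / y ≤ (M : ℝ) ^ (-(δ / 10000)) := by
        rw [Real.rpow_neg hMpos.le]
        have h3 : (M : ℝ) ^ (δ / 10000) ≤ y ^ (1 / 2 : ℝ) := by
          calc (M : ℝ) ^ (δ / 10000) ≤ (D ^ (B + 32)) ^ (δ / 10000) :=
                Real.rpow_le_rpow hMpos.le hM2 (by positivity)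
            _ = (y ^ ((20 * ((B : ℝ) + 32)))) ^ (δ / 10000) := by
                congr 1
                rw [hD, ← pow_mul, ← Real.rpow_natCast]
                push_cast
                rfl
            _ = y ^ (20 * ((B : ℝ) + 32) * (δ / 10000)) := (Real.rpow_mul hy0.le _ _).symm
            _ ≤ y ^ (1 / 2 : ℝ) := Real.rpow_le_rpow_of_exponent_le hy1 (by linarith)
        have h4 : y ^ (1 / 2 : ℝ) ≤ y / 2 := by
          rw [← Real.sqrt_eq_rpow]
          rw [Real.sqrt_le_left (by positivity)]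
          have h41 : y * 4 ≤ y * y := mul_le_mul_of_nonneg_left (by linarith) hy0.le
          have h42 : (y / 2) ^ 2 = y * y / 4 := by ring
          rw [h42]
          linarith
        have h5 : 2 / y = (y / 2)⁻¹ := by
          rw [inv_div]
        rw [h5]
        exact inv_anti₀ (by positivity) (h3.trans h4)
      linarith
    obtain ⟨T, hT, hne⟩ := H M hmn (pull e.toEmbedding F') (fun x => hF'b _) (by
        rw [vr_pull]
        exact hvar) (by
        intro i j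
        have h1 := wt_pull e.toEmbedding F' (e.symm i)
        have h2 := wt_pull e.toEmbedding F' (e.symm j)
        rw [Equiv.toEmbedding_apply, Equiv.apply_symm_apply] at h1 h2
        rw [h1, h2]
        exact hF'w _ _) (by
        intro T
        have h0 : T = (T.map e.symm.toEmbedding).map e.toEmbedding := by
          ext i
          simp
        have h1 := Osc_pull_le e.toEmbedding F' (T.map e.symm.toEmbedding)
        rw [← h0] at h1
        obtain ⟨T', hT', hO⟩ := hF'O (T.map e.symm.toEmbedding)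
        rw [Finset.card_map] at hT'
        have hT'' : (T'.card : ℝ) ≤ T.card := by exact_mod_cast hT'
        calc Osc (pull e.toEmbedding F') T ≤ Osc F' (T.map e.symm.toEmbedding) := h1
          _ ≤ Osc G T' := hO
          _ ≤ b * T'.card := hGO T'
          _ ≤ b * T.card := mul_le_mul_of_nonneg_left hT'' (ha0.le.trans hab)
          _ ≤ (M : ℝ) ^ (-1 + δ) * T.card :=
              mul_le_mul_of_nonneg_right (hcoef.trans q3) (Nat.cast_nonneg _)
          _ = T.card * (M : ℝ) ^ (-1 + δ) := mul_comm _ _)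
    have hTd : T.card ≤ d' * k := by
      by_contra hcon2
      exact hne (lowDeg_pull hF'd T (not_le.1 hcon2))
    have h3 : (T.card : ℝ) ≤ d' * k := by exact_mod_cast hTd
    have h4 : (d' : ℝ) * k < D ^ 32 := by
      have hd'D : (d' : ℝ) ≤ D := hd'y.trans (pow_le_pow_right₀ hy1 (by norm_num))
      calc (d' : ℝ) * k ≤ D * D ^ 23 := by gcongr
        _ = D ^ 24 := by ring
        _ < D ^ 32 := pow_lt_pow_right₀ (by linarith) (by norm_num)
    linarith
  obtain ⟨x, hx⟩ := hex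
  obtain ⟨j, hj⟩ := hFw x
  refine ⟨j, ?_⟩
  have hk₁r : (1 : ℝ) ≤ k₁ := by exact_mod_cast hk₁1
  have h1 : (D ^ (B + 2))⁻¹ ≤ w f j := by
    have h2 : θ ≤ (k₁ : ℝ) ^ 2 * w f j := hx.le.trans hj
    have h3 : (k₁ : ℝ) ^ 2 ≤ D ^ 2 := by
      calc (k₁ : ℝ) ^ 2 ≤ (y ^ 15) ^ 2 := pow_le_pow_left₀ (by positivity) hk₁y 2
        _ = y ^ 30 := by ring
        _ ≤ y ^ 40 := pow_le_pow_right₀ hy1 (by norm_num)
        _ = D ^ 2 := by
            rw [hD]
            ring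
    have h4 : θ ≤ D ^ 2 * w f j := h2.trans (mul_le_mul_of_nonneg_right h3 (w_nonneg f j))
    rw [pow_add, mul_inv, ← hθdef, ← div_eq_mul_inv, div_le_iff₀ (by positivity)]
    linarith
  have h2 : ((D ^ (B + 2))⁻¹) ^ 2 ≤ wt f j :=
    (pow_le_pow_left₀ (by positivity) h1 2).trans (w_sq_le_wt f j)
  refine le_trans ?_ h2
  set q : ℝ := V / (2 * d) with hq
  have hq0 : 0 < q := by positivity
  have hq1 : q ≤ 1 / 2 := by
    rw [hq, div_le_iff₀ (by positivity)]
    linarith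
  have hDq : y * q ≤ D₀ := by
    have h3 : y * q = D₀ * (N' * V) / 2 := by
      rw [hyeq, hq]
      field_simp
    rw [h3]
    have h5 : (D₀ : ℝ) * (N' * V) ≤ D₀ * 2 :=
      mul_le_mul_of_nonneg_left hN'V2 (by linarith)
    linarith
  have h3 : q ^ (b₀ + 1) ≤ y⁻¹ := by
    rw [← one_div, le_div_iff₀ hy0]
    calc q ^ (b₀ + 1) * y = q ^ b₀ * (y * q) := by ring
      _ ≤ (1 / 2) ^ b₀ * (2 ^ b₀) := by
          refine mul_le_mul (pow_le_pow_left₀ hq0.le hq1 b₀) (hDq.trans hb₀.le) (by positivity)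
            (by positivity)
      _ = 1 := by rw [← mul_pow]; norm_num
  calc q ^ ((b₀ + 1) * (40 * (B + 2))) = (q ^ (b₀ + 1)) ^ (40 * (B + 2)) := pow_mul _ _ _
    _ ≤ (y⁻¹) ^ (40 * (B + 2)) := pow_le_pow_left₀ (by positivity) h3 _
    _ = ((D ^ (B + 2))⁻¹) ^ 2 := by
        rw [hD, ← inv_pow, ← inv_pow, ← pow_mul, ← pow_mul]
        congr 1
        ring

/-- **The conjecture implies a degree bound for functions with equal influences.** -/
theorem converse {C₁ C₂ : ℝ} (hC₁ : 0 < C₁) (hC₂ : 0 < C₂) {v : ℝ} (hv2 : 1 / 2 ≤ v)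
    (H : ∀ (n d : ℕ) (f : (Fin n → Bool) → ℝ), 1 ≤ d → (∀ x, |f x| ≤ 1) → LowDeg d f →
      v ≤ vr f → (∀ i j, wt f i = wt f j) → ∃ j, C₁ * (vr f / d) ^ C₂ ≤ wt f j) :
    ∃ (δ : ℝ) (n₀ : ℕ), 0 < δ ∧ ∀ n : ℕ, n₀ ≤ n → ∀ f : (Fin n → Bool) → ℝ, (∀ x, |f x| ≤ 1) →
      v ≤ vr f → (∀ i j, wt f i = wt f j) →
      ∃ T : Finset (Fin n), (n : ℝ) ^ δ ≤ T.card ∧ coef f T ≠ 0 := by
  set δ : ℝ := 1 / (2 * (1 + C₂)) with hδ
  have hδ0 : 0 < δ := by positivity
  obtain ⟨n₀, hn₀⟩ := exists_nat_gt (((2 : ℝ) ^ C₂ / C₁) ^ 2 + 1)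
  refine ⟨δ, n₀, hδ0, fun n hn f hf hv hw => ?_⟩
  by_contra hcon
  push Not at hcon
  have hn1 : ((2 : ℝ) ^ C₂ / C₁) ^ 2 + 1 < n := by
    have : (n₀ : ℝ) ≤ n := by exact_mod_cast hn
    linarith
  have hn1' : (1 : ℝ) ≤ n := by nlinarith [sq_nonneg ((2 : ℝ) ^ C₂ / C₁)]
  have hn0 : (0 : ℝ) < n := by linarith
  set y : ℝ := (n : ℝ) ^ δ with hy
  have hy1 : 1 ≤ y := Real.one_le_rpow hn1' hδ0.le
  have hy0 : 0 < y := by linarith
  set d : ℕ := ⌊y⌋₊ with hd
  have hd1 : 1 ≤ d := Nat.le_floor (by simpa using hy1)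
  have hdy : (d : ℝ) ≤ y := Nat.floor_le hy0.le
  have hd0 : (0 : ℝ) < d := by exact_mod_cast hd1
  have hlow : LowDeg d f := by
    intro T hT
    exact hcon T ((Nat.floor_lt hy0.le).1 hT).le
  obtain ⟨j, hj⟩ := H n d f hd1 hf hlow hv hw
  have hsum : (n : ℝ) * wt f j ≤ d := by
    have h1 := sum_wt_le hf hlow
    have h2 : ∑ i, wt f i = n * wt f j := by
      rw [Finset.sum_congr rfl fun i _ => hw i j, Finset.sum_const, Finset.card_univ,
        Fintype.card_fin, nsmul_eq_mul]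
    linarith
  have h1 : (1 / 2 / y) ^ C₂ ≤ (vr f / d) ^ C₂ := by
    refine Real.rpow_le_rpow (by positivity) ?_ hC₂.le
    exact div_le_div₀ (by linarith) (hv2.trans hv) hd0 hdy
  have h2 : (n : ℝ) * (C₁ * (1 / 2 / y) ^ C₂) ≤ y := by
    calc (n : ℝ) * (C₁ * (1 / 2 / y) ^ C₂) ≤ n * (C₁ * (vr f / d) ^ C₂) := by gcongr
      _ ≤ n * wt f j := by gcongr
      _ ≤ d := hsum
      _ ≤ y := hdy
  have h3 : (1 / 2 / y) ^ C₂ = ((2 : ℝ) ^ C₂ * y ^ C₂)⁻¹ := by
    rw [show 1 / 2 / y = (2 * y)⁻¹ by field_simp, Real.inv_rpow (by positivity),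
      Real.mul_rpow (by norm_num) hy0.le]
  rw [h3] at h2
  have h4 : (n : ℝ) ≤ (2 : ℝ) ^ C₂ / C₁ * (y * y ^ C₂) := by
    have h5 : (n : ℝ) * (C₁ * ((2 : ℝ) ^ C₂ * y ^ C₂)⁻¹) * ((2 : ℝ) ^ C₂ * y ^ C₂ / C₁) = n := by
      field_simp
    rw [← h5]
    calc (n : ℝ) * (C₁ * ((2 : ℝ) ^ C₂ * y ^ C₂)⁻¹) * ((2 : ℝ) ^ C₂ * y ^ C₂ / C₁)
        ≤ y * ((2 : ℝ) ^ C₂ * y ^ C₂ / C₁) := by gcongr
      _ = _ := by ring
  have h5 : y * y ^ C₂ = (n : ℝ) ^ (1 / 2 : ℝ) := by
    calc y * y ^ C₂ = y ^ (1 : ℝ) * y ^ C₂ := by rw [Real.rpow_one]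
      _ = y ^ (1 + C₂) := (Real.rpow_add hy0 _ _).symm
      _ = (n : ℝ) ^ (δ * (1 + C₂)) := (Real.rpow_mul hn0.le _ _).symm
      _ = (n : ℝ) ^ (1 / 2 : ℝ) := by
          congr 1
          rw [hδ]
          field_simp
  rw [h5, ← Real.sqrt_eq_rpow] at h4
  have h6 : Real.sqrt n ≤ (2 : ℝ) ^ C₂ / C₁ := by
    have h7 : Real.sqrt n * Real.sqrt n ≤ (2 : ℝ) ^ C₂ / C₁ * Real.sqrt n := by
      rw [Real.mul_self_sqrt hn0.le]
      exact h4
    exact le_of_mul_le_mul_right h7 (Real.sqrt_pos.2 hn0)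
  have h7 : (n : ℝ) ≤ ((2 : ℝ) ^ C₂ / C₁) ^ 2 := by
    rw [← Real.sq_sqrt hn0.le]
    exact pow_le_pow_left₀ (Real.sqrt_nonneg _) h6 2
  linarith

end Pool.Agent.Lib_helper51.Flat
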