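import Pool.Agent.Lib_helper51.Flat.Tree

/-!
# Flattening a bounded function of low degree (MP_cf5f8b_an)
-/

set_option autoImplicit false
set_option linter.unusedSectionVars false

open Finset

namespace Pool.Agent.Lib_helper51.Flat

open Lib_helper30.AA Lib_helper8.QP Lib_helper12.CERT

variable {I : Type} [Fintype I] [DecidableEq I]

lemma Osc_singleton (f : (I → Bool) → ℝ) (j : I) : Osc f {j} = 2 * w f j := by
  unfold Osc w
  rw [← av_mul_left]
  congr 1
  funext x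
  have h1 : |f (flipSet {j} x) - f x| = 2 * |D j f x| := by
    rw [flipSet_singleton, abs_sub_comm, sub_flip, abs_mul, abs_mul, abs_sg]
    norm_num
  apply le_antisymm
  · obtain ⟨B, hB, h⟩ := exists_osc f {j} x
    rw [h]
    rcases Finset.subset_singleton_iff.1 hB with rfl | rfl
    · rw [flipSet_empty, sub_self, abs_zero]
      positivity
    · exact h1.le
  · rw [← h1]
    exact le_osc (Finset.Subset.refl _) x

lemma w_gL_le (f : (I → Bool) → ℝ) (L : Finset I) (j : I) : w (gL f L) j ≤ w f j := by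
  have h1 := Osc_gL_le f L {j}
  rw [Osc_singleton] at h1
  by_cases h : j ∈ L
  · have h2 : ({j} : Finset I) \ L = ∅ := by
      rw [Finset.sdiff_eq_empty_iff_subset, Finset.singleton_subset_iff]
      exact h
    rw [h2, Osc_empty] at h1
    linarith [w_nonneg f j]
  · have h2 : ({j} : Finset I) \ L = {j} := by
      rw [Finset.sdiff_eq_self_iff_disjoint, Finset.disjoint_singleton_left]
      exact h
    rw [h2, Osc_singleton] at h1
    linarith

lemma w_gL_mem (f : (I → Bool) → ℝ) {L : Finset I} {j : I} (h : j ∈ L) : w (gL f L) j = 0 := by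
  have h1 := Osc_gL_le f L {j}
  have h2 : ({j} : Finset I) \ L = ∅ := by
    rw [Finset.sdiff_eq_empty_iff_subset, Finset.singleton_subset_iff]
    exact h
  rw [Osc_singleton, h2, Osc_empty] at h1
  linarith [w_nonneg (gL f L) j]

lemma wt_le_w {f : (I → Bool) → ℝ} (hf : ∀ x, |f x| ≤ 1) (j : I) : wt f j ≤ w f j := by
  rw [wt_eq]
  unfold w
  refine av_mono fun x => ?_
  have h1 : ((f x - f (Lib_helper30.AA.flip j x)) / 2) ^ 2 = |D j f x| ^ 2 := by
    rw [sub_flip, sq_abs, show 2 * sg (x j) * D j f x / 2 = sg (x j) * D j f x by ring, mul_pow,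
      sg_sq, one_mul]
  rw [h1]
  have h2 := abs_D_le hf j x
  have h3 := abs_nonneg (D j f x)
  nlinarith

lemma w_sq_le_wt (f : (I → Bool) → ℝ) (j : I) : w f j ^ 2 ≤ wt f j := by
  rw [wt_eq]
  have h1 : (fun x => ((f x - f (Lib_helper30.AA.flip j x)) / 2) ^ 2) = fun x => |D j f x| ^ 2 := by
    funext x
    rw [sub_flip, sq_abs, show 2 * sg (x j) * D j f x / 2 = sg (x j) * D j f x by ring, mul_pow,
      sg_sq, one_mul]
  rw [h1]
  have h2 := av_nonneg (g := fun x => (|D j f x| - w f j) ^ 2) fun x => sq_nonneg _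
  have h3 : av (fun x => (|D j f x| - w f j) ^ 2) = av (fun x => |D j f x| ^ 2) - w f j ^ 2 := by
    have h4 : ∀ x, (|D j f x| - w f j) ^ 2 = |D j f x| ^ 2 - 2 * w f j * |D j f x| + w f j ^ 2 :=
      fun x => by ring
    simp_rw [h4]
    rw [av_add, av_sub, av_mul_left, av_const]
    have : av (fun x => |D j f x|) = w f j := rfl
    rw [this]
    ring
  linarith

lemma vr_le_sum_wt (f : (I → Bool) → ℝ) : vr f ≤ ∑ j, wt f j := by
  rw [vr_eq, Finset.sum_filter]
  unfold wt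
  simp_rw [Finset.sum_filter]
  rw [Finset.sum_comm]
  refine Finset.sum_le_sum fun T _ => ?_
  split_ifs with h
  · obtain ⟨j, hj⟩ := h
    have h2 := Finset.single_le_sum (f := fun i => (if i ∈ T then coef f T ^ 2 else 0))
      (fun i _ => by split_ifs <;> positivity) (Finset.mem_univ j)
    simpa [hj] using h2
  · exact Finset.sum_nonneg fun i _ => by split_ifs <;> positivity

lemma gL_gL (f : (I → Bool) → ℝ) (L L' : Finset I) : gL (gL f L) L' = gL f (L ∪ L') := by
  funext x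
  rw [inversion (gL (gL f L) L') x, inversion (gL f (L ∪ L')) x]
  refine Finset.sum_congr rfl fun T _ => ?_
  rw [coef_gL, coef_gL, coef_gL]
  by_cases h1 : Disjoint T L <;> by_cases h2 : Disjoint T L' <;>
    simp [h1, h2, Finset.disjoint_union_right]

lemma W_insert (f : (I → Bool) → ℝ) {L : Finset I} {j : I} (_hj : j ∉ L) :
    W f (insert j L) = W f L + wt (gL f L) j := by
  unfold W wt
  rw [Finset.sum_filter, Finset.sum_filter, Finset.sum_filter, ← Finset.sum_add_distrib]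
  refine Finset.sum_congr rfl fun T _ => ?_
  rw [coef_gL]
  by_cases h1 : Disjoint T L <;> by_cases h2 : j ∈ T <;>
    simp [h1, h2, Finset.disjoint_insert_right]

/-- Averaging out the variables of small influence. -/
lemma prune (G : (I → Bool) → ℝ) (K : Finset I) {τ : ℝ} :
    ∃ P ⊆ K, W G P ≤ P.card * τ ∧ ∀ j ∈ K, j ∉ P → τ ≤ wt (gL G P) j := by
  classical
  obtain ⟨P, hP, hmax⟩ := Finset.exists_max_image
    (K.powerset.filter fun P => W G P ≤ P.card * τ) Finset.card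
    ⟨∅, by rw [Finset.mem_filter]; exact ⟨Finset.empty_mem_powerset _, by rw [W_empty]; simp⟩⟩
  rw [Finset.mem_filter, Finset.mem_powerset] at hP
  refine ⟨P, hP.1, hP.2, fun j hj hjP => ?_⟩
  by_contra hcon
  rw [not_le] at hcon
  have h1 := hmax (insert j P) (by
    rw [Finset.mem_filter, Finset.mem_powerset]
    refine ⟨Finset.insert_subset hj hP.1, ?_⟩
    rw [W_insert G hjP, Finset.card_insert_of_notMem hjP]
    push_cast
    linarith [hP.2])
  rw [Finset.card_insert_of_notMem hjP] at h1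
  omega

lemma D_fill {f : (I → Bool) → ℝ} {S : Finset I} {z : I → Bool} {j : I} (h : j ∈ S)
    (x : I → Bool) : D j (fun x => f (fill S z x)) x = 0 := by
  unfold D
  have h1 : ∀ b, fill S z (Function.update x j b) = fill S z x := by
    intro b
    funext i
    unfold fill
    by_cases hi : i ∈ S
    · simp [hi]
    · have : i ≠ j := by
        rintro rfl
        exact hi h
      simp [hi, Function.update_of_ne this]
  simp only [h1, sub_self, zero_div]

lemma w_fill {f : (I → Bool) → ℝ} {S : Finset I} {z : I → Bool} {j : I} (h : j ∈ S) :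
    w (fun x => f (fill S z x)) j = 0 := by
  unfold w
  simp only [D_fill h, abs_zero]
  exact av_const 0

lemma lowDeg_fill {d : ℕ} {f : (I → Bool) → ℝ} (hd : LowDeg d f) (S : Finset I) (z : I → Bool) :
    LowDeg d (fun x => f (fill S z x)) := lowDeg_res hd S z

/-- **Effective flattening.** -/
theorem flatten {f : (I → Bool) → ℝ} (hf : ∀ x, |f x| ≤ 1) {d : ℕ} (hd1 : 1 ≤ d)
    (hd : LowDeg d f) {θ lam : ℝ} (hθ : 0 < θ) (hlam : 0 < lam) (hw : ∀ j, w f j ≤ θ)
    (hV : 8 * lam ≤ vr f) (hsmall : 12 * (d : ℝ) ^ 2 * θ ≤ lam) :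
    ∃ (S : Finset I) (z : I → Bool) (L : Finset I),
      vr f - 4 * lam ≤ vr (gL (fun x => f (fill S z x)) L) ∧
      vr f * lam ^ 2 / (408 * (d : ℝ) ^ 6 * θ) ≤ (((S ∪ L)ᶜ.card : ℕ) : ℝ) ∧
      (((S ∪ L)ᶜ.card : ℕ) : ℝ) ≤ 12 * (d : ℝ) ^ 2 / (lam * θ) ∧
      (∀ j, j ∉ S ∪ L → lam ^ 2 * θ / (12 * (d : ℝ) ^ 2) ≤
        wt (gL (fun x => f (fill S z x)) L) j) ∧
      ∀ T : Finset I, Osc (gL (fun x => f (fill S z x)) L) T ≤
        1632 * (d : ℝ) ^ 8 / lam ^ 3 * θ * T.card := by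
  classical
  obtain ⟨S, z, hS1, hS2, hS3⟩ := exists_leaf hf hd1 hd hθ hlam hw (by linarith) hsmall
  have hd' : (1 : ℝ) ≤ d := by exact_mod_cast hd1
  have hd0 : (0 : ℝ) < d := by linarith
  set V := vr f with hVdef
  set F : (I → Bool) → ℝ := fun x => f (fill S z x) with hF
  have hFb : ∀ x, |F x| ≤ 1 := fun x => hf _
  have hFd : LowDeg d F := lowDeg_fill hd S z
  set ρ : ℝ := 204 * (d : ℝ) ^ 6 / lam ^ 2 * θ with hρ
  have hρ0 : 0 < ρ := by positivity
  -- the heavy variables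
  set H : Finset I := univ.filter fun j => ρ < w F j with hH
  have hHsum : ∑ j ∈ H, w F j ≤ lam := by
    have h1 : ρ * ∑ j ∈ H, w F j ≤ Psi F := by
      rw [Finset.mul_sum]
      unfold Psi
      calc ∑ j ∈ H, ρ * w F j ≤ ∑ j ∈ H, w F j ^ 2 := by
            refine Finset.sum_le_sum fun j hj => ?_
            rw [hH, Finset.mem_filter] at hj
            rw [sq]
            exact mul_le_mul_of_nonneg_right hj.2.le (w_nonneg F j)
        _ ≤ ∑ j, w F j ^ 2 :=
            Finset.sum_le_sum_of_subset_of_nonneg (Finset.subset_univ _) fun _ _ _ => sq_nonneg _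
    have h2 : ρ * lam * lam = 204 * (d : ℝ) ^ 6 * θ := by
      rw [hρ]
      field_simp
    have h3 : ρ * (∑ j ∈ H, w F j) * lam ≤ ρ * lam * lam := by
      rw [h2]
      exact (mul_le_mul_of_nonneg_right h1 hlam.le).trans hS3
    have h4 := le_of_mul_le_mul_right h3 hlam
    exact le_of_mul_le_mul_left h4 hρ0
  set F1 := gL F H with hF1
  have hF1b : ∀ x, |F1 x| ≤ 1 := gL_bound hFb H
  have hF1d : LowDeg d F1 := lowDeg_gL hFd H
  have hF1v : V - 2 * lam ≤ vr F1 := by
    have h1 := vr_gL F H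
    have h2 := W_le_sum F H
    have h3 : ∑ j ∈ H, wt F j ≤ ∑ j ∈ H, w F j := Finset.sum_le_sum fun j _ => wt_le_w hFb j
    rw [← hF1] at h1
    linarith
  have hF1w : ∀ j, w F1 j ≤ ρ := by
    intro j
    by_cases h : j ∈ H
    · rw [hF1, w_gL_mem F h]
      exact hρ0.le
    · refine (w_gL_le F H j).trans ?_
      rw [hH, Finset.mem_filter, not_and, not_lt] at h
      exact h (Finset.mem_univ j)
  -- regularity
  set Es : ℝ := 8 * (d : ℝ) ^ 2 / lam with hEs
  have hEs0 : 0 < Es := by positivity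
  obtain ⟨L₁, hL1, hL2⟩ := regular hF1b hF1d hEs0.le
  have hW1 : W F1 L₁ ≤ lam := by
    have h1 : Es * lam = 8 * (d : ℝ) ^ 2 := by
      rw [hEs]
      field_simp
    rw [← h1] at hL1
    exact le_of_mul_le_mul_left hL1 hEs0
  set F2 := gL F1 L₁ with hF2
  have hF2b : ∀ x, |F2 x| ≤ 1 := gL_bound hF1b L₁
  have hF2v : V - 3 * lam ≤ vr F2 := by
    have h1 := vr_gL F1 L₁
    rw [← hF2] at h1
    linarith
  have hF2O : ∀ T : Finset I, Osc F2 T ≤ Es * ρ * T.card := by
    intro T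
    refine (hL2 T).trans ?_
    rw [mul_assoc]
    refine mul_le_mul_of_nonneg_left ?_ hEs0.le
    calc ∑ i ∈ T, wt F1 i ≤ ∑ _i ∈ T, ρ :=
          Finset.sum_le_sum fun i _ => (wt_le_w hF1b i).trans (hF1w i)
      _ = ρ * T.card := by rw [Finset.sum_const, nsmul_eq_mul, mul_comm]
  -- pruning
  set τ : ℝ := lam ^ 2 * θ / (12 * (d : ℝ) ^ 2) with hτ
  have hτ0 : 0 < τ := by positivity
  obtain ⟨P, hPK, hP1, hP2⟩ := prune F2 Sᶜ (τ := τ)
  set F3 := gL F2 P with hF3
  have hF3eq : F3 = gL F (H ∪ L₁ ∪ P) := by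
    rw [hF3, hF2, hF1, gL_gL, gL_gL, Finset.union_assoc]
  have hF3b : ∀ x, |F3 x| ≤ 1 := gL_bound hF2b P
  have hPτ : (P.card : ℝ) * τ ≤ lam := by
    have h1 : (P.card : ℝ) ≤ ((Sᶜ.card : ℕ) : ℝ) := by exact_mod_cast Finset.card_le_card hPK
    have h2 : ((Sᶜ.card : ℕ) : ℝ) * τ =
        ((Sᶜ.card : ℕ) : ℝ) * (lam * θ) * (lam / (12 * (d : ℝ) ^ 2)) := by
      rw [hτ]
      ring
    calc (P.card : ℝ) * τ ≤ ((Sᶜ.card : ℕ) : ℝ) * τ := mul_le_mul_of_nonneg_right h1 hτ0.le
      _ = ((Sᶜ.card : ℕ) : ℝ) * (lam * θ) * (lam / (12 * (d : ℝ) ^ 2)) := h2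
      _ ≤ 12 * (d : ℝ) ^ 2 * (lam / (12 * (d : ℝ) ^ 2)) :=
          mul_le_mul_of_nonneg_right hS2 (by positivity)
      _ = lam := by
          field_simp
  have hF3v : V - 4 * lam ≤ vr F3 := by
    have h1 := vr_gL F2 P
    rw [← hF3] at h1
    linarith
  have hF3w : ∀ j, w F3 j ≤ ρ := fun j =>
    (w_gL_le F2 P j).trans ((w_gL_le F1 L₁ j).trans (hF1w j))
  have hEρ : Es * ρ = 1632 * (d : ℝ) ^ 8 / lam ^ 3 * θ := by
    rw [hEs, hρ]
    field_simp
    ring
  have hF3O : ∀ T : Finset I, Osc F3 T ≤ 1632 * (d : ℝ) ^ 8 / lam ^ 3 * θ * T.card := by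
    intro T
    rw [← hEρ]
    refine (Osc_gL_le F2 P T).trans ((hF2O _).trans ?_)
    refine mul_le_mul_of_nonneg_left ?_ (by positivity)
    exact_mod_cast Finset.card_le_card Finset.sdiff_subset
  have hout : ∀ j ∈ S ∪ (H ∪ L₁ ∪ P), w F3 j = 0 := by
    intro j hj
    rw [Finset.mem_union] at hj
    rcases hj with hj | hj
    · apply le_antisymm _ (w_nonneg _ _)
      rw [hF3eq]
      refine (w_gL_le F _ j).trans ?_
      rw [hF, w_fill hj]
    · rw [hF3eq]
      exact w_gL_mem F hj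
  refine ⟨S, z, H ∪ L₁ ∪ P, ?_⟩
  rw [← hF, ← hF3eq]
  refine ⟨hF3v, ?_, ?_, ?_, hF3O⟩
  · -- the number of variables from below
    have h1 : V / 2 ≤ ((((S ∪ (H ∪ L₁ ∪ P))ᶜ).card : ℕ) : ℝ) * ρ := by
      calc V / 2 ≤ vr F3 := by linarith
        _ ≤ ∑ j, wt F3 j := vr_le_sum_wt F3
        _ ≤ ∑ j, w F3 j := Finset.sum_le_sum fun j _ => wt_le_w hF3b j
        _ = ∑ j ∈ (S ∪ (H ∪ L₁ ∪ P))ᶜ, w F3 j := by
            symm
            refine Finset.sum_subset (Finset.subset_univ _) fun j _ hj => ?_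
            rw [Finset.mem_compl, not_not] at hj
            exact hout j hj
        _ ≤ ∑ _j ∈ (S ∪ (H ∪ L₁ ∪ P))ᶜ, ρ := Finset.sum_le_sum fun j _ => hF3w j
        _ = _ := by rw [Finset.sum_const, nsmul_eq_mul]
    rw [div_le_iff₀ (by positivity)]
    have h2 : V * lam ^ 2 = V / 2 * (2 * lam ^ 2) := by ring
    have h3 : ((((S ∪ (H ∪ L₁ ∪ P))ᶜ).card : ℕ) : ℝ) * (408 * (d : ℝ) ^ 6 * θ) =
        ((((S ∪ (H ∪ L₁ ∪ P))ᶜ).card : ℕ) : ℝ) * ρ * (2 * lam ^ 2) := by
      rw [hρ]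
      field_simp
      ring
    rw [h2, h3]
    exact mul_le_mul_of_nonneg_right h1 (by positivity)
  · rw [le_div_iff₀ (by positivity)]
    refine le_trans (mul_le_mul_of_nonneg_right ?_ (by positivity)) hS2
    have h1 : (S ∪ (H ∪ L₁ ∪ P))ᶜ ⊆ Sᶜ :=
      Finset.compl_subset_compl.2 Finset.subset_union_left
    exact_mod_cast Finset.card_le_card h1
  · intro j hj
    rw [Finset.mem_union, not_or] at hj
    refine hP2 j (Finset.mem_compl.2 hj.1) fun h => hj.2 ?_
    exact Finset.mem_union_right _ h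

end Pool.Agent.Lib_helper51.Flat
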