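import Pool.Agent.Lib_helper12.CERT.Tree
import Pool.Agent.Lib_helper8.QP.Basic

/-!
# The gradient inequality in `L¹` for functions of low degree on the cube (MP_cf5f8b_an)
-/

set_option autoImplicit false
set_option linter.unusedSectionVars false

open Finset Polynomial

namespace Pool.Agent.Lib_helper51.Flat

open Lib_helper30.AA Lib_helper8.QP Lib_helper12.CERT

variable {I : Type} [Fintype I] [DecidableEq I]

/-! ### Khintchine -/

/-- The Rademacher sum. -/
noncomputable def rad (T : Finset I) (a : I → ℝ) (ε : I → Bool) : ℝ := ∑ j ∈ T, sg (ε j) * a j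

lemma rad_insert {T : Finset I} {i : I} (hi : i ∉ T) (a : I → ℝ) (ε : I → Bool) :
    rad (insert i T) a ε = sg (ε i) * a i + rad T a ε := by
  unfold rad
  rw [Finset.sum_insert hi]

lemma rad_flip {T : Finset I} {i : I} (hi : i ∉ T) (a : I → ℝ) (ε : I → Bool) :
    rad T a (Lib_helper30.AA.flip i ε) = rad T a ε := by
  unfold rad
  refine Finset.sum_congr rfl fun j hj => ?_
  rw [flip_apply_of_ne]
  rintro rfl
  exact hi hj

lemma rad_moments (T : Finset I) (a : I → ℝ) :
    av (fun ε => rad T a ε ^ 2) = ∑ j ∈ T, a j ^ 2 ∧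
      av (fun ε => rad T a ε ^ 4) ≤ 3 * (∑ j ∈ T, a j ^ 2) ^ 2 := by
  induction T using Finset.induction_on with
  | empty =>
    have h : ∀ ε : I → Bool, rad ∅ a ε = 0 := fun ε => by simp [rad]
    simp only [h, Finset.sum_empty]
    constructor
    · rw [show (fun _ : I → Bool => (0 : ℝ) ^ 2) = fun _ => 0 by funext; norm_num, av_const]
    · rw [show (fun _ : I → Bool => (0 : ℝ) ^ 4) = fun _ => 0 by funext; norm_num, av_const]
      norm_num
  | insert i T hi ih =>
    obtain ⟨ih2, ih4⟩ := ih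
    have hodd1 : av (fun ε => sg (ε i) * rad T a ε) = 0 := by
      refine av_odd i fun ε => ?_
      rw [sg_flip_self, rad_flip hi]
      ring
    have hodd3 : av (fun ε => sg (ε i) * rad T a ε ^ 3) = 0 := by
      refine av_odd i fun ε => ?_
      rw [sg_flip_self, rad_flip hi]
      ring
    have e2 : ∀ ε : I → Bool, rad (insert i T) a ε ^ 2 =
        (a i ^ 2 + rad T a ε ^ 2) + 2 * a i * (sg (ε i) * rad T a ε) := by
      intro ε
      rw [rad_insert hi]
      have := sg_sq (ε i)
      linear_combination (a i ^ 2) * this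
    have e4 : ∀ ε : I → Bool, rad (insert i T) a ε ^ 4 =
        (a i ^ 4 + 6 * a i ^ 2 * rad T a ε ^ 2 + rad T a ε ^ 4) +
          (4 * a i ^ 3 * (sg (ε i) * rad T a ε) + 4 * a i * (sg (ε i) * rad T a ε ^ 3)) := by
      intro ε
      rw [rad_insert hi]
      have h2 := sg_sq (ε i)
      have h3 : sg (ε i) ^ 3 = sg (ε i) := by
        rw [pow_succ, h2, one_mul]
      have h4 : sg (ε i) ^ 4 = 1 := by
        rw [show (4 : ℕ) = 2 * 2 by norm_num, pow_mul, h2, one_pow]
      linear_combination (a i ^ 4) * h4 + (4 * a i ^ 3 * rad T a ε) * h3 +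
        (6 * a i ^ 2 * rad T a ε ^ 2) * h2
    constructor
    · simp_rw [e2]
      rw [av_add, av_add, av_const, av_mul_left, hodd1, ih2, Finset.sum_insert hi]
      ring
    · simp_rw [e4]
      rw [av_add, av_add, av_add, av_const, av_mul_left, ih2, av_add, av_mul_left, av_mul_left,
        hodd1, hodd3, Finset.sum_insert hi]
      nlinarith [sq_nonneg (a i ^ 2)]

lemma khintchine (a : I → ℝ) :
    Real.sqrt (∑ j, a j ^ 2) ≤ 2 * av (fun ε => |rad univ a ε|) := by
  obtain ⟨h2, h4⟩ := rad_moments univ a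
  set S := Real.sqrt (∑ j, a j ^ 2) with hS
  have hsum : (0 : ℝ) ≤ ∑ j, a j ^ 2 := Finset.sum_nonneg fun _ _ => sq_nonneg _
  have hSS : S ^ 2 = ∑ j, a j ^ 2 := Real.sq_sqrt hsum
  rcases eq_or_lt_of_le (Real.sqrt_nonneg (∑ j, a j ^ 2)) with h0 | h0
  · rw [← hS] at h0
    rw [← h0]
    have := av_nonneg (g := fun ε => |rad univ a ε|) fun ε => abs_nonneg _
    linarith
  rw [← hS] at h0
  have hpt : ∀ ε, rad univ a ε ^ 2 / S - 4 / 27 * (rad univ a ε ^ 4 / S ^ 3) ≤
      |rad univ a ε| := by
    intro ε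
    set u := |rad univ a ε| with hu
    have hu0 : 0 ≤ u := abs_nonneg _
    have e1 : rad univ a ε ^ 2 = u ^ 2 := (sq_abs _).symm
    have e2 : rad univ a ε ^ 4 = u ^ 4 := by
      rw [show (4 : ℕ) = 2 * 2 by norm_num, pow_mul, pow_mul, e1]
    rw [e1, e2]
    have h3 : u ^ 2 / S - 4 / 27 * (u ^ 4 / S ^ 3) =
        (u ^ 2 * S ^ 2 - 4 / 27 * u ^ 4) / S ^ 3 := by
      field_simp
    rw [h3, div_le_iff₀ (by positivity)]
    -- u (S^3 - u S^2 + 4/27 u^3) >= 0
    have h4 : 0 ≤ S ^ 3 - u * S ^ 2 + 4 / 27 * u ^ 3 := by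
      have : S ^ 3 - u * S ^ 2 + 4 / 27 * u ^ 3 =
          (u - 3 / 2 * S) ^ 2 * (4 / 27 * (u + 3 * S)) := by ring
      rw [this]
      positivity
    nlinarith
  have h5 := av_mono hpt
  have h6 : av (fun ε => rad univ a ε ^ 2 / S - 4 / 27 * (rad univ a ε ^ 4 / S ^ 3)) =
      av (fun ε => rad univ a ε ^ 2) * S⁻¹ -
        4 / 27 * (av (fun ε => rad univ a ε ^ 4) * (S ^ 3)⁻¹) := by
    simp_rw [div_eq_mul_inv]
    rw [av_sub, av_mul_right, av_mul_left, av_mul_right]
  rw [h6, h2, ← hSS] at h5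
  rw [← hSS] at h4
  have h7 : S ^ 2 * S⁻¹ = S := by field_simp
  have h8 : av (fun ε => rad univ a ε ^ 4) * (S ^ 3)⁻¹ ≤ 3 * S := by
    rw [← div_eq_mul_inv, div_le_iff₀ (by positivity)]
    calc _ ≤ 3 * (S ^ 2) ^ 2 := h4
      _ = 3 * S * S ^ 3 := by ring
  rw [h7] at h5
  linarith

/-! ### Markov along random flips -/

/-- The signed sum over the coordinates in `A`. -/
lemma flips_l1 {f : (I → Bool) → ℝ} {d : ℕ} (hd : LowDeg d f) (A : Finset I) :
    av (fun x => |∑ j ∈ A, (f (Lib_helper30.AA.flip j x) - f x)|) ≤ 2 * (d : ℝ) ^ 2 * av (fun x => |f x|) := by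
  classical
  let 𝓑 : Finset (Finset I) := A.image fun j => {j}
  have h𝓑 : (𝓑 : Set (Finset I)).PairwiseDisjoint id := by
    intro B hB C hC hne
    obtain ⟨i, -, rfl⟩ := Finset.mem_image.1 (Finset.mem_coe.1 hB)
    obtain ⟨j, -, rfl⟩ := Finset.mem_image.1 (Finset.mem_coe.1 hC)
    simp only [Function.onFun, id]
    rw [Finset.disjoint_singleton]
    rintro rfl
    exact hne rfl
  have hder : ∀ x, (pathP f 𝓑 x).derivative.eval 0 = ∑ j ∈ A, (f (Lib_helper30.AA.flip j x) - f x) := by
    intro x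
    rw [pathP_deriv, Finset.sum_image (by
      intro i _ j _ h
      exact Finset.singleton_injective h)]
    refine Finset.sum_congr rfl fun j _ => ?_
    rw [flipSet_singleton]
  -- the sign
  let h : (I → Bool) → ℝ := fun x => if 0 ≤ ∑ j ∈ A, (f (Lib_helper30.AA.flip j x) - f x) then 1 else -1
  have habs : ∀ x, |h x| = 1 := by
    intro x
    simp only [h]
    split_ifs <;> simp
  have hsgn : ∀ x, h x * ∑ j ∈ A, (f (Lib_helper30.AA.flip j x) - f x) = |∑ j ∈ A, (f (Lib_helper30.AA.flip j x) - f x)| := by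
    intro x
    simp only [h]
    split_ifs with h1
    · rw [abs_of_nonneg h1, one_mul]
    · rw [abs_of_neg (not_le.1 h1)]
      ring
  let P : ℝ[X] := ∑ x, C (((2 : ℝ) ^ (Fintype.card I))⁻¹ * h x) * pathP f 𝓑 x
  have hPdeg : P.natDegree ≤ d := by
    refine natDegree_sum_le_of_forall_le _ _ fun x _ => ?_
    exact (natDegree_C_mul_le _ _).trans (pathP_natDegree hd h𝓑 x)
  have hPev : ∀ t, P.eval t = av fun x => h x * (pathP f 𝓑 x).eval t := by
    intro t
    simp only [P, eval_finsetSum, eval_mul, eval_C, av, Finset.mul_sum]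
    refine Finset.sum_congr rfl fun x _ => ?_
    ring
  have hPder : P.derivative.eval 0 = av fun x => |∑ j ∈ A, (f (Lib_helper30.AA.flip j x) - f x)| := by
    simp only [P, derivative_sum, derivative_C_mul, eval_finsetSum, eval_mul, eval_C, av, hder]
    rw [Finset.mul_sum]
    refine Finset.sum_congr rfl fun x _ => ?_
    rw [← hsgn, mul_assoc]
  have hbd : ∀ t ∈ Set.uIcc (1 : ℝ) 0, |P.eval t| ≤ av (fun x => |f x|) := by
    intro t ht
    rw [Set.uIcc_of_ge zero_le_one] at ht
    have hw : ∀ R : Finset (Finset I), 0 ≤ t ^ R.card * (1 - t) ^ (𝓑 \ R).card := fun R =>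
      mul_nonneg (pow_nonneg ht.1 _) (pow_nonneg (by linarith [ht.2]) _)
    rw [hPev]
    calc |av fun x => h x * (pathP f 𝓑 x).eval t|
        ≤ av fun x => |h x * (pathP f 𝓑 x).eval t| := abs_av_le _
      _ ≤ av fun x => ∑ R ∈ 𝓑.powerset, (t ^ R.card * (1 - t) ^ (𝓑 \ R).card) *
            |f (flipSet (R.biUnion id) x)| := by
          refine av_mono fun x => ?_
          rw [abs_mul, habs, one_mul, pathP_eval f h𝓑]
          refine (Finset.abs_sum_le_sum_abs _ _).trans (Finset.sum_le_sum fun R _ => ?_)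
          rw [abs_mul, abs_of_nonneg (hw R)]
      _ = ∑ R ∈ 𝓑.powerset, (t ^ R.card * (1 - t) ^ (𝓑 \ R).card) * av (fun x => |f x|) := by
          rw [av_sum]
          refine Finset.sum_congr rfl fun R _ => ?_
          rw [av_mul_left, av_flipSet (R.biUnion id) (fun x => |f x|)]
      _ = av (fun x => |f x|) := by
          rw [← Finset.sum_mul]
          have h1 := Finset.prod_add (fun _ : Finset I => t) (fun _ => 1 - t) 𝓑
          simp only [Finset.prod_const] at h1
          rw [← h1]
          simp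
  rcases eq_or_lt_of_le (av_nonneg (g := fun x => |f x|) fun x => abs_nonneg _) with h0 | h0
  · -- `f = 0`
    have hall : ∀ x, f x = 0 := by
      have h1 : ∑ x : I → Bool, |f x| = 0 := by
        have h2 := h0.symm
        unfold av at h2
        rcases mul_eq_zero.1 h2 with h3 | h3
        · exact absurd h3 (by positivity)
        · exact h3
      intro x
      exact abs_eq_zero.1 ((Finset.sum_eq_zero_iff_of_nonneg fun x _ => abs_nonneg _).1 h1 x
        (Finset.mem_univ x))
    simp only [hall, sub_self, Finset.sum_const_zero, abs_zero]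
    rw [av_const]
    simp
  · have h1 := markov_segment hPdeg (a := 1) (c := 0) h0 one_ne_zero hbd
    rw [hPder] at h1
    rw [abs_of_nonneg (av_nonneg fun x => abs_nonneg _)] at h1
    rw [zero_sub, abs_neg, abs_one, div_one] at h1
    linarith

lemma flip_sub_eq (j : I) (f : (I → Bool) → ℝ) (x : I → Bool) :
    (f (Lib_helper30.AA.flip j x) - f x) ^ 2 = 4 * D j f x ^ 2 := by
  unfold D Lib_helper30.AA.flip
  cases hx : x j
  · have h1 : Function.update x j false = x := by rw [← hx, Function.update_eq_self]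
    simp only [Bool.not_false, h1]
    ring
  · have h1 : Function.update x j true = x := by rw [← hx, Function.update_eq_self]
    simp only [Bool.not_true, h1]
    ring

/-- **The gradient inequality in `L¹`.** -/
theorem grad_l1 {f : (I → Bool) → ℝ} {d : ℕ} (hd : LowDeg d f) :
    av (fun x => Real.sqrt (∑ j, D j f x ^ 2)) ≤ 4 * (d : ℝ) ^ 2 * av (fun x => |f x|) := by
  classical
  -- Khintchine at every point
  have h1 : ∀ x, Real.sqrt (∑ j, D j f x ^ 2) ≤
      av (fun ε : I → Bool => |rad univ (fun j => f (Lib_helper30.AA.flip j x) - f x) ε|) := by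
    intro x
    have h2 := khintchine fun j => f (Lib_helper30.AA.flip j x) - f x
    have h3 : ∑ j, (f (Lib_helper30.AA.flip j x) - f x) ^ 2 = 2 ^ 2 * ∑ j, D j f x ^ 2 := by
      rw [Finset.mul_sum]
      refine Finset.sum_congr rfl fun j _ => ?_
      rw [flip_sub_eq]
      norm_num
    rw [h3, Real.sqrt_mul (by norm_num), Real.sqrt_sq (by norm_num)] at h2
    linarith
  -- splitting a Rademacher sum
  have h2 : ∀ x ε, |rad univ (fun j => f (Lib_helper30.AA.flip j x) - f x) ε| ≤
      |∑ j ∈ univ.filter (fun j => ε j = false), (f (Lib_helper30.AA.flip j x) - f x)| +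
        |∑ j ∈ univ.filter (fun j => ε j = true), (f (Lib_helper30.AA.flip j x) - f x)| := by
    intro x ε
    have h3 : rad univ (fun j => f (Lib_helper30.AA.flip j x) - f x) ε =
        ∑ j ∈ univ.filter (fun j => ε j = false), (f (Lib_helper30.AA.flip j x) - f x) -
          ∑ j ∈ univ.filter (fun j => ε j = true), (f (Lib_helper30.AA.flip j x) - f x) := by
      unfold rad
      rw [Finset.sum_filter, Finset.sum_filter, ← Finset.sum_sub_distrib]
      refine Finset.sum_congr rfl fun j _ => ?_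
      cases ε j <;> simp [sg]
    rw [h3]
    exact abs_sub _ _
  calc av (fun x => Real.sqrt (∑ j, D j f x ^ 2))
      ≤ av (fun x => av (fun ε : I → Bool =>
          |∑ j ∈ univ.filter (fun j => ε j = false), (f (Lib_helper30.AA.flip j x) - f x)| +
            |∑ j ∈ univ.filter (fun j => ε j = true), (f (Lib_helper30.AA.flip j x) - f x)|)) :=
        av_mono fun x => (h1 x).trans (av_mono fun ε => h2 x ε)
    _ = av (fun ε : I → Bool => av (fun x =>
          |∑ j ∈ univ.filter (fun j => ε j = false), (f (Lib_helper30.AA.flip j x) - f x)| +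
            |∑ j ∈ univ.filter (fun j => ε j = true), (f (Lib_helper30.AA.flip j x) - f x)|)) := by
        unfold av
        simp_rw [Finset.mul_sum]
        rw [Finset.sum_comm]
    _ ≤ av (fun _ : I → Bool => 4 * (d : ℝ) ^ 2 * av (fun x => |f x|)) := by
        refine av_mono fun ε => ?_
        rw [av_add]
        have h3 := flips_l1 hd (univ.filter (fun j => ε j = false))
        have h4 := flips_l1 hd (univ.filter (fun j => ε j = true))
        linarith
    _ = _ := av_const _

/-- The `L¹` influence. -/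
noncomputable def w (f : (I → Bool) → ℝ) (j : I) : ℝ := av fun x => |D j f x|

lemma w_nonneg (f : (I → Bool) → ℝ) (j : I) : 0 ≤ w f j := av_nonneg fun _ => abs_nonneg _

/-- **Linear energy.** -/
theorem energy {g : (I → Bool) → ℝ} {d : ℕ} (hd : LowDeg d g) :
    ∑ j, w g j ^ 2 ≤ 16 * (d : ℝ) ^ 4 * av (fun x => |g x|) ^ 2 := by
  set S := Real.sqrt (∑ j, w g j ^ 2) with hS
  have hsum : (0 : ℝ) ≤ ∑ j, w g j ^ 2 := Finset.sum_nonneg fun _ _ => sq_nonneg _
  have hSS : S ^ 2 = ∑ j, w g j ^ 2 := Real.sq_sqrt hsum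
  have hS0 : 0 ≤ S := Real.sqrt_nonneg _
  have h1 : S ^ 2 ≤ S * av (fun x => Real.sqrt (∑ j, D j g x ^ 2)) := by
    have e1 : S ^ 2 = av (fun x => ∑ j, w g j * |D j g x|) := by
      rw [hSS, av_sum]
      refine Finset.sum_congr rfl fun j _ => ?_
      rw [av_mul_left, sq]
      rfl
    rw [e1, ← av_mul_left]
    refine av_mono fun x => ?_
    have h2 := Real.sum_mul_le_sqrt_mul_sqrt univ (fun j => w g j) (fun j => |D j g x|)
    simp only [sq_abs] at h2
    exact h2
  have h2 : S ≤ 4 * (d : ℝ) ^ 2 * av (fun x => |g x|) := by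
    rcases eq_or_lt_of_le hS0 with h0 | h0
    · rw [← h0]
      have := av_nonneg (g := fun x => |g x|) fun x => abs_nonneg _
      positivity
    · have h3 : S ≤ av (fun x => Real.sqrt (∑ j, D j g x ^ 2)) := by
        rw [sq] at h1
        exact le_of_mul_le_mul_left h1 h0
      exact h3.trans (grad_l1 hd)
  rw [← hSS]
  calc S ^ 2 ≤ (4 * (d : ℝ) ^ 2 * av (fun x => |g x|)) ^ 2 := pow_le_pow_left₀ hS0 h2 2
    _ = _ := by ring

end Pool.Agent.Lib_helper51.Flat
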