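import Pool.Agent.Lib_helper51.Flat.Sharp
import Pool.Agent.Lib_helper51.Flat.Comp

/-!
# Amplification to almost Boolean functions (MP_cf5f8b_an)
-/

set_option autoImplicit false
set_option linter.unusedSectionVars false

open Finset

namespace Pool.Agent.Lib_helper51.Flat

open Lib_helper30.AA Lib_helper8.QP Lib_helper12.CERT

variable {I : Type} [Fintype I] [DecidableEq I]

/-- A lower bound for the tail. -/
lemma tail {s : (I → Bool) → ℝ} (h1 : av s = 0) (h2 : 1 ≤ av (fun x => s x ^ 2))
    (h2' : av (fun x => s x ^ 2) ≤ 2)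
    (h4 : av (fun x => s x ^ 4) ≤ 10 * av (fun x => s x ^ 2)) :
    1 / 200 ≤ av (fun x => if 1 / 20 < s x then (1 : ℝ) else 0) := by
  have hpt : ∀ x, 9 / 20 * s x ^ 2 - 27 / 2000 * s x ^ 4 ≤ |s x| := by
    intro x
    set u := |s x| with hu
    have hu0 : 0 ≤ u := abs_nonneg _
    have e1 : s x ^ 2 = u ^ 2 := (sq_abs _).symm
    have e2 : s x ^ 4 = u ^ 4 := by
      rw [show (4 : ℕ) = 2 * 2 by norm_num, pow_mul, pow_mul, e1]
    rw [e1, e2]
    have h : 0 ≤ u * ((u - 10 / 3) ^ 2 * (27 / 2000 * (u + 20 / 3))) := by positivity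
    nlinarith
  have h5 : 315 / 1000 ≤ av (fun x => |s x|) := by
    have h6 := av_mono hpt
    rw [av_sub, av_mul_left, av_mul_left] at h6
    linarith
  have hpt2 : ∀ x, (|s x| + s x) / 2 ≤
      (1 / 20 + 1 / 40 * s x ^ 2) + 10 * (if 1 / 20 < s x then (1 : ℝ) else 0) := by
    intro x
    split_ifs with h
    · rw [abs_of_pos (by linarith)]
      nlinarith [sq_nonneg (s x - 20)]
    · have h6 := sq_nonneg (s x)
      rcases le_total 0 (s x) with h7 | h7
      · rw [abs_of_nonneg h7]
        linarith
      · rw [abs_of_nonpos h7]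
        linarith
  have h7 := av_mono hpt2
  have h8 : av (fun x => (|s x| + s x) / 2) = av (fun x => |s x|) / 2 := by
    have : ∀ x, (|s x| + s x) / 2 = 1 / 2 * |s x| + 1 / 2 * s x := fun x => by ring
    simp_rw [this]
    rw [av_add, av_mul_left, av_mul_left]
    rw [show av (fun x => s x) = 0 from h1]
    ring
  rw [h8, av_add, av_add, av_const, av_mul_left, av_mul_left] at h7
  linarith

/-- The choice of the threshold. -/
lemma threshold (s : (I → Bool) → ℝ) {M : ℕ} (hM : 1 ≤ M) :
    ∃ t : ℝ, -(1 / 20) ≤ t - 1 / (20 * M) ∧ t + 1 / (20 * M) ≤ 1 / 20 ∧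
      av (fun x => if |s x - t| < 1 / (20 * M) then (1 : ℝ) else 0) ≤ 1 / M := by
  have hM' : (1 : ℝ) ≤ M := by exact_mod_cast hM
  let t : ℕ → ℝ := fun i => -(1 / 20) + (2 * i + 1) / (20 * M)
  have hsum : ∑ i ∈ range M, av (fun x => if |s x - t i| < 1 / (20 * M) then (1 : ℝ) else 0) ≤
      1 := by
    rw [← av_sum]
    refine av_le_const fun x => ?_
    rw [← Finset.sum_filter, Finset.sum_const, nsmul_eq_mul, mul_one]
    have h : ((range M).filter fun i => |s x - t i| < 1 / (20 * M)).card ≤ 1 := by
      rw [Finset.card_le_one]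
      intro i hi j hj
      rw [Finset.mem_filter] at hi hj
      have h1 := abs_lt.1 hi.2
      have h2 := abs_lt.1 hj.2
      have h3 : |(i : ℝ) - j| < 1 := by
        have h4 : t i - t j = ((i : ℝ) - j) * (2 * (1 / (20 * M))) := by
          simp only [t]
          field_simp
          ring
        have h5 : |t i - t j| < 2 * (1 / (20 * M)) := by
          rw [abs_lt]
          constructor <;> linarith
        rw [h4, abs_mul, abs_of_pos (show (0 : ℝ) < 2 * (1 / (20 * M)) by positivity)] at h5
        have h6 : (0 : ℝ) < 2 * (1 / (20 * M)) := by positivity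
        nlinarith
      have h4 : |(i : ℤ) - j| < 1 := by exact_mod_cast h3
      rw [Int.abs_lt_one_iff] at h4
      omega
    exact_mod_cast h
  have hex : ∃ i ∈ range M, av (fun x => if |s x - t i| < 1 / (20 * M) then (1 : ℝ) else 0) ≤
      1 / M := by
    by_contra hcon
    push Not at hcon
    have h1 := Finset.sum_lt_sum_of_nonempty (s := range M) ⟨0, by simp; omega⟩ hcon
    rw [Finset.sum_const, Finset.card_range, nsmul_eq_mul, mul_one_div_cancel (by positivity)] at h1
    linarith
  obtain ⟨i, hi, h⟩ := hex
  rw [Finset.mem_range] at hi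
  have hi' : (i : ℝ) + 1 ≤ M := by exact_mod_cast hi
  refine ⟨t i, ?_, ?_, h⟩
  · have h1 : t i - 1 / (20 * M) = -(1 / 20) + i / (10 * M) := by
      simp only [t]
      field_simp
      ring
    rw [h1]
    have : 0 ≤ (i : ℝ) / (10 * M) := by positivity
    linarith
  · have h1 : t i + 1 / (20 * M) = -(1 / 20) + (i + 1) / (10 * M) := by
      simp only [t]
      field_simp
      ring
    rw [h1]
    have : ((i : ℝ) + 1) / (10 * M) ≤ 1 / 10 := by
      rw [div_le_div_iff₀ (by positivity) (by norm_num)]
      linarith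
    linarith

/-- **First amplification**: almost Boolean, with mean bounded away from `±1`. -/
theorem amplify1 {f : (I → Bool) → ℝ} (hf : ∀ x, |f x| ≤ 1) {d : ℕ}
    (hd : LowDeg d f) (hV : 0 < vr f) {M : ℕ} (hM : 2 ≤ M) :
    ∃ N : ℕ, 1 ≤ N ∧ (N : ℝ) * vr f ≤ 2 ∧ ∃ F : (Fin N × I → Bool) → ℝ, (∀ x, |F x| ≤ 1) ∧
      LowDeg (7200 * M ^ 3 * N ^ 2 * d) F ∧ 1 - 3 / (M : ℝ) ≤ av (fun x => F x ^ 2) ∧
      |av F| ≤ 199 / 200 ∧ ∀ j, w F j ≤ ((7200 * M ^ 3 * N ^ 2 : ℕ) : ℝ) ^ 2 * w f j.2 := by
  set V := vr f with hVdef
  have hV1 : V ≤ 1 := vr_le_one' hf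
  set N : ℕ := ⌈1 / V⌉₊ with hN
  have hNV1 : 1 ≤ (N : ℝ) * V := by
    have := Nat.le_ceil (1 / V)
    rw [← hN, div_le_iff₀ hV] at this
    exact this
  have hNV2 : (N : ℝ) * V ≤ 2 := by
    have := (Nat.ceil_lt_add_one (by positivity : 0 ≤ 1 / V)).le
    rw [← hN] at this
    have h2 := mul_le_mul_of_nonneg_right this hV.le
    have h3 : (1 / V + 1) * V = 1 + V := by
      field_simp
    linarith
  have hN1 : 1 ≤ N := by
    rw [Nat.one_le_iff_ne_zero]
    intro h
    rw [h] at hNV1
    norm_num at hNV1
  have hN' : (1 : ℝ) ≤ N := by exact_mod_cast hN1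
  have hM' : (2 : ℝ) ≤ M := by exact_mod_cast hM
  -- the centred function
  set h : (I → Bool) → ℝ := fun x => f x - av f with hh
  have hav : |av f| ≤ 1 := (abs_av_le f).trans (av_le_const hf)
  have hb : ∀ x, |h x| ≤ 2 := fun x => by
    have := abs_sub (f x) (av f)
    rw [hh]
    dsimp only
    linarith [hf x]
  have hm1 : av h = 0 := by
    rw [hh, av_sub, av_const]
    ring
  have hm2 : av (fun x => h x ^ 2) = V := vr_eq' f
  have hm4 : av (fun x => h x ^ 4) ≤ 4 * V := by
    rw [← hm2, ← av_mul_left]
    refine av_mono fun x => ?_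
    have h1 : h x ^ 2 ≤ 4 := by
      have := pow_le_pow_left₀ (abs_nonneg _) (hb x) 2
      rw [sq_abs] at this
      linarith
    nlinarith [sq_nonneg (h x)]
  obtain ⟨M1, M2, M4⟩ := moments hm1 hm2 hm4 (univ : Finset (Fin N))
  rw [Finset.card_univ, Fintype.card_fin] at M2 M4
  have hhd : LowDeg d h := by
    have h1 := lowDeg_add hd (lowDeg_mono (Nat.zero_le d) (lowDeg_const (I := I) (- av f)))
    exact h1
  set s : (Fin N × I → Bool) → ℝ := sS h univ with hs
  have hsb : ∀ x, |s x| ≤ 2 * N := by
    intro x
    calc |s x| ≤ ∑ i : Fin N, |h (rs (em i) x)| := Finset.abs_sum_le_sum_abs _ _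
      _ ≤ ∑ _i : Fin N, (2 : ℝ) := Finset.sum_le_sum fun i _ => hb _
      _ = 2 * N := by
          rw [Finset.sum_const, Finset.card_univ, Fintype.card_fin, nsmul_eq_mul, mul_comm]
  have hsd : LowDeg d s := lowDeg_sum _ fun i _ => lowDeg_pull_em hhd i
  have M4' : av (fun x => s x ^ 4) ≤ 10 * av (fun x => s x ^ 2) := by
    rw [M2]
    refine M4.trans ?_
    have h1 : ((N : ℝ) * V) ^ 2 ≤ 2 * (N * V) := by nlinarith
    nlinarith
  have htail1 := tail M1 (by rw [M2]; exact hNV1) (by rw [M2]; exact hNV2) M4'
  have htail2 : 1 / 200 ≤ av (fun x => if s x < -(1 / 20) then (1 : ℝ) else 0) := by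
    have h1 := tail (s := fun x => - s x) (by rw [av_neg]; rw [M1]; norm_num)
      (by simp only [neg_sq]; rw [M2]; exact hNV1) (by simp only [neg_sq]; rw [M2]; exact hNV2)
      (by
        have h2 : ∀ x, (- s x) ^ 4 = s x ^ 4 := fun x => by ring
        simp only [h2, neg_sq]
        exact M4')
    refine h1.trans (le_of_eq ?_)
    congr 1
    funext x
    have h2 : (1 / 20 < - s x) ↔ (s x < -(1 / 20)) := by
      constructor <;> intro h <;> linarith
    simp only [h2]
  obtain ⟨t, ht1, ht2, ht3⟩ := threshold s (show 1 ≤ M by omega)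
  set k : ℕ := 7200 * M ^ 3 * N ^ 2 with hk
  have hk1 : 1 ≤ k := Nat.one_le_iff_ne_zero.2 (by
    rw [hk]
    have : M ≠ 0 := by omega
    have : N ≠ 0 := by omega
    positivity)
  have hk' : (1 : ℝ) ≤ k := by exact_mod_cast hk1
  set b : (Fin N × I → Bool) → ℝ := fun x => (s x - t) / (3 * N) with hbdef
  have hw0 : (0 : ℝ) < 1 / (20 * M) := by positivity
  have htabs : |t| ≤ 1 / 20 := abs_le.2 ⟨by linarith, by linarith⟩
  have hbb : ∀ x, |b x| ≤ 1 := by
    intro x
    rw [hbdef]
    dsimp only
    rw [abs_div, abs_of_pos (by linarith : (0 : ℝ) < 3 * N), div_le_one (by linarith)]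
    have h1 := abs_sub (s x) t
    linarith [hsb x]
  -- far from the threshold
  have hfar : ∀ x, 1 / (20 * M) ≤ |s x - t| →
      |(MajP k).eval (b x) - (b x / |b x|)| ≤ 1 / M := by
    intro x hx
    have h1 : 1 / (60 * (M : ℝ) * N) ≤ |b x| := by
      rw [hbdef]
      dsimp only
      rw [abs_div, abs_of_pos (by linarith : (0 : ℝ) < 3 * N), le_div_iff₀ (by linarith)]
      refine le_trans (le_of_eq ?_) hx
      field_simp
      norm_num
    have hb0 : b x ≠ 0 := by
      intro h2
      rw [h2, abs_zero] at h1
      have : (0 : ℝ) < 1 / (60 * (M : ℝ) * N) := by positivity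
      linarith
    refine (MajP_sharp hk1 (hbb x) hb0).trans ?_
    have h2 : (1 / (60 * (M : ℝ) * N)) ^ 2 ≤ b x ^ 2 := by
      rw [← sq_abs (b x)]
      exact pow_le_pow_left₀ (by positivity) h1 2
    have h3 : (2 : ℝ) * M ≤ k * b x ^ 2 := by
      calc (2 : ℝ) * M = k * (1 / (60 * (M : ℝ) * N)) ^ 2 := by
            rw [hk]
            push_cast
            field_simp
            norm_num
        _ ≤ k * b x ^ 2 := mul_le_mul_of_nonneg_left h2 (by positivity)
    rw [div_le_div_iff₀ (by positivity) (by positivity)]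
    linarith
  have hM1 : 1 / (M : ℝ) ≤ 1 / 2 := by
    rw [div_le_div_iff₀ (by positivity) (by norm_num)]
    linarith
  have hM0 : 0 < 1 / (M : ℝ) := by positivity
  refine ⟨N, hN1, hNV2, fun x => (MajP k).eval (b x), fun x => MajP_abs k (hbb x), ?_, ?_, ?_, ?_⟩
  · have h1 : LowDeg d b := by
      have h2 := lowDeg_add (lowDeg_const_mul (3 * (N : ℝ))⁻¹ hsd)
        (lowDeg_mono (Nat.zero_le d) (lowDeg_const (I := Fin N × I) (-(t / (3 * N)))))
      have h3 : (fun x => (3 * (N : ℝ))⁻¹ * s x + -(t / (3 * N))) = b := by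
        funext x
        rw [hbdef]
        dsimp only
        field_simp
        ring
      rwa [h3] at h2
    exact lowDeg_poly h1 (MajP_natDegree k)
  · -- almost Boolean
    have hpt : ∀ x, (1 - 2 / (M : ℝ)) - (if |s x - t| < 1 / (20 * M) then (1 : ℝ) else 0) ≤
        (MajP k).eval (b x) ^ 2 := by
      intro x
      split_ifs with hx
      · have h1 : 0 < 2 / (M : ℝ) := by positivity
        nlinarith [sq_nonneg ((MajP k).eval (b x))]
      · have h1 := hfar x (not_lt.1 hx)
        have hb0 : b x ≠ 0 := by
          intro h2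
          have h3 : s x - t = 0 := by
            rw [hbdef] at h2
            dsimp only at h2
            rw [div_eq_zero_iff] at h2
            rcases h2 with h2 | h2
            · exact h2
            · linarith
          rw [h3, abs_zero] at hx
          exact hx hw0
        have h2 : |(b x / |b x|)| = 1 := by
          rw [abs_div, abs_abs, div_self (abs_ne_zero.2 hb0)]
        have h3 : 1 - 1 / (M : ℝ) ≤ |(MajP k).eval (b x)| := by
          have h4 := abs_sub_abs_le_abs_sub (b x / |b x|) ((MajP k).eval (b x))
          rw [abs_sub_comm] at h4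
          linarith
        have h4 := pow_le_pow_left₀ (by linarith) h3 2
        rw [sq_abs] at h4
        have h5 : (1 - 1 / (M : ℝ)) ^ 2 = 1 - 2 / M + (1 / M) ^ 2 := by
          field_simp
          ring
        have h6 := sq_nonneg (1 / (M : ℝ))
        linarith
    have h1 := av_mono hpt
    rw [av_sub, av_const] at h1
    have h2 : 3 / (M : ℝ) = 2 / M + 1 / M := by ring
    linarith
  · -- the mean
    rw [abs_le]
    constructor
    · have hpt : ∀ x, (-1 : ℝ) + (if 1 / 20 < s x then (1 : ℝ) else 0) ≤
          (MajP k).eval (b x) := by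
        intro x
        split_ifs with hx
        · have h0 : 1 / (20 * M) ≤ s x - t := by linarith
          have h1 := hfar x (h0.trans (le_abs_self _))
          have hbpos : 0 < b x := by
            rw [hbdef]
            dsimp only
            have : 0 < s x - t := by linarith
            positivity
          rw [abs_of_pos hbpos, div_self hbpos.ne'] at h1
          have h2 := (abs_le.1 h1).1
          linarith
        · have h1 := (abs_le.1 (MajP_abs k (hbb x))).1
          linarith
      have h1 := av_mono hpt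
      rw [av_add, av_const] at h1
      linarith
    · have hpt : ∀ x, (MajP k).eval (b x) ≤
          (1 : ℝ) - (if s x < -(1 / 20) then (1 : ℝ) else 0) := by
        intro x
        split_ifs with hx
        · have h0 : 1 / (20 * M) ≤ t - s x := by linarith
          have h1 := hfar x (by
            rw [abs_sub_comm]
            exact h0.trans (le_abs_self _))
          have hbneg : b x < 0 := by
            rw [hbdef]
            dsimp only
            have : s x - t < 0 := by linarith
            exact div_neg_of_neg_of_pos this (by linarith)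
          rw [abs_of_neg hbneg, div_neg, div_self hbneg.ne] at h1
          have h2 := (abs_le.1 h1).2
          linarith
        · have h1 := (abs_le.1 (MajP_abs k (hbb x))).2
          linarith
      have h1 := av_mono hpt
      rw [av_sub, av_const] at h1
      linarith
  · rintro ⟨i, a⟩
    have h1 : ∀ x : Fin N × I → Bool, |D (i, a) (fun x => (MajP k).eval (b x)) x| ≤
        (k : ℝ) ^ 2 * |D a f (rs (em i) x)| := by
      intro x
      have h2 : ∀ c, s (Function.update x (i, a) c) =
          f (Function.update (rs (em i) x) a c) - av f + ∑ l ∈ univ.erase i, h (rs (em l) x) := by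
        intro c
        rw [hs]
        unfold sS
        rw [← Finset.add_sum_erase univ _ (Finset.mem_univ i)]
        congr 1
        · rw [hh]
          dsimp only
          have : (i, a) = (em i : I ↪ Fin N × I) a := rfl
          rw [this, rs_update]
        · refine Finset.sum_congr rfl fun l hl => ?_
          congr 1
          funext c'
          unfold rs
          rw [Function.update_of_ne]
          intro h3
          exact Finset.ne_of_mem_erase hl (Prod.mk.inj h3).1
      unfold D
      rw [abs_div, abs_div, ← mul_div_assoc]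
      refine div_le_div_of_nonneg_right ?_ (abs_nonneg _)
      refine (MajP_lip k (hbb _) (hbb _)).trans ?_
      have h3 : b (Function.update x (i, a) false) - b (Function.update x (i, a) true) =
          (f (Function.update (rs (em i) x) a false) -
            f (Function.update (rs (em i) x) a true)) / (3 * N) := by
        rw [hbdef]
        dsimp only
        rw [h2, h2]
        field_simp
        ring
      rw [h3, abs_div, abs_of_pos (by linarith : (0 : ℝ) < 3 * N), ← mul_div_assoc,
        div_le_iff₀ (by linarith)]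
      have h4 : 0 ≤ (k : ℝ) ^ 2 * |f (Function.update (rs (em i) x) a false) -
            f (Function.update (rs (em i) x) a true)| := by positivity
      nlinarith
    unfold w
    refine (av_mono h1).trans (le_of_eq ?_)
    rw [av_mul_left]
    congr 1
    exact av_pull (em i) (fun x => |D a f x|)

end Pool.Agent.Lib_helper51.Flat
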