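import Pool.Agent.Lib_helper51.Flat.Copies
import Pool.Agent.Lib_helper8.QP.EvBasic

/-!
# The majority polynomial (MP_cf5f8b_an)
-/

set_option autoImplicit false
set_option linter.unusedSectionVars false

open Finset Polynomial

namespace Pool.Agent.Lib_helper51.Flat

open Lib_helper30.AA Lib_helper8.QP Lib_helper12.CERT

/-- The majority function. -/
noncomputable def maj (k : ℕ) (y : Fin k → Bool) : ℝ := if 0 ≤ ∑ i, sg (y i) then 1 else -1

lemma maj_abs {k : ℕ} (y : Fin k → Bool) : |maj k y| ≤ 1 := by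
  unfold maj
  split_ifs <;> simp

/-- The majority polynomial. -/
noncomputable def MajP (k : ℕ) : ℝ[X] := ∑ S : Finset (Fin k), C (coef (maj k) S) * X ^ S.card

lemma MajP_eval (k : ℕ) (b : ℝ) : (MajP k).eval b = ev (fun _ => b) (maj k) := by
  unfold MajP
  rw [ev_eq_sum, eval_finsetSum]
  refine Finset.sum_congr rfl fun S _ => ?_
  rw [eval_mul, eval_C, eval_pow, eval_X, Finset.prod_const]

lemma MajP_natDegree (k : ℕ) : (MajP k).natDegree ≤ k := by
  refine natDegree_sum_le_of_forall_le _ _ fun S _ => ?_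
  refine (natDegree_C_mul_X_pow_le _ _).trans ?_
  have := Finset.card_le_univ S
  rwa [Fintype.card_fin] at this

lemma MajP_abs (k : ℕ) {b : ℝ} (hb : |b| ≤ 1) : |(MajP k).eval b| ≤ 1 := by
  rw [MajP_eval]
  rw [abs_le]
  constructor
  · have h1 := ev_mono (b := fun _ : Fin k => b) (fun _ => hb) (g := fun _ => (-1 : ℝ))
      (h := maj k) fun y => (abs_le.1 (maj_abs y)).1
    rwa [ev_const] at h1
  · exact ev_le_one (fun _ => hb) fun y => (abs_le.1 (maj_abs y)).2

lemma MajP_lip (k : ℕ) {b c : ℝ} (hb : |b| ≤ 1) (hc : |c| ≤ 1) :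
    |(MajP k).eval b - (MajP k).eval c| ≤ 2 * (k : ℝ) ^ 2 * |b - c| := by
  set Q : ℝ[X] := (MajP k).comp (C 2 * X - C 1) with hQ
  have hQe : ∀ t, Q.eval t = (MajP k).eval (2 * t - 1) := by
    intro t
    rw [hQ, eval_comp]
    simp
  have hQd : Q.natDegree ≤ k := by
    rw [hQ, natDegree_comp]
    have h1 : (C 2 * X - C 1 : ℝ[X]).natDegree ≤ 1 := by
      rw [natDegree_sub_C]
      exact (natDegree_C_mul_le _ _).trans natDegree_X_le
    calc (MajP k).natDegree * (C 2 * X - C 1 : ℝ[X]).natDegree ≤ k * 1 :=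
          Nat.mul_le_mul (MajP_natDegree k) h1
      _ = k := mul_one k
  have h := markov_lipschitz hQd (U := 1) (B := 1) one_pos one_pos
    (fun t ht => by
      rw [hQe]
      refine MajP_abs k (abs_le.2 ⟨?_, ?_⟩)
      · linarith [ht.1]
      · linarith [ht.2]) (s := (c + 1) / 2) (t := (b + 1) / 2)
    ⟨by linarith [(abs_le.1 hc).1], by linarith [(abs_le.1 hc).2]⟩
    ⟨by linarith [(abs_le.1 hb).1], by linarith [(abs_le.1 hb).2]⟩
  rw [hQe, hQe] at h
  rw [show 2 * ((b + 1) / 2) - 1 = b by ring, show 2 * ((c + 1) / 2) - 1 = c by ring,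
    show (b + 1) / 2 - (c + 1) / 2 = (b - c) / 2 by ring, abs_div,
    abs_of_pos (by norm_num : (0 : ℝ) < 2)] at h
  refine h.trans (le_of_eq ?_)
  ring

lemma ev_sum_sg {k : ℕ} (b : ℝ) :
    ev (fun _ : Fin k => b) (fun y => ∑ i, sg (y i)) = k * b := by
  rw [ev_sum]
  have h : ∀ i : Fin k, ev (fun _ : Fin k => b) (fun y => sg (y i)) = b := by
    intro i
    have h1 := ev_chi (fun _ : Fin k => b) {i}
    rw [Finset.prod_singleton] at h1
    refine Eq.trans ?_ h1
    congr 1
    funext y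
    rw [chi_singleton]
  simp_rw [h]
  rw [Finset.sum_const, Finset.card_univ, Fintype.card_fin, nsmul_eq_mul]

lemma ev_sum_sg_sq {k : ℕ} (b : ℝ) :
    ev (fun _ : Fin k => b) (fun y => (∑ i, sg (y i)) ^ 2) = k * (1 + (k - 1) * b ^ 2) := by
  have h1 : ∀ y : Fin k → Bool, (∑ i, sg (y i)) ^ 2 = ∑ i, ∑ j, sg (y i) * sg (y j) := by
    intro y
    rw [sq, Finset.sum_mul_sum]
  simp_rw [h1]
  rw [ev_sum]
  have h2 : ∀ i : Fin k, ev (fun _ : Fin k => b) (fun y => ∑ j, sg (y i) * sg (y j)) =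
      1 + (k - 1) * b ^ 2 := by
    intro i
    rw [ev_sum]
    have h3 : ∀ j : Fin k, ev (fun _ : Fin k => b) (fun y => sg (y i) * sg (y j)) =
        if j = i then 1 else b ^ 2 := by
      intro j
      split_ifs with h
      · subst h
        simp_rw [sg_mul_self]
        exact ev_const _ 1
      · have h4 := ev_chi (fun _ : Fin k => b) {i, j}
        rw [Finset.prod_pair (Ne.symm h)] at h4
        rw [sq, ← h4]
        congr 1
        funext y
        rw [chi_eq, Finset.prod_pair (Ne.symm h)]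
    simp_rw [h3]
    rw [← Finset.add_sum_erase univ _ (Finset.mem_univ i), if_pos rfl]
    have h5 : ∑ j ∈ univ.erase i, (if j = i then (1 : ℝ) else b ^ 2) =
        ∑ _j ∈ univ.erase i, b ^ 2 :=
      Finset.sum_congr rfl fun j hj => by rw [if_neg (Finset.ne_of_mem_erase hj)]
    rw [h5, Finset.sum_const, Finset.card_erase_of_mem (Finset.mem_univ i), Finset.card_univ,
      Fintype.card_fin, nsmul_eq_mul]
    have hk : 1 ≤ k := by
      have := i.2
      omega
    rw [Nat.cast_sub hk]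
    push_cast
    ring
  simp_rw [h2]
  rw [Finset.sum_const, Finset.card_univ, Fintype.card_fin, nsmul_eq_mul]

lemma ev_dev {k : ℕ} (b : ℝ) :
    ev (fun _ : Fin k => b) (fun y => (∑ i, sg (y i) - k * b) ^ 2) = k * (1 - b ^ 2) := by
  have h1 : ∀ y : Fin k → Bool, (∑ i, sg (y i) - k * b) ^ 2 =
      ((∑ i, sg (y i)) ^ 2 - 2 * (k * b) * (∑ i, sg (y i))) + (k * b) ^ 2 := fun y => by ring
  simp_rw [h1]
  rw [ev_add, ev_sub, ev_const_mul, ev_const, ev_sum_sg_sq, ev_sum_sg]
  ring

lemma maj_dev {k : ℕ} (hk : 1 ≤ k) {b : ℝ} (hb0 : b ≠ 0) (y : Fin k → Bool) :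
    |maj k y - (b / |b|)| ≤ 2 / (k * b) ^ 2 * (∑ i, sg (y i) - k * b) ^ 2 := by
  have hk' : (1 : ℝ) ≤ k := by exact_mod_cast hk
  have hkb : 0 < ((k : ℝ) * b) ^ 2 := by positivity
  set s := ∑ i, sg (y i) with hs
  rw [div_mul_eq_mul_div, le_div_iff₀ hkb]
  rcases lt_or_gt_of_ne hb0 with h | h
  · rw [abs_of_neg h, div_neg, div_self hb0]
    unfold maj
    split_ifs with h2
    · have h3 : (k : ℝ) * b < 0 := by nlinarith
      norm_num
      nlinarith
    · norm_num
      positivity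
  · rw [abs_of_pos h, div_self hb0]
    unfold maj
    split_ifs with h2
    · norm_num
      positivity
    · rw [← hs] at h2
      have h3 : 0 < (k : ℝ) * b := by positivity
      norm_num
      nlinarith

/-- The majority polynomial is close to the sign. -/
lemma MajP_sharp {k : ℕ} (hk : 1 ≤ k) {b : ℝ} (hb : |b| ≤ 1) (hb0 : b ≠ 0) :
    |(MajP k).eval b - (b / |b|)| ≤ 2 / (k * b ^ 2) := by
  have hk' : (1 : ℝ) ≤ k := by exact_mod_cast hk
  rw [MajP_eval]
  have h1 : ev (fun _ : Fin k => b) (maj k) - b / |b| =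
      ev (fun _ : Fin k => b) (fun y => maj k y - b / |b|) := by
    rw [ev_sub, ev_const]
  have h2 : |ev (fun _ : Fin k => b) (fun y => maj k y - (b / |b|))| ≤
      ev (fun _ : Fin k => b) (fun y => |maj k y - (b / |b|)|) := by
    rw [abs_le]
    constructor
    · have h3 := ev_mono (b := fun _ : Fin k => b) (fun _ => hb)
        (g := fun y => (-1) * |maj k y - (b / |b|)|) (h := fun y => maj k y - b / |b|) fun y => by
          linarith [neg_abs_le (maj k y - b / |b|)]
      rw [ev_const_mul] at h3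
      linarith
    · exact ev_mono (fun _ => hb) fun y => le_abs_self _
  rw [h1]
  refine h2.trans ?_
  have h3 := ev_mono (b := fun _ : Fin k => b) (fun _ => hb) fun y => maj_dev hk hb0 y
  rw [ev_const_mul, ev_dev] at h3
  refine h3.trans ?_
  rw [div_mul_eq_mul_div, div_le_div_iff₀ (by positivity) (by positivity)]
  have h4 : 0 ≤ (k : ℝ) ^ 2 * b ^ 4 := by positivity
  nlinarith

end Pool.Agent.Lib_helper51.Flat
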