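import Pool.Agent.Lib_helper51.Flat.Flatten

/-!
# Functions of fewer variables (MP_cf5f8b_an)
-/

set_option autoImplicit false
set_option linter.unusedSectionVars false

open Finset

namespace Pool.Agent.Lib_helper51.Flat

open Lib_helper30.AA Lib_helper8.QP Lib_helper12.CERT

variable {I J : Type} [Fintype I] [DecidableEq I] [Fintype J] [DecidableEq J]

/-- The coordinates in the range of `e`. -/
def rs (e : J ↪ I) (x : I → Bool) : J → Bool := fun a => x (e a)

/-- `G` as a function of more variables. -/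
def pull (e : J ↪ I) (G : (J → Bool) → ℝ) : (I → Bool) → ℝ := fun x => G (rs e x)

lemma chi_rs (e : J ↪ I) (T : Finset J) (x : I → Bool) : chi T (rs e x) = chi (T.map e) x := by
  rw [chi_eq, chi_eq, Finset.prod_map]
  rfl

lemma av_chi (S : Finset I) : av (chi S) = if S = ∅ then 1 else 0 := by
  split_ifs with h
  · subst h
    have : chi (∅ : Finset I) = fun _ => 1 := by
      funext x
      rw [chi_eq, Finset.prod_empty]
    rw [this, av_const]
  · obtain ⟨i, hi⟩ := Finset.nonempty_iff_ne_empty.2 h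
    refine av_odd i fun x => ?_
    rw [chi_flip_of_mem hi]

lemma av_pull (e : J ↪ I) (G : (J → Bool) → ℝ) : av (pull e G) = av G := by
  have h1 : ∀ x, pull e G x = ∑ T : Finset J, coef G T * chi (T.map e) x := by
    intro x
    unfold pull
    rw [inversion G (rs e x)]
    exact Finset.sum_congr rfl fun T _ => by rw [chi_rs]
  have h2 : av (pull e G) = av fun x => ∑ T : Finset J, coef G T * chi (T.map e) x := by
    congr 1
    funext x
    exact h1 x
  rw [h2, av_sum]
  have h3 : ∀ T : Finset J, av (fun x => coef G T * chi (T.map e) x) =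
      if T = ∅ then coef G T else 0 := by
    intro T
    rw [av_mul_left]
    have := av_chi (T.map e)
    rw [this]
    by_cases h : T = ∅ <;> simp [h]
  simp_rw [h3]
  rw [Finset.sum_ite_eq' univ ∅ fun T => coef G T, if_pos (Finset.mem_univ _), coef_eq_av]
  congr 1
  funext x
  rw [chi_eq, Finset.prod_empty, mul_one]

lemma coef_pull_map (e : J ↪ I) (G : (J → Bool) → ℝ) (T : Finset J) :
    coef (pull e G) (T.map e) = coef G T := by
  rw [coef_eq_av, coef_eq_av, ← av_pull e]
  congr 1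
  funext x
  unfold pull
  beta_reduce
  rw [chi_rs]

lemma rs_flip_range (e : J ↪ I) (a : J) (x : I → Bool) :
    rs e (Lib_helper30.AA.flip (e a) x) = Lib_helper30.AA.flip a (rs e x) := by
  funext b
  unfold rs Lib_helper30.AA.flip
  by_cases h : b = a
  · subst h
    simp
  · rw [Function.update_of_ne h, Function.update_of_ne fun h2 => h (e.injective h2)]

lemma rs_flip_of_notMem (e : J ↪ I) {i : I} (hi : ∀ a, e a ≠ i) (x : I → Bool) :
    rs e (Lib_helper30.AA.flip i x) = rs e x := by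
  funext b
  unfold rs Lib_helper30.AA.flip
  rw [Function.update_of_ne (hi b)]

lemma coef_pull_of_notMem (e : J ↪ I) (G : (J → Bool) → ℝ) {S : Finset I} {i : I} (hiS : i ∈ S)
    (hi : ∀ a, e a ≠ i) : coef (pull e G) S = 0 := by
  rw [coef_eq_av]
  refine av_odd i fun x => ?_
  unfold pull
  rw [rs_flip_of_notMem e hi, chi_flip_of_mem hiS]
  ring

lemma lowDeg_pull {d : ℕ} {e : J ↪ I} {G : (J → Bool) → ℝ} (h : LowDeg d G) :
    LowDeg d (pull e G) := by
  intro S hS
  by_cases hr : ∀ i ∈ S, ∃ a, e a = i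
  · obtain ⟨T, rfl⟩ : ∃ T : Finset J, T.map e = S := by
      refine ⟨univ.filter fun a => e a ∈ S, ?_⟩
      ext i
      simp only [Finset.mem_map, Finset.mem_filter, Finset.mem_univ, true_and]
      constructor
      · rintro ⟨a, ha, rfl⟩
        exact ha
      · intro hi
        obtain ⟨a, rfl⟩ := hr i hi
        exact ⟨a, hi, rfl⟩
    rw [Finset.card_map] at hS
    rw [coef_pull_map, h T hS]
  · push Not at hr
    obtain ⟨i, hi, hne⟩ := hr
    exact coef_pull_of_notMem e G hi hne

lemma lowDeg_of_pull {d : ℕ} {e : J ↪ I} {G : (J → Bool) → ℝ} (h : LowDeg d (pull e G)) :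
    LowDeg d G := by
  intro T hT
  rw [← coef_pull_map e]
  exact h _ (by rw [Finset.card_map]; exact hT)

lemma vr_pull (e : J ↪ I) (G : (J → Bool) → ℝ) : vr (pull e G) = vr G := by
  unfold vr
  rw [av_pull e G, ← av_pull e (fun x => G x ^ 2)]
  rfl

lemma wt_pull (e : J ↪ I) (G : (J → Bool) → ℝ) (a : J) : wt (pull e G) (e a) = wt G a := by
  rw [wt_eq, wt_eq, ← av_pull e]
  congr 1
  funext x
  unfold pull
  rw [rs_flip_range]

lemma rs_update (e : J ↪ I) (a : J) (b : Bool) (x : I → Bool) :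
    rs e (Function.update x (e a) b) = Function.update (rs e x) a b := by
  funext c
  unfold rs
  by_cases h : c = a
  · subst h
    simp
  · rw [Function.update_of_ne h, Function.update_of_ne fun h2 => h (e.injective h2)]

lemma w_pull (e : J ↪ I) (G : (J → Bool) → ℝ) (a : J) : w (pull e G) (e a) = w G a := by
  unfold w
  rw [← av_pull e]
  congr 1
  funext x
  unfold pull D
  beta_reduce
  rw [rs_update, rs_update]

lemma rs_flipSet (e : J ↪ I) (B : Finset J) (x : I → Bool) :
    rs e (flipSet (B.map e) x) = flipSet B (rs e x) := by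
  funext a
  unfold rs flipSet
  simp only [Finset.mem_map']

lemma Osc_pull_ge (e : J ↪ I) (G : (J → Bool) → ℝ) (T : Finset J) :
    Osc G T ≤ Osc (pull e G) (T.map e) := by
  unfold Osc
  rw [← av_pull e]
  refine av_mono fun x => ?_
  obtain ⟨B, hB, h⟩ := exists_osc G T (rs e x)
  have h1 : pull e (osc G T) x = |pull e G (flipSet (B.map e) x) - pull e G x| := by
    unfold pull
    rw [h, rs_flipSet]
  rw [h1]
  exact le_osc (Finset.map_subset_map.2 hB) x

lemma eq_of_agree {g : (I → Bool) → ℝ} {S : Finset I} (h : ∀ j, j ∉ S → wt g j = 0)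
    {x y : I → Bool} (hxy : ∀ i ∈ S, x i = y i) : g x = g y := by
  rw [inversion g x, inversion g y]
  refine Finset.sum_congr rfl fun T _ => ?_
  by_cases hT : T ⊆ S
  · rw [chi_eq, chi_eq]
    congr 1
    exact Finset.prod_congr rfl fun i hi => by rw [hxy i (hT hi)]
  · rw [Finset.not_subset] at hT
    obtain ⟨j, hj, hjS⟩ := hT
    have h1 : coef g T ^ 2 = 0 := by
      have h2 := h j hjS
      unfold wt at h2
      rw [Finset.sum_eq_zero_iff_of_nonneg fun _ _ => sq_nonneg _] at h2
      exact h2 T (by rw [Finset.mem_filter]; exact ⟨Finset.mem_univ _, hj⟩)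
    rw [pow_eq_zero_iff (by norm_num)] at h1
    rw [h1, zero_mul, zero_mul]

/-- A function of the variables in `S` is a function on `Fin m`. -/
theorem compress {g : (I → Bool) → ℝ} {S : Finset I} (h : ∀ j, j ∉ S → wt g j = 0) :
    ∃ (e : Fin S.card ↪ I) (G : (Fin S.card → Bool) → ℝ), (∀ a, e a ∈ S) ∧ g = pull e G ∧
      ∀ y, ∃ x, G y = g x := by
  let e : Fin S.card ↪ I := S.equivFin.symm.toEmbedding.trans (Function.Embedding.subtype _)
  let ext : (Fin S.card → Bool) → (I → Bool) :=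
    fun y i => if hi : i ∈ S then y (S.equivFin ⟨i, hi⟩) else false
  refine ⟨e, fun y => g (ext y), fun a => (S.equivFin.symm a).2, ?_, fun y => ⟨_, rfl⟩⟩
  funext x
  unfold pull
  refine eq_of_agree h fun i hi => ?_
  simp only [ext, dif_pos hi, rs, e]
  simp

/-- **Effective flattening**, on `Fin m`. -/
theorem flatten_fin {f : (I → Bool) → ℝ} (hf : ∀ x, |f x| ≤ 1) {d : ℕ} (hd1 : 1 ≤ d)
    (hd : LowDeg d f) {θ lam : ℝ} (hθ : 0 < θ) (hlam : 0 < lam) (hw : ∀ j, w f j ≤ θ)
    (hV : 8 * lam ≤ vr f) (hsmall : 12 * (d : ℝ) ^ 2 * θ ≤ lam) :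
    ∃ (m : ℕ) (G : (Fin m → Bool) → ℝ), (∀ x, |G x| ≤ 1) ∧ LowDeg d G ∧
      vr f - 4 * lam ≤ vr G ∧
      vr f * lam ^ 2 / (408 * (d : ℝ) ^ 6 * θ) ≤ m ∧ (m : ℝ) ≤ 12 * (d : ℝ) ^ 2 / (lam * θ) ∧
      (∀ j, lam ^ 2 * θ / (12 * (d : ℝ) ^ 2) ≤ wt G j) ∧
      ∀ T : Finset (Fin m), Osc G T ≤ 1632 * (d : ℝ) ^ 8 / lam ^ 3 * θ * T.card := by
  obtain ⟨S, z, L, h1, h2, h3, h4, h6⟩ := flatten hf hd1 hd hθ hlam hw hV hsmall
  set g := gL (fun x => f (fill S z x)) L with hg
  have hgb : ∀ x, |g x| ≤ 1 := gL_bound (fun x => hf _) L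
  have hgd : LowDeg d g := lowDeg_gL (lowDeg_fill hd S z) L
  have hz : ∀ j, j ∉ (S ∪ L)ᶜ → wt g j = 0 := by
    intro j hj
    rw [Finset.mem_compl, not_not, Finset.mem_union] at hj
    have h7 : w g j = 0 := by
      rcases hj with hj | hj
      · refine le_antisymm ?_ (w_nonneg _ _)
        refine (w_gL_le _ L j).trans ?_
        rw [w_fill hj]
      · exact w_gL_mem _ hj
    have h8 := wt_le_w hgb j
    linarith [wt_nonneg g j]
  obtain ⟨e, G, he, hgG, hGx⟩ := compress hz
  refine ⟨_, G, ?_, ?_, ?_, h2, h3, ?_, ?_⟩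
  · intro y
    obtain ⟨x, hx⟩ := hGx y
    rw [hx]
    exact hgb x
  · rw [hgG] at hgd
    exact lowDeg_of_pull hgd
  · rw [hgG, vr_pull] at h1
    exact h1
  · intro j
    rw [← wt_pull e, ← hgG]
    refine h4 (e j) ?_
    have := he j
    rwa [Finset.mem_compl] at this
  · intro T
    refine (Osc_pull_ge e G T).trans ?_
    rw [← hgG]
    refine (h6 _).trans ?_
    rw [Finset.card_map]

end Pool.Agent.Lib_helper51.Flat
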