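import Pool.Agent.Lib_helper51.Flat.Grad

/-!
# Revealing the variables of small influence (MP_cf5f8b_an)
-/

set_option autoImplicit false
set_option linter.unusedSectionVars false

open Finset

namespace Pool.Agent.Lib_helper51.Flat

open Lib_helper30.AA Lib_helper8.QP Lib_helper12.CERT

variable {I : Type} [Fintype I] [DecidableEq I]

/-- The restriction `x i = b`. -/
def fx (i : I) (b : Bool) (f : (I → Bool) → ℝ) (x : I → Bool) : ℝ := f (Function.update x i b)

lemma av_fx (i : I) (f : (I → Bool) → ℝ) :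
    av f = (av (fx i false f) + av (fx i true f)) / 2 := by
  have h1 : ∀ x, f x + f (Lib_helper30.AA.flip i x) = fx i false f x + fx i true f x := by
    intro x
    unfold fx Lib_helper30.AA.flip
    cases h : x i
    · rw [show Function.update x i false = x by rw [← h, Function.update_eq_self]]
      simp
    · rw [show Function.update x i true = x by rw [← h, Function.update_eq_self]]
      simp only [Bool.not_true]
      ring
  have h2 := av_flip i f
  have h3 : av (fun x => f x + f (Lib_helper30.AA.flip i x)) =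
      av (fun x => fx i false f x + fx i true f x) := by
    congr 1
    funext x
    exact h1 x
  rw [av_add, av_add, h2] at h3
  linarith

lemma D_fx_ne {i j : I} (h : j ≠ i) (b : Bool) (f : (I → Bool) → ℝ) (x : I → Bool) :
    D j (fx i b f) x = fx i b (D j f) x := by
  unfold D fx
  rw [Function.update_comm h, Function.update_comm h]

lemma D_fx_self (i : I) (b : Bool) (f : (I → Bool) → ℝ) (x : I → Bool) :
    D i (fx i b f) x = 0 := by
  unfold D fx
  rw [Function.update_idem, Function.update_idem]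
  simp

lemma w_fx_self (i : I) (b : Bool) (f : (I → Bool) → ℝ) : w (fx i b f) i = 0 := by
  unfold w
  simp only [D_fx_self, abs_zero]
  exact av_const 0

lemma w_fx_ne {i j : I} (h : j ≠ i) (f : (I → Bool) → ℝ) :
    w f j = (w (fx i false f) j + w (fx i true f) j) / 2 := by
  unfold w
  rw [av_fx i]
  have h1 : ∀ b, fx i b (fun x => |D j f x|) = fun x => |D j (fx i b f) x| := by
    intro b
    funext x
    rw [D_fx_ne h]
    rfl
  rw [h1, h1]

lemma D_sub_fx {i j : I} (h : j ≠ i) (f : (I → Bool) → ℝ) (x : I → Bool) :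
    D j (fx i false f) x - D j (fx i true f) x = 2 * D j (D i f) x := by
  unfold D fx
  rw [Function.update_comm h, Function.update_comm h, Function.update_comm h,
    Function.update_comm h]
  ring

lemma w_fx_diff {i j : I} (h : j ≠ i) (f : (I → Bool) → ℝ) :
    |w (fx i false f) j - w (fx i true f) j| ≤ 2 * w (D i f) j := by
  unfold w
  rw [← av_sub, ← av_mul_left]
  refine (abs_av_le _).trans (av_mono fun x => ?_)
  refine (abs_abs_sub_abs_le _ _).trans ?_
  rw [D_sub_fx h, abs_mul, abs_of_nonneg (by norm_num : (0 : ℝ) ≤ 2)]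

/-- The energy. -/
noncomputable def Psi (f : (I → Bool) → ℝ) : ℝ := ∑ j, w f j ^ 2

/-- The total `L¹` influence. -/
noncomputable def Mass (f : (I → Bool) → ℝ) : ℝ := ∑ j, w f j

lemma Psi_nonneg (f : (I → Bool) → ℝ) : 0 ≤ Psi f := Finset.sum_nonneg fun _ _ => sq_nonneg _

lemma Mass_fx (i : I) (f : (I → Bool) → ℝ) :
    (Mass (fx i false f) + Mass (fx i true f)) / 2 = Mass f - w f i := by
  unfold Mass
  rw [← Finset.add_sum_erase univ (w (fx i false f)) (Finset.mem_univ i),
    ← Finset.add_sum_erase univ (w (fx i true f)) (Finset.mem_univ i),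
    ← Finset.add_sum_erase univ (w f) (Finset.mem_univ i), w_fx_self, w_fx_self]
  rw [Finset.sum_congr rfl fun j hj => w_fx_ne (Finset.ne_of_mem_erase hj) f,
    ← Finset.sum_div, Finset.sum_add_distrib]
  ring

lemma Psi_fx {d : ℕ} (i : I) {f : (I → Bool) → ℝ} (hd : LowDeg d f) :
    (Psi (fx i false f) + Psi (fx i true f)) / 2 ≤ Psi f + 16 * (d : ℝ) ^ 4 * w f i ^ 2 := by
  have h1 : ∀ j, (w (fx i false f) j ^ 2 + w (fx i true f) j ^ 2) / 2 ≤
      w f j ^ 2 + w (D i f) j ^ 2 := by
    intro j
    by_cases h : j = i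
    · subst h
      rw [w_fx_self, w_fx_self]
      have h2 : 0 ≤ w f j ^ 2 + w (D j f) j ^ 2 := by positivity
      linarith
    · rw [w_fx_ne h f]
      have h2 := w_fx_diff h f
      have h3 : (w (fx i false f) j - w (fx i true f) j) ^ 2 ≤ (2 * w (D i f) j) ^ 2 := by
        rw [← sq_abs]
        exact pow_le_pow_left₀ (abs_nonneg _) h2 2
      nlinarith
  have h2 : Psi (D i f) ≤ 16 * (d : ℝ) ^ 4 * w f i ^ 2 := energy (lowDeg_D hd i)
  calc (Psi (fx i false f) + Psi (fx i true f)) / 2
      = ∑ j, (w (fx i false f) j ^ 2 + w (fx i true f) j ^ 2) / 2 := by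
        unfold Psi
        rw [← Finset.sum_div, Finset.sum_add_distrib]
    _ ≤ ∑ j, (w f j ^ 2 + w (D i f) j ^ 2) := Finset.sum_le_sum fun j _ => h1 j
    _ = Psi f + Psi (D i f) := by
        unfold Psi
        rw [Finset.sum_add_distrib]
    _ ≤ _ := by linarith

lemma vr_fx (i : I) (f : (I → Bool) → ℝ) :
    vr f - w f i ^ 2 ≤ (vr (fx i false f) + vr (fx i true f)) / 2 := by
  have h1 : av (D i f) = (av (fx i false f) - av (fx i true f)) / 2 := by
    rw [← av_sub, show (fun x => fx i false f x - fx i true f x) = fun x => 2 * D i f x by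
      funext x; unfold D fx; ring, av_mul_left]
    ring
  have h2 : |av (D i f)| ≤ w f i := abs_av_le _
  have h3 : av (D i f) ^ 2 ≤ w f i ^ 2 := by
    rw [← sq_abs]
    exact pow_le_pow_left₀ (abs_nonneg _) h2 2
  have h4 : av (fun x => f x ^ 2) = (av (fun x => fx i false f x ^ 2) +
      av (fun x => fx i true f x ^ 2)) / 2 := av_fx i (fun x => f x ^ 2)
  have h5 := av_fx i f
  unfold vr
  rw [h4, h5]
  rw [h1] at h3
  nlinarith

/-- The potential. -/
noncomputable def Pot (a b c e : ℝ) (f : (I → Bool) → ℝ) (K : Finset I) : ℝ :=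
  vr f - a * K.card - b * Psi f - c * Mass f + e * ∑ k ∈ K, w f k

/-- Revealing a variable of small influence. -/
lemma reveal {d : ℕ} {f : (I → Bool) → ℝ} (hd : LowDeg d f) {i : I} {K : Finset I} (hi : i ∉ K)
    {a b c e θ : ℝ} (hb : 0 ≤ b) (hθ : w f i ≤ θ) (hc : θ * (1 + 16 * b * (d : ℝ) ^ 4) ≤ c) :
    ∃ β : Bool, Pot a b c e f K ≤ Pot a b c e (fx i β f) K := by
  have h1 := Mass_fx i f
  have h2 := Psi_fx i hd
  have h3 := vr_fx i f
  have h4 : ∑ k ∈ K, w f k =
      (∑ k ∈ K, w (fx i false f) k + ∑ k ∈ K, w (fx i true f) k) / 2 := by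
    rw [← Finset.sum_add_distrib, Finset.sum_div]
    refine Finset.sum_congr rfl fun k hk => w_fx_ne ?_ f
    rintro rfl
    exact hi hk
  have h5 : w f i ^ 2 * (1 + 16 * b * (d : ℝ) ^ 4) ≤ c * w f i := by
    have h6 := w_nonneg f i
    have h7 : (0 : ℝ) ≤ 1 + 16 * b * (d : ℝ) ^ 4 := by positivity
    calc w f i ^ 2 * (1 + 16 * b * (d : ℝ) ^ 4)
        = w f i * (w f i * (1 + 16 * b * (d : ℝ) ^ 4)) := by ring
      _ ≤ w f i * (θ * (1 + 16 * b * (d : ℝ) ^ 4)) := by gcongr
      _ ≤ w f i * c := by gcongr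
      _ = c * w f i := mul_comm _ _
  have h6 : b * ((Psi (fx i false f) + Psi (fx i true f)) / 2) ≤
      b * (Psi f + 16 * (d : ℝ) ^ 4 * w f i ^ 2) := mul_le_mul_of_nonneg_left h2 hb
  have h7 : Pot a b c e f K ≤ (Pot a b c e (fx i false f) K + Pot a b c e (fx i true f) K) / 2 := by
    unfold Pot
    rw [h4]
    have h8 : c * ((Mass (fx i false f) + Mass (fx i true f)) / 2) = c * (Mass f - w f i) := by
      rw [h1]
    nlinarith
  by_cases h : Pot a b c e f K ≤ Pot a b c e (fx i false f) K
  · exact ⟨false, h⟩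
  · refine ⟨true, ?_⟩
    linarith [not_le.1 h]

/-- Keeping a variable of large influence. -/
lemma keep {f : (I → Bool) → ℝ} {i : I} {K : Finset I} (hi : i ∉ K)
    {a b c e θ : ℝ} (he : 0 ≤ e) (hθ : θ ≤ w f i) (ha : a ≤ e * θ) :
    Pot a b c e f K ≤ Pot a b c e f (insert i K) := by
  unfold Pot
  rw [Finset.card_insert_of_notMem hi, Finset.sum_insert hi]
  push_cast
  have : e * θ ≤ e * w f i := mul_le_mul_of_nonneg_left hθ he
  linarith

lemma fx_bound {f : (I → Bool) → ℝ} (hf : ∀ x, |f x| ≤ 1) (i : I) (b : Bool) :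
    ∀ x, |fx i b f x| ≤ 1 := fun _ => hf _

lemma fill_insert {S : Finset I} {z : I → Bool} {i : I} (hi : i ∉ S) (b : Bool) (x : I → Bool) :
    Function.update (fill S z x) i b = fill (insert i S) (Function.update z i b) x := by
  funext j
  by_cases h : j = i
  · subst h
    simp [fill]
  · have h1 : (j ∈ insert i S) ↔ j ∈ S := by simp [h]
    unfold fill
    simp only [Function.update_of_ne h, h1]

lemma lowDeg_fx {d : ℕ} {f : (I → Bool) → ℝ} (hd : LowDeg d f) (i : I) (b : Bool) :
    LowDeg d (fx i b f) := by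
  have h := lowDeg_res hd {i} (fun _ => b)
  have h2 : res {i} (fun _ => b) f = fx i b f := by
    funext x
    unfold res fx
    congr 1
    funext j
    by_cases hj : j = i
    · subst hj
      simp
    · simp [hj]
  rwa [h2] at h

lemma fx_fx_comm {i j : I} (h : j ≠ i) (b c : Bool) (f : (I → Bool) → ℝ) :
    fx j c (fx i b f) = fx i b (fx j c f) := by
  funext x
  unfold fx
  rw [Function.update_comm h]

/-- The tree process: all the variables in `U` are revealed or kept. -/
theorem process {d : ℕ} {a b c e θ : ℝ} (hb : 0 ≤ b) (he : 0 ≤ e)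
    (hc : θ * (1 + 16 * b * (d : ℝ) ^ 4) ≤ c) (ha : a ≤ e * θ) (U : Finset I) :
    ∀ (K : Finset I) (f : (I → Bool) → ℝ), Disjoint U K → LowDeg d f →
      (∀ j, j ∉ U → j ∉ K → w f j = 0) →
      ∃ (S : Finset I) (z : I → Bool), S ⊆ U ∧
        (∀ j, j ∉ U \ S → j ∉ K → w (fun x => f (fill S z x)) j = 0) ∧
        Pot a b c e f K ≤ Pot a b c e (fun x => f (fill S z x)) (K ∪ (U \ S)) := by
  induction U using Finset.induction_on with
  | empty =>
    intro K f _ _ h0
    refine ⟨∅, fun _ => false, Finset.Subset.refl _, ?_, ?_⟩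
    · intro j _ hj
      have h1 : (fun x => f (fill ∅ (fun _ => false) x)) = f := by
        funext x
        unfold fill
        simp
      rw [h1]
      exact h0 j (Finset.notMem_empty j) hj
    · have h1 : (fun x => f (fill ∅ (fun _ => false) x)) = f := by
        funext x
        unfold fill
        simp
      rw [h1]
      simp
  | insert i U hi ih =>
    intro K f hdis hd h0
    rw [Finset.disjoint_insert_left] at hdis
    by_cases hw : w f i ≤ θ
    · obtain ⟨β, hβ⟩ := reveal (a := a) (e := e) hd hdis.1 hb hw hc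
      obtain ⟨S, z, hS, hz, hP⟩ := ih K (fx i β f) hdis.2 (lowDeg_fx hd i β) (by
        intro j hj hjK
        by_cases hji : j = i
        · subst hji
          exact w_fx_self _ _ _
        · have h1 := w_fx_ne hji f
          rw [h0 j (by simp [hj, hji]) hjK] at h1
          have h2 := w_nonneg (fx i false f) j
          have h3 := w_nonneg (fx i true f) j
          cases β
          · linarith
          · linarith)
      have hiS : i ∉ S := fun h => hi (hS h)
      have hfun : (fun x => fx i β f (fill S z x)) =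
          fun x => f (fill (insert i S) (Function.update z i β) x) := by
        funext x
        unfold fx
        rw [fill_insert hiS]
      have hset : insert i U \ insert i S = U \ S := by
        ext j
        simp only [Finset.mem_sdiff, Finset.mem_insert, not_or]
        constructor
        · rintro ⟨h1 | h1, h2, h3⟩
          · exact absurd h1 h2
          · exact ⟨h1, h3⟩
        · rintro ⟨h1, h2⟩
          exact ⟨Or.inr h1, fun h => hi (h ▸ h1), h2⟩
      refine ⟨insert i S, Function.update z i β, Finset.insert_subset_insert _ hS, ?_, ?_⟩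
      · rw [hset, ← hfun]
        exact hz
      · rw [hset, ← hfun]
        exact hβ.trans hP
    · have hw' := (not_le.1 hw).le
      obtain ⟨S, z, hS, hz, hP⟩ := ih (insert i K) f (by
          rw [Finset.disjoint_insert_right]
          exact ⟨hi, hdis.2⟩) hd (by
        intro j hj hjK
        rw [Finset.mem_insert, not_or] at hjK
        exact h0 j (by simp [hj, hjK.1]) hjK.2)
      have hiS : i ∉ S := fun h => hi (hS h)
      have hset : insert i K ∪ (U \ S) = K ∪ (insert i U \ S) := by
        ext j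
        simp only [Finset.mem_sdiff, Finset.mem_insert, Finset.mem_union]
        constructor
        · rintro ((h1 | h1) | h1)
          · subst h1
            exact Or.inr ⟨Or.inl rfl, hiS⟩
          · exact Or.inl h1
          · exact Or.inr ⟨Or.inr h1.1, h1.2⟩
        · rintro (h1 | ⟨h1 | h1, h2⟩)
          · exact Or.inl (Or.inr h1)
          · exact Or.inl (Or.inl h1)
          · exact Or.inr ⟨h1, h2⟩
      refine ⟨S, z, hS.trans (Finset.subset_insert _ _), ?_, ?_⟩
      · intro j hj hjK
        refine hz j ?_ ?_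
        · intro h
          rw [Finset.mem_sdiff] at h
          exact hj (Finset.mem_sdiff.2 ⟨Finset.mem_insert_of_mem h.1, h.2⟩)
        · rw [Finset.mem_insert, not_or]
          refine ⟨?_, hjK⟩
          rintro rfl
          exact hj (Finset.mem_sdiff.2 ⟨Finset.mem_insert_self _ _, hiS⟩)
      · rw [← hset]
        exact (keep hdis.1 he hw' ha).trans hP

lemma abs_D_le {f : (I → Bool) → ℝ} (hf : ∀ x, |f x| ≤ 1) (j : I) (x : I → Bool) :
    |D j f x| ≤ 1 := by
  unfold D
  rw [abs_div, abs_of_pos (by norm_num : (0 : ℝ) < 2), div_le_one (by norm_num)]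
  have h1 := abs_sub (f (Function.update x j false)) (f (Function.update x j true))
  have h2 := hf (Function.update x j false)
  have h3 := hf (Function.update x j true)
  linarith

lemma Mass_le {f : (I → Bool) → ℝ} (hf : ∀ x, |f x| ≤ 1) {d : ℕ} (hd : LowDeg d f) :
    Mass f ≤ 4 * (d : ℝ) ^ 2 := by
  have h1 : ∀ x, ∑ j, |D j f x| ≤ 4 * (d : ℝ) ^ 2 := by
    intro x
    have h2 := sens_l1 hf hd univ x
    have h3 : ∑ i, |f x - f (Lib_helper30.AA.flip i x)| = 2 * ∑ j, |D j f x| := by
      rw [Finset.mul_sum]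
      refine Finset.sum_congr rfl fun j _ => ?_
      rw [sub_flip, abs_mul, abs_mul, abs_sg]
      norm_num
    rw [h3] at h2
    linarith
  unfold Mass w
  rw [← av_sum]
  exact av_le_const h1

lemma vr_le_one' {f : (I → Bool) → ℝ} (hf : ∀ x, |f x| ≤ 1) : vr f ≤ 1 := by
  unfold vr
  have h1 : av (fun x => f x ^ 2) ≤ 1 := av_le_const fun x => by
    rw [← sq_abs]
    exact pow_le_one₀ (abs_nonneg _) (hf x)
  have h2 := sq_nonneg (av f)
  linarith

/-- **A restriction with small energy depending on few variables.** -/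
theorem exists_leaf {f : (I → Bool) → ℝ} (hf : ∀ x, |f x| ≤ 1) {d : ℕ} (hd1 : 1 ≤ d)
    (hd : LowDeg d f) {θ lam : ℝ} (hθ : 0 < θ) (hlam : 0 < lam) (hw : ∀ j, w f j ≤ θ)
    (hV : lam ≤ vr f) (hsmall : 12 * (d : ℝ) ^ 2 * θ ≤ lam) :
    ∃ (S : Finset I) (z : I → Bool),
      vr f - lam ≤ vr (fun x => f (fill S z x)) ∧
      ((Sᶜ.card : ℕ) : ℝ) * (lam * θ) ≤ 12 * (d : ℝ) ^ 2 ∧
      Psi (fun x => f (fill S z x)) * lam ≤ 204 * (d : ℝ) ^ 6 * θ := by
  have hd' : (1 : ℝ) ≤ d := by exact_mod_cast hd1
  have hd0 : (0 : ℝ) < d := by linarith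
  set a : ℝ := lam * θ / (12 * (d : ℝ) ^ 2) with ha
  set b : ℝ := lam / (204 * (d : ℝ) ^ 6 * θ) with hb
  set e : ℝ := lam / (12 * (d : ℝ) ^ 2) with he
  set c : ℝ := e + θ * (1 + 16 * b * (d : ℝ) ^ 4) with hc
  have ha0 : 0 < a := by positivity
  have hb0 : 0 < b := by positivity
  have he0 : 0 < e := by positivity
  obtain ⟨S, z, -, hz, hP⟩ := process (d := d) (a := a) (b := b) (c := c) (e := e) (θ := θ)
    hb0.le he0.le (by rw [hc]; linarith) (by rw [ha, he]; exact le_of_eq (by ring)) univ ∅ f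
    (Finset.disjoint_empty_right _) hd (fun j hj _ => absurd (Finset.mem_univ j) hj)
  set F : (I → Bool) → ℝ := fun x => f (fill S z x) with hF
  have hFb : ∀ x, |F x| ≤ 1 := fun x => hf _
  rw [Finset.empty_union, ← Finset.compl_eq_univ_sdiff] at hP
  rw [← Finset.compl_eq_univ_sdiff] at hz
  -- the last term of the potential
  have hM : ∑ k ∈ Sᶜ, w F k = Mass F := by
    unfold Mass
    refine Finset.sum_subset (Finset.subset_univ _) fun j _ hj => ?_
    exact hz j hj (Finset.notMem_empty j)
  have hM0 : 0 ≤ Mass F := Finset.sum_nonneg fun j _ => w_nonneg F j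
  have hfin : Pot a b c e F Sᶜ ≤ vr F - a * (Sᶜ.card : ℕ) - b * Psi F := by
    unfold Pot
    rw [hM, hc]
    have h1 : 0 ≤ θ * (1 + 16 * b * (d : ℝ) ^ 4) * Mass F := by positivity
    nlinarith
  have hMf := Mass_le hf hd
  have hPf : Psi f ≤ θ * (4 * (d : ℝ) ^ 2) := by
    unfold Psi
    calc ∑ j, w f j ^ 2 ≤ ∑ j, θ * w f j := by
          refine Finset.sum_le_sum fun j _ => ?_
          rw [sq]
          exact mul_le_mul_of_nonneg_right (hw j) (w_nonneg f j)
      _ = θ * Mass f := by
          unfold Mass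
          rw [Finset.mul_sum]
      _ ≤ _ := mul_le_mul_of_nonneg_left hMf hθ.le
  have hstart : vr f - lam ≤ Pot a b c e f ∅ := by
    unfold Pot
    rw [Finset.card_empty, Finset.sum_empty]
    have h1 : b * Psi f ≤ b * (θ * (4 * (d : ℝ) ^ 2)) := mul_le_mul_of_nonneg_left hPf hb0.le
    have hc0 : 0 ≤ c := by positivity
    have h2 : c * Mass f ≤ c * (4 * (d : ℝ) ^ 2) := mul_le_mul_of_nonneg_left hMf hc0
    have h3 : c * (4 * (d : ℝ) ^ 2) = lam / 3 + 4 * (d : ℝ) ^ 2 * θ +
        64 * b * (d : ℝ) ^ 6 * θ := by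
      rw [hc, he]
      field_simp
      ring
    have h4 : b * (d : ℝ) ^ 6 * θ = lam / 204 := by
      rw [hb]
      field_simp
    have h5 : b * (θ * (4 * (d : ℝ) ^ 2)) ≤ 4 * (b * (d : ℝ) ^ 6 * θ) := by
      have h6 : (d : ℝ) ^ 2 ≤ (d : ℝ) ^ 6 := pow_le_pow_right₀ hd' (by norm_num)
      calc b * (θ * (4 * (d : ℝ) ^ 2)) = 4 * (b * θ) * (d : ℝ) ^ 2 := by ring
        _ ≤ 4 * (b * θ) * (d : ℝ) ^ 6 := by gcongr
        _ = _ := by ring
    rw [h3] at h2
    have h7 : 64 * b * (d : ℝ) ^ 6 * θ = 64 * (lam / 204) := by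
      rw [← h4]
      ring
    rw [h7] at h2
    rw [h4] at h5
    have h8 : b * Psi f + c * Mass f ≤ lam := by linarith
    push_cast
    linarith
  have hall := hstart.trans (hP.trans hfin)
  have hPsi0 := Psi_nonneg F
  have hcard0 : (0 : ℝ) ≤ ((Sᶜ.card : ℕ) : ℝ) := Nat.cast_nonneg _
  have hvr1 := vr_le_one' hFb
  have h1 : 0 ≤ a * ((Sᶜ.card : ℕ) : ℝ) := by positivity
  have h2 : 0 ≤ b * Psi F := by positivity
  refine ⟨S, z, by linarith, ?_, ?_⟩
  · have h3 : a * ((Sᶜ.card : ℕ) : ℝ) ≤ 1 := by linarith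
    rw [ha, div_mul_eq_mul_div, div_le_one (by positivity)] at h3
    linarith
  · have h3 : b * Psi F ≤ 1 := by linarith
    rw [hb, div_mul_eq_mul_div, div_le_one (by positivity)] at h3
    linarith

end Pool.Agent.Lib_helper51.Flat
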