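import Pool.Agent.Lib_helper51.Flat.Near

/-!
# Products of independent copies (MP_cf5f8b_an)
-/

set_option autoImplicit false
set_option linter.unusedSectionVars false

open Finset

namespace Pool.Agent.Lib_helper51.Flat

open Lib_helper30.AA Lib_helper8.QP Lib_helper12.CERT

variable {I : Type} [Fintype I] [DecidableEq I]

/-- The product of `K` independent copies of `f`. -/
noncomputable def xr (K : ℕ) (f : (I → Bool) → ℝ) (y : (Σ _ : Fin K, I) → Bool) : ℝ :=
  ∏ j : Fin K, f (blk j y)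

lemma xr_abs {K : ℕ} {f : (I → Bool) → ℝ} (hf : ∀ x, |f x| ≤ 1) (y : (Σ _ : Fin K, I) → Bool) :
    |xr K f y| ≤ 1 := by
  unfold xr
  rw [Finset.abs_prod]
  exact Finset.prod_le_one (fun _ _ => abs_nonneg _) fun j _ => hf _

lemma av_xr (K : ℕ) (f : (I → Bool) → ℝ) : av (xr K f) = av f ^ K := by
  have h := av_blocks (K := fun _ : Fin K => I) fun _ => f
  have h2 : av (xr K f) = av (fun y : (Σ _ : Fin K, I) → Bool => ∏ j, f (blk j y)) := rfl
  rw [h2, h, Finset.prod_const, Finset.card_univ, Fintype.card_fin]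

lemma av_xr_sq (K : ℕ) (f : (I → Bool) → ℝ) :
    av (fun y => xr K f y ^ 2) = av (fun x => f x ^ 2) ^ K := by
  rw [← av_xr]
  congr 1
  funext y
  unfold xr
  rw [Finset.prod_pow]

lemma lowDeg_xr {K d : ℕ} {f : (I → Bool) → ℝ} (hd : LowDeg d f) : LowDeg (K * d) (xr K f) := by
  have h1 : ∀ T : Finset (Fin K), LowDeg (T.card * d)
      (fun y : (Σ _ : Fin K, I) → Bool => ∏ j ∈ T, f (blk j y)) := by
    intro T
    induction T using Finset.induction_on with
    | empty =>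
      simp only [Finset.prod_empty, Finset.card_empty, zero_mul]
      exact lowDeg_const 1
    | insert j T hj ih =>
      simp only [Finset.prod_insert hj]
      rw [Finset.card_insert_of_notMem hj, add_mul, one_mul, add_comm]
      refine lowDeg_mul ?_ ih
      exact lowDeg_pull (e := emS (K := fun _ : Fin K => I) j) hd
  have h2 := h1 univ
  rw [Finset.card_univ, Fintype.card_fin] at h2
  exact h2

lemma w_xr_le {K : ℕ} {f : (I → Bool) → ℝ} (hf : ∀ x, |f x| ≤ 1) (j : Fin K) (a : I) :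
    w (xr K f) ⟨j, a⟩ ≤ w f a := by
  have h1 : ∀ y : (Σ _ : Fin K, I) → Bool, |D ⟨j, a⟩ (xr K f) y| ≤ |D a f (blk j y)| := by
    intro y
    have h2 : |xr K f y - xr K f (Lib_helper30.AA.flip ⟨j, a⟩ y)| ≤
        |f (blk j y) - f (Lib_helper30.AA.flip a (blk j y))| := by
      unfold xr
      rw [← Finset.mul_prod_erase univ _ (Finset.mem_univ j),
        ← Finset.mul_prod_erase univ (fun l => f (blk l (Lib_helper30.AA.flip ⟨j, a⟩ y)))
          (Finset.mem_univ j)]
      have h3 : ∏ l ∈ univ.erase j, f (blk l (Lib_helper30.AA.flip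
          (⟨j, a⟩ : Σ _ : Fin K, I) y)) = ∏ l ∈ univ.erase j, f (blk l y) :=
        Finset.prod_congr rfl fun l hl => by
          rw [blk_flip_ne (K := fun _ : Fin K => I) (Finset.ne_of_mem_erase hl)]
      rw [h3, ← sub_mul, abs_mul, blk_flip_self (K := fun _ : Fin K => I)]
      refine mul_le_of_le_one_right (abs_nonneg _) ?_
      rw [Finset.abs_prod]
      exact Finset.prod_le_one (fun _ _ => abs_nonneg _) fun l _ => hf _
    rw [sub_flip, sub_flip, abs_mul, abs_mul, abs_mul, abs_mul, abs_sg, abs_sg] at h2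
    norm_num at h2
    exact h2
  unfold w
  refine (av_mono h1).trans (le_of_eq ?_)
  exact av_pull (emS (K := fun _ : Fin K => I) j) (fun x => |D a f x|)

/-- **Amplification to variance close to `1`.** -/
theorem amplify2 {f : (I → Bool) → ℝ} (hf : ∀ x, |f x| ≤ 1) {d : ℕ}
    (hd : LowDeg d f) (hV : 0 < vr f) {E : ℕ} (hE : 1 ≤ E) :
    ∃ N : ℕ, 1 ≤ N ∧ (N : ℝ) * vr f ≤ 2 ∧
      ∃ (X : Type) (_ : Fintype X) (_ : DecidableEq X) (F : (X → Bool) → ℝ), (∀ x, |F x| ≤ 1) ∧
      LowDeg (200 * E * (7200 * (1200 * E ^ 2) ^ 3 * N ^ 2 * d)) F ∧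
      1 - 1 / (E : ℝ) ≤ vr F ∧
      ∀ x, ∃ j, w F x ≤ ((7200 * (1200 * E ^ 2) ^ 3 * N ^ 2 : ℕ) : ℝ) ^ 2 * w f j := by
  have hEr : (1 : ℝ) ≤ E := by exact_mod_cast hE
  obtain ⟨N, hN1, hNV, F, hFb, hFd, hF2, hF1, hFw⟩ := amplify1 hf hd hV
    (M := 1200 * E ^ 2) (by
      have : 1 ≤ E ^ 2 := Nat.one_le_pow _ _ (by omega)
      omega)
  refine ⟨N, hN1, hNV, Σ _ : Fin (200 * E), (Fin N × I), inferInstance, inferInstance,
    xr (200 * E) F, xr_abs hFb, lowDeg_xr hFd, ?_, ?_⟩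
  · unfold vr
    rw [av_xr_sq, av_xr]
    have h1 : 1 - 1 / (2 * (E : ℝ)) ≤ av (fun x => F x ^ 2) ^ (200 * E) := by
      have h2 : (3 : ℝ) / ((1200 * E ^ 2 : ℕ) : ℝ) = 1 / (400 * E ^ 2) := by
        push_cast
        field_simp
        norm_num
      rw [h2] at hF2
      have h3 : 1 / (400 * (E : ℝ) ^ 2) ≤ 1 := by
        rw [div_le_one (by positivity)]
        nlinarith
      have h4 := one_add_mul_le_pow (a := -(1 / (400 * (E : ℝ) ^ 2))) (by linarith) (200 * E)
      have h5 : 1 + ((200 * E : ℕ) : ℝ) * -(1 / (400 * (E : ℝ) ^ 2)) = 1 - 1 / (2 * (E : ℝ)) := by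
        push_cast
        field_simp
        ring
      rw [h5] at h4
      refine h4.trans (pow_le_pow_left₀ (by linarith) ?_ _)
      linarith
    have h2 : (av F ^ (200 * E)) ^ 2 ≤ 1 / (2 * (E : ℝ)) := by
      have h3 : av F ^ 2 ≤ (199 / 200) ^ 2 := by
        rw [← sq_abs]
        exact pow_le_pow_left₀ (abs_nonneg _) hF1 2
      have h4 : (av F ^ (200 * E)) ^ 2 ≤ ((199 / 200) ^ 2) ^ (200 * E) := by
        rw [← pow_mul, mul_comm, pow_mul]
        exact pow_le_pow_left₀ (sq_nonneg _) h3 _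
      have h5 : 2 * (E : ℝ) ≤ (101 / 100) ^ (200 * E) := by
        have h6 := one_add_mul_le_pow (a := (1 / 100 : ℝ)) (by norm_num) (200 * E)
        have h7 : 1 + ((200 * E : ℕ) : ℝ) * (1 / 100) = 1 + 2 * E := by
          push_cast
          ring
        rw [h7] at h6
        norm_num at h6 ⊢
        linarith
      have h6 : ((199 / 200 : ℝ) ^ 2) ^ (200 * E) * (101 / 100) ^ (200 * E) ≤ 1 := by
        rw [← mul_pow]
        exact pow_le_one₀ (by norm_num) (by norm_num)
      rw [le_div_iff₀ (by positivity)]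
      calc (av F ^ (200 * E)) ^ 2 * (2 * (E : ℝ))
          ≤ ((199 / 200) ^ 2) ^ (200 * E) * (101 / 100) ^ (200 * E) := by gcongr
        _ ≤ 1 := h6
    have h3 : 1 / (2 * (E : ℝ)) + 1 / (2 * (E : ℝ)) = 1 / E := by
      field_simp
      norm_num
    linarith
  · rintro ⟨j, x⟩
    exact ⟨x.2, (w_xr_le hFb j x).trans (hFw x)⟩

end Pool.Agent.Lib_helper51.Flat
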